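import Pool.Agent.N688.GB.Defs

set_option autoImplicit false
set_option linter.unusedSectionVars false

/-!
# Unitary representations of a discrete abelian group: the weakly mixing part
-/

open Filter Topology Finset
open scoped BoundedContinuousFunction InnerProductSpace ComplexConjugate

namespace Pool.Agent.N688.GB

variable {G : Type} [AddCommGroup G] [TopologicalSpace G] [DiscreteTopology G]
variable {H : Type} [NormedAddCommGroup H] [InnerProductSpace ℂ H] [CompleteSpace H]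

/-- minimal invariant subspaces of a finite-dimensional space: a joint eigenvector -/
theorem joint_eigen (U : G → (H ≃ₗᵢ[ℂ] H)) (hU : ∀ g h x, U (g + h) x = U g (U h x))
    (E : Submodule ℂ H) [FiniteDimensional ℂ E] (hE : E ≠ ⊥) (hEi : ∀ g, ∀ x ∈ E, U g x ∈ E) :
    ∃ v ∈ E, v ≠ 0 ∧ ∀ g, ∃ c : ℂ, U g v = c • v := by
  classical
  obtain ⟨P, hP⟩ : ∃ P : ℕ → Prop, P = fun n => ∃ W : Submodule ℂ H, W ≤ E ∧ W ≠ ⊥ ∧
      (∀ g, ∀ x ∈ W, U g x ∈ W) ∧ Module.finrank ℂ W = n := ⟨_, rfl⟩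
  have hex : ∃ n, P n := ⟨Module.finrank ℂ E, by rw [hP]; exact ⟨E, le_rfl, hE, hEi, rfl⟩⟩
  have h1 := Nat.find_spec hex
  have h2 : ∀ n, P n → Nat.find hex ≤ n := fun n hn => Nat.find_min' hex hn
  generalize Nat.find hex = N at h1 h2
  rw [hP] at h1
  obtain ⟨W, hWE, hW0, hWi, hWN⟩ := h1
  have : FiniteDimensional ℂ W := Submodule.finiteDimensional_of_le hWE
  obtain ⟨v, hvW, hv0⟩ := Submodule.exists_mem_ne_zero_of_ne_bot hW0
  refine ⟨v, hWE hvW, hv0, fun g => ?_⟩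
  have : Nontrivial W := ⟨⟨⟨v, hvW⟩, 0, fun h => hv0 (by simpa using congrArg Subtype.val h)⟩⟩
  let T : W →ₗ[ℂ] W := ((U g).toLinearEquiv : H →ₗ[ℂ] H).restrict (fun x hx => hWi g x hx)
  obtain ⟨c, hc⟩ := Module.End.exists_eigenvalue (T : Module.End ℂ W)
  obtain ⟨w, hw⟩ := hc.exists_hasEigenvector
  have hw1 : U g (w : H) = c • (w : H) := by
    have h3 := hw.apply_eq_smul
    exact congrArg Subtype.val h3
  have hw0 : (w : H) ≠ 0 := fun h => hw.2 (by simpa using h)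
  refine ⟨c, ?_⟩
  obtain ⟨W', hW'⟩ : ∃ W' : Submodule ℂ H, W' = W ⊓
      (LinearMap.ker (((U g).toLinearEquiv : H →ₗ[ℂ] H) - c • LinearMap.id)) := ⟨_, rfl⟩
  have hmem : ∀ x, x ∈ W' ↔ x ∈ W ∧ U g x = c • x := by
    intro x
    rw [hW', Submodule.mem_inf, LinearMap.mem_ker, LinearMap.sub_apply, sub_eq_zero]
    rfl
  have h4 : Module.finrank ℂ W ≤ Module.finrank ℂ W' := by
    rw [hWN]
    apply h2
    rw [hP]
    refine ⟨W', ?_, ?_, ?_, rfl⟩
    · intro x hx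
      exact hWE ((hmem x).1 hx).1
    · intro h
      have h5 : (w : H) ∈ W' := (hmem _).2 ⟨w.2, hw1⟩
      rw [h, Submodule.mem_bot] at h5
      exact hw0 h5
    · intro g' x hx
      obtain ⟨h5, h6⟩ := (hmem x).1 hx
      refine (hmem _).2 ⟨hWi g' x h5, ?_⟩
      rw [← hU, add_comm, hU, h6, map_smul]
  have h5 : W' ≤ W := by
    intro x hx
    exact ((hmem x).1 hx).1
  have h6 : W' = W := Submodule.eq_of_le_of_finrank_le h5 h4
  have h7 : v ∈ W' := by rw [h6]; exact hvW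
  exact ((hmem v).1 h7).2

/-- a joint eigenvector comes with a character -/
theorem eigen_char (U : G → (H ≃ₗᵢ[ℂ] H)) (hU : ∀ g h x, U (g + h) x = U g (U h x))
    (v : H) (hv0 : v ≠ 0) (hv : ∀ g, ∃ c : ℂ, U g v = c • v) :
    ∃ θ : AddChar G Circle, ∀ g, U g v = ((θ g : Circle) : ℂ) • v := by
  choose c hc using hv
  have hn : ∀ g, ‖c g‖ = 1 := by
    intro g
    have h1 : ‖U g v‖ = ‖v‖ := (U g).norm_map v
    rw [hc, norm_smul] at h1
    have h2 : ‖v‖ ≠ 0 := norm_ne_zero_iff.2 hv0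
    exact mul_right_cancel₀ h2 (by rw [h1, one_mul])
  have hinj : ∀ a b : ℂ, a • v = b • v → a = b := by
    intro a b h
    have h1 : (a - b) • v = 0 := by rw [sub_smul, h, sub_self]
    exact sub_eq_zero.1 ((smul_eq_zero.1 h1).resolve_right hv0)
  have hadd : ∀ g h, c (g + h) = c g * c h := by
    intro g h
    apply hinj
    rw [← hc, hU, hc h, map_smul, hc g, smul_smul, mul_comm]
  have hc0 : c 0 = 1 := by
    have h1 := hadd 0 0
    rw [add_zero] at h1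
    have h2 : c 0 ≠ 0 := by
      intro h
      have := hn 0
      rw [h, norm_zero] at this
      exact zero_ne_one this
    exact mul_left_cancel₀ h2 (by rw [← h1, mul_one])
  let θ : AddChar G Circle :=
    { toFun := fun g => ⟨c g, by rw [Submonoid.unitSphere, ← SetLike.mem_coe]; simpa using hn g⟩
      map_zero_eq_one' := by
        apply Subtype.ext
        simpa using hc0
      map_add_eq_mul' := fun g h => by
        apply Subtype.ext
        exact hadd g h }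
  exact ⟨θ, fun g => hc g⟩

/-- the correlation function -/
noncomputable def cor (U : G → (H ≃ₗᵢ[ℂ] H)) (f x y : H) : G →ᵇ ℂ :=
  BoundedContinuousFunction.ofNormedAddCommGroupDiscrete
    (fun a => ⟪x, U a f⟫_ℂ * ⟪U a f, y⟫_ℂ) (‖f‖ * ‖f‖ * ‖x‖ * ‖y‖) (by
    intro a
    rw [norm_mul]
    have h1 := norm_inner_le_norm (𝕜 := ℂ) x (U a f)
    have h2 := norm_inner_le_norm (𝕜 := ℂ) (U a f) y
    rw [(U a).norm_map] at h1 h2
    calc ‖⟪x, U a f⟫_ℂ‖ * ‖⟪U a f, y⟫_ℂ‖ ≤ (‖x‖ * ‖f‖) * (‖f‖ * ‖y‖) :=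
          mul_le_mul h1 h2 (norm_nonneg _) (by positivity)
      _ = ‖f‖ * ‖f‖ * ‖x‖ * ‖y‖ := by ring)

theorem cor_apply (U : G → (H ≃ₗᵢ[ℂ] H)) (f x y : H) (a : G) :
    cor U f x y a = ⟪x, U a f⟫_ℂ * ⟪U a f, y⟫_ℂ := rfl

theorem cor_bd (U : G → (H ≃ₗᵢ[ℂ] H)) (f x y : H) (a : G) :
    ‖⟪x, U a f⟫_ℂ * ⟪U a f, y⟫_ℂ‖ ≤ ‖f‖ * ‖f‖ * ‖x‖ * ‖y‖ := by
  rw [norm_mul]
  have h1 := norm_inner_le_norm (𝕜 := ℂ) x (U a f)
  have h2 := norm_inner_le_norm (𝕜 := ℂ) (U a f) y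
  rw [(U a).norm_map] at h1 h2
  calc ‖⟪x, U a f⟫_ℂ‖ * ‖⟪U a f, y⟫_ℂ‖ ≤ (‖x‖ * ‖f‖) * (‖f‖ * ‖y‖) :=
        mul_le_mul h1 h2 (norm_nonneg _) (by positivity)
    _ = ‖f‖ * ‖f‖ * ‖x‖ * ‖y‖ := by ring

theorem cor_norm (U : G → (H ≃ₗᵢ[ℂ] H)) (f x y : H) :
    ‖cor U f x y‖ ≤ ‖f‖ * ‖f‖ * ‖x‖ * ‖y‖ :=
  (BoundedContinuousFunction.norm_le (by positivity)).2 fun a => cor_bd U f x y a

theorem m_abs {m : (G →ᵇ ℝ) →ₗ[ℝ] ℝ} (hm : IsMean m) (f : G →ᵇ ℝ) : |m f| ≤ ‖f‖ := by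
  rw [abs_le]
  constructor
  · have h1 : m ((-‖f‖) • 1) ≤ m f := m_mono hm fun n => by
      have h2 := f.norm_coe_le_norm n
      rw [Real.norm_eq_abs, abs_le] at h2
      simpa using h2.1
    rw [m_const hm] at h1
    exact h1
  · have h1 : m f ≤ m (‖f‖ • 1) := m_mono hm fun n => by
      have h2 := f.norm_coe_le_norm n
      rw [Real.norm_eq_abs, abs_le] at h2
      simpa using h2.2
    rw [m_const hm] at h1
    exact h1

theorem mC_norm {m : (G →ᵇ ℝ) →ₗ[ℝ] ℝ} (hm : IsMean m) (f : G →ᵇ ℂ) : ‖mC m f‖ ≤ 2 * ‖f‖ := by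
  rw [mC_apply]
  have h1 : ‖cre f‖ ≤ ‖f‖ := by
    rw [BoundedContinuousFunction.norm_le (norm_nonneg _)]
    intro n
    exact (Complex.abs_re_le_norm _).trans (f.norm_coe_le_norm n)
  have h2 : ‖cim f‖ ≤ ‖f‖ := by
    rw [BoundedContinuousFunction.norm_le (norm_nonneg _)]
    intro n
    exact (Complex.abs_im_le_norm _).trans (f.norm_coe_le_norm n)
  calc _ ≤ ‖((m (cre f) : ℝ) : ℂ)‖ + ‖((m (cim f) : ℝ) : ℂ) * Complex.I‖ := norm_add_le _ _
    _ = |m (cre f)| + |m (cim f)| := by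
      rw [norm_mul, Complex.norm_I, mul_one, Complex.norm_real, Complex.norm_real,
        Real.norm_eq_abs, Real.norm_eq_abs]
    _ ≤ ‖f‖ + ‖f‖ := add_le_add ((m_abs hm _).trans h1) ((m_abs hm _).trans h2)
    _ = 2 * ‖f‖ := by ring

/-- the sesquilinear form -/
noncomputable def corB {m : (G →ᵇ ℝ) →ₗ[ℝ] ℝ} (hm : IsMean m) (U : G → (H ≃ₗᵢ[ℂ] H)) (f : H) :
    H →L⋆[ℂ] H →L[ℂ] ℂ :=
  LinearMap.mkContinuous₂ (LinearMap.mk₂'ₛₗ (starRingEnd ℂ) (RingHom.id ℂ)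
    (fun x y => mC m (cor U f x y))
    (by
      intro x x' y
      rw [← map_add]
      congr 1
      ext a
      simp only [cor_apply, BoundedContinuousFunction.coe_add, Pi.add_apply, inner_add_left]
      ring)
    (by
      intro c x y
      rw [smul_eq_mul, ← smul_eq_mul, ← map_smul]
      congr 1
      ext a
      simp only [cor_apply, BoundedContinuousFunction.coe_smul, inner_smul_left, smul_eq_mul]
      ring)
    (by
      intro x y y'
      rw [← map_add]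
      congr 1
      ext a
      simp only [cor_apply, BoundedContinuousFunction.coe_add, Pi.add_apply, inner_add_right]
      ring)
    (by
      intro c x y
      rw [RingHom.id_apply, ← map_smul]
      congr 1
      ext a
      simp only [cor_apply, BoundedContinuousFunction.coe_smul, inner_smul_right, smul_eq_mul]
      ring)) (2 * (‖f‖ * ‖f‖)) (by
    intro x y
    refine (mC_norm hm _).trans ?_
    have := cor_norm U f x y
    linarith)

theorem corB_apply {m : (G →ᵇ ℝ) →ₗ[ℝ] ℝ} (hm : IsMean m) (U : G → (H ≃ₗᵢ[ℂ] H)) (f x y : H) :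
    corB hm U f x y = mC m (cor U f x y) := rfl

/-- the function `|⟪x, U a f⟫|²` -/
noncomputable def sqf (U : G → (H ≃ₗᵢ[ℂ] H)) (f x : H) : G →ᵇ ℝ :=
  BoundedContinuousFunction.ofNormedAddCommGroupDiscrete
    (fun a => ‖⟪x, U a f⟫_ℂ‖ ^ 2) ((‖x‖ * ‖f‖) ^ 2) (by
    intro a
    rw [Real.norm_of_nonneg (by positivity)]
    have h1 := norm_inner_le_norm (𝕜 := ℂ) x (U a f)
    rw [(U a).norm_map] at h1
    gcongr)

theorem sqf_apply (U : G → (H ≃ₗᵢ[ℂ] H)) (f x : H) (a : G) :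
    sqf U f x a = ‖⟪x, U a f⟫_ℂ‖ ^ 2 := rfl

theorem cor_self (U : G → (H ≃ₗᵢ[ℂ] H)) (f x : H) : cor U f x x = co (sqf U f x) := by
  ext a
  rw [cor_apply, co_apply, sqf_apply, ← inner_conj_symm (U a f) x, Complex.mul_conj,
    Complex.normSq_eq_norm_sq]

theorem corB_self {m : (G →ᵇ ℝ) →ₗ[ℝ] ℝ} (hm : IsMean m) (U : G → (H ≃ₗᵢ[ℂ] H)) (f x : H) :
    corB hm U f x x = ((m (sqf U f x) : ℝ) : ℂ) := by
  rw [corB_apply, cor_self, mC_co]


/-! ### compactness -/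

theorem sum_sqf {m : (G →ᵇ ℝ) →ₗ[ℝ] ℝ} (hm : IsMean m) (U : G → (H ≃ₗᵢ[ℂ] H)) (f : H) {n : ℕ}
    (e : Fin n → H) (he : Orthonormal ℂ e) : ∑ i, m (sqf U f (e i)) ≤ ‖f‖ ^ 2 := by
  rw [← map_sum]
  calc m (∑ i, sqf U f (e i)) ≤ m ((‖f‖ ^ 2) • 1) := by
        refine m_mono hm fun a => ?_
        rw [BoundedContinuousFunction.coe_sum, Finset.sum_apply]
        have h1 := he.sum_inner_products_le (s := Finset.univ) (U a f)
        rw [(U a).norm_map] at h1
        have h2 : ((‖f‖ ^ 2) • (1 : G →ᵇ ℝ)) a = ‖f‖ ^ 2 := by simp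
        rw [h2]
        exact h1
    _ = ‖f‖ ^ 2 := m_const hm _

/-- outside of a finite-dimensional space the form is small -/
theorem exists_fin {m : (G →ᵇ ℝ) →ₗ[ℝ] ℝ} (hm : IsMean m) (U : G → (H ≃ₗᵢ[ℂ] H)) (f : H) {ε : ℝ}
    (hε : 0 < ε) : ∃ F : Submodule ℂ H, FiniteDimensional ℂ F ∧
      ∀ x ∈ Fᗮ, m (sqf U f x) ≤ ε * ‖x‖ ^ 2 := by
  classical
  obtain ⟨P, hP⟩ : ∃ P : ℕ → Prop, P = fun n => ∃ e : Fin n → H, Orthonormal ℂ e ∧
      ∀ i, ε < m (sqf U f (e i)) := ⟨_, rfl⟩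
  obtain ⟨N, hN⟩ := exists_nat_gt (‖f‖ ^ 2 / ε)
  have hbd : ∀ n, P n → n ≤ N := by
    intro n hn
    rw [hP] at hn
    obtain ⟨e, he, he2⟩ := hn
    have h1 := sum_sqf hm U f e he
    have h2 : (n : ℝ) * ε ≤ ∑ i, m (sqf U f (e i)) := by
      calc (n : ℝ) * ε = ∑ _i : Fin n, ε := by simp
        _ ≤ _ := Finset.sum_le_sum fun i _ => (he2 i).le
    have h3 : (n : ℝ) ≤ ‖f‖ ^ 2 / ε := by
      rw [le_div_iff₀ hε]
      linarith
    exact_mod_cast (h3.trans hN.le)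
  have h0 : P 0 := by
    rw [hP]
    exact ⟨Fin.elim0, ⟨fun i => i.elim0, fun i => i.elim0⟩, fun i => i.elim0⟩
  obtain ⟨n, hn, hmax⟩ : ∃ n, P n ∧ ∀ n', P n' → n' ≤ n := by
    refine ⟨Nat.findGreatest P N, Nat.findGreatest_spec (Nat.zero_le N) h0, fun n' hn' => ?_⟩
    exact Nat.le_findGreatest (hbd n' hn') hn'
  have hn' := hn
  rw [hP] at hn'
  obtain ⟨e, he, he2⟩ := hn'
  refine ⟨Submodule.span ℂ (Set.range e),
    FiniteDimensional.span_of_finite ℂ (Set.finite_range e), fun x hx => ?_⟩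
  by_contra hcon
  rw [not_le] at hcon
  have hx0 : x ≠ 0 := by
    rintro rfl
    have : sqf U f (0 : H) = 0 := by
      ext a
      rw [sqf_apply, inner_zero_left]
      simp
    rw [this, map_zero, norm_zero] at hcon
    simp at hcon
  have hxn : 0 < ‖x‖ := norm_pos_iff.2 hx0
  set y : H := ((‖x‖⁻¹ : ℝ) : ℂ) • x with hy
  have hyn : ‖y‖ = 1 := by
    rw [hy, norm_smul, Complex.norm_real, norm_inv, norm_norm, inv_mul_cancel₀ hxn.ne']
  have hyq : m (sqf U f y) = ‖x‖⁻¹ ^ 2 * m (sqf U f x) := by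
    rw [← smul_eq_mul, ← map_smul]
    congr 1
    ext a
    show ‖⟪y, U a f⟫_ℂ‖ ^ 2 = ‖x‖⁻¹ ^ 2 * ‖⟪x, U a f⟫_ℂ‖ ^ 2
    rw [hy, inner_smul_left, norm_mul,
      mul_pow, Complex.conj_ofReal, Complex.norm_real, norm_inv, norm_norm]
  have hyx : ∀ i, ⟪e i, y⟫_ℂ = 0 := by
    intro i
    rw [hy, inner_smul_right]
    rw [(Submodule.mem_orthogonal _ _).1 hx (e i) (Submodule.subset_span (Set.mem_range_self i)),
      mul_zero]
  have hP1 : P (n + 1) := by
    rw [hP]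
    refine ⟨Fin.cons y e, ?_, ?_⟩
    · constructor
      · intro i
        refine Fin.cases ?_ (fun j => ?_) i
        · exact hyn
        · exact he.1 j
      · intro i j hij
        revert hij
        refine Fin.cases ?_ (fun i' => ?_) i
        · refine Fin.cases ?_ (fun j' => ?_) j
          · intro h
            exact absurd rfl h
          · intro _
            rw [Fin.cons_zero, Fin.cons_succ, ← inner_conj_symm, hyx, map_zero]
        · refine Fin.cases ?_ (fun j' => ?_) j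
          · intro _
            rw [Fin.cons_zero, Fin.cons_succ, hyx]
          · intro h
            rw [Fin.cons_succ, Fin.cons_succ]
            exact he.2 fun h' => h (by rw [h'])
    · intro i
      refine Fin.cases ?_ (fun j => ?_) i
      · rw [Fin.cons_zero, hyq]
        have h1 : 0 < ‖x‖⁻¹ ^ 2 := by positivity
        calc ε = ‖x‖⁻¹ ^ 2 * (ε * ‖x‖ ^ 2) := by
              field_simp
          _ < ‖x‖⁻¹ ^ 2 * m (sqf U f x) := mul_lt_mul_of_pos_left hcon h1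
      · rw [Fin.cons_succ]
        exact he2 j
  have := hmax _ hP1
  omega


/-- the operator of the form -/
noncomputable def AA {m : (G →ᵇ ℝ) →ₗ[ℝ] ℝ} (hm : IsMean m) (U : G → (H ≃ₗᵢ[ℂ] H)) (f : H) :
    H →L[ℂ] H := InnerProductSpace.continuousLinearMapOfBilin (corB hm U f)

theorem AA_inner {m : (G →ᵇ ℝ) →ₗ[ℝ] ℝ} (hm : IsMean m) (U : G → (H ≃ₗᵢ[ℂ] H)) (f x y : H) :
    ⟪AA hm U f x, y⟫_ℂ = mC m (cor U f x y) :=
  InnerProductSpace.continuousLinearMapOfBilin_apply _ _ _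

theorem AA_self {m : (G →ᵇ ℝ) →ₗ[ℝ] ℝ} (hm : IsMean m) (U : G → (H ≃ₗᵢ[ℂ] H)) (f x : H) :
    ⟪AA hm U f x, x⟫_ℂ = ((m (sqf U f x) : ℝ) : ℂ) := by
  rw [AA_inner, cor_self, mC_co]

theorem AA_symm {m : (G →ᵇ ℝ) →ₗ[ℝ] ℝ} (hm : IsMean m) (U : G → (H ≃ₗᵢ[ℂ] H)) (f : H) :
    (AA hm U f).IsSymmetric := by
  intro x y
  show ⟪AA hm U f x, y⟫_ℂ = ⟪x, AA hm U f y⟫_ℂ
  rw [← inner_conj_symm x, AA_inner, AA_inner, ← mC_star]
  congr 1
  ext a
  rw [BoundedContinuousFunction.star_apply, cor_apply, cor_apply, RCLike.star_def, map_mul,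
    inner_conj_symm, inner_conj_symm, mul_comm]

/-- the Cauchy-Schwarz inequality -/
theorem mC_cs {m : (G →ᵇ ℝ) →ₗ[ℝ] ℝ} (hm : IsMean m) (U : G → (H ≃ₗᵢ[ℂ] H)) (f x y : H) :
    ‖mC m (cor U f x y)‖ ^ 2 ≤ m (sqf U f x) * m (sqf U f y) := by
  have h0 : ∀ z : H, 0 ≤ m (sqf U f z) := fun z => hm.pos _ fun a => by
    rw [sqf_apply]
    positivity
  -- the quadratic inequality
  have key : ∀ t : ℝ, 0 ≤ m (sqf U f x) * (t * t) + (2 * ‖mC m (cor U f x y)‖) * t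
      + m (sqf U f y) := by
    intro t
    by_cases hz : mC m (cor U f x y) = 0
    · rw [hz, norm_zero]
      have := h0 x
      have := h0 y
      nlinarith [mul_self_nonneg t, mul_nonneg (h0 x) (mul_self_nonneg t)]
    have hzn : ‖mC m (cor U f x y)‖ ≠ 0 := norm_ne_zero_iff.2 hz
    obtain ⟨c, hc⟩ : ∃ c : ℂ, c = (‖mC m (cor U f x y)‖ : ℂ)⁻¹ * mC m (cor U f x y) := ⟨_, rfl⟩
    have hcn : ‖c‖ = 1 := by
      rw [hc, norm_mul, norm_inv, Complex.norm_real, norm_norm, inv_mul_cancel₀ hzn]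
    have hcc : conj c * mC m (cor U f x y) = (‖mC m (cor U f x y)‖ : ℂ) := by
      rw [hc, map_mul, map_inv₀, Complex.conj_ofReal, mul_assoc, mul_comm (conj _),
        Complex.mul_conj, Complex.normSq_eq_norm_sq]
      have h2 : ((‖mC m (cor U f x y)‖ : ℝ) : ℂ) ≠ 0 := by exact_mod_cast hzn
      push_cast
      field_simp
    have h3 : ⟪AA hm U f (((t : ℂ) * c) • x + y), ((t : ℂ) * c) • x + y⟫_ℂ =
        ((m (sqf U f x) * (t * t) + (2 * ‖mC m (cor U f x y)‖) * t + m (sqf U f y) : ℝ) : ℂ) := by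
      rw [map_add, map_smul, inner_add_left, inner_add_right, inner_add_right, inner_smul_left,
        inner_smul_left, inner_smul_right, inner_smul_right, AA_self, AA_self]
      have h4 : ⟪AA hm U f x, y⟫_ℂ = mC m (cor U f x y) := AA_inner _ _ _ _ _
      have h5 : ⟪AA hm U f y, x⟫_ℂ = conj (mC m (cor U f x y)) := by
        rw [← h4, inner_conj_symm]
        exact AA_symm hm U f y x
      rw [h4, h5, map_mul, Complex.conj_ofReal]
      have h6 : c * conj c = 1 := by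
        rw [Complex.mul_conj, Complex.normSq_eq_norm_sq, hcn]
        norm_num
      have h7 : c * conj (mC m (cor U f x y)) = (‖mC m (cor U f x y)‖ : ℂ) := by
        have := congrArg conj hcc
        rw [map_mul, Complex.conj_conj, Complex.conj_ofReal] at this
        exact this
      push_cast
      linear_combination (t * t * (m (sqf U f x) : ℂ)) * h6 + (t : ℂ) * h7 + (t : ℂ) * hcc
    have h4 := h0 (((t : ℂ) * c) • x + y)
    rw [AA_self] at h3
    have h5 : m (sqf U f (((t : ℂ) * c) • x + y)) = _ := Complex.ofReal_injective h3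
    rw [h5] at h4
    exact h4
  have h1 := discrim_le_zero key
  rw [discrim] at h1
  nlinarith

theorem sqf_le {m : (G →ᵇ ℝ) →ₗ[ℝ] ℝ} (hm : IsMean m) (U : G → (H ≃ₗᵢ[ℂ] H)) (f x : H) :
    m (sqf U f x) ≤ ‖f‖ ^ 2 * ‖x‖ ^ 2 := by
  calc m (sqf U f x) ≤ m ((‖f‖ ^ 2 * ‖x‖ ^ 2) • 1) := by
        refine m_mono hm fun a => ?_
        have h2 : ((‖f‖ ^ 2 * ‖x‖ ^ 2) • (1 : G →ᵇ ℝ)) a = ‖f‖ ^ 2 * ‖x‖ ^ 2 := by simp
        rw [h2, sqf_apply]
        have h1 := norm_inner_le_norm (𝕜 := ℂ) x (U a f)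
        rw [(U a).norm_map] at h1
        calc ‖⟪x, U a f⟫_ℂ‖ ^ 2 ≤ (‖x‖ * ‖f‖) ^ 2 := by gcongr
          _ = _ := by ring
    _ = _ := m_const hm _

theorem AA_norm {m : (G →ᵇ ℝ) →ₗ[ℝ] ℝ} (hm : IsMean m) (U : G → (H ≃ₗᵢ[ℂ] H)) (f x : H) :
    ‖AA hm U f x‖ ^ 2 ≤ ‖f‖ ^ 2 * m (sqf U f x) := by
  have h0 : 0 ≤ m (sqf U f x) := hm.pos _ fun a => by
    rw [sqf_apply]
    positivity
  by_cases hz : AA hm U f x = 0
  · rw [hz, norm_zero]
    have := mul_nonneg (sq_nonneg ‖f‖) h0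
    simpa using this
  have hz' : 0 < ‖AA hm U f x‖ := norm_pos_iff.2 hz
  have h1 := mC_cs hm U f x (AA hm U f x)
  rw [← AA_inner hm, inner_self_eq_norm_sq_to_K] at h1
  have h2 : ‖((‖AA hm U f x‖ : ℂ)) ^ 2‖ = ‖AA hm U f x‖ ^ 2 := by
    rw [norm_pow, Complex.norm_real, norm_norm]
  have h3 : (‖AA hm U f x‖ ^ 2) ^ 2 ≤ m (sqf U f x) * m (sqf U f (AA hm U f x)) := by
    rw [← h2]
    exact h1
  have h4 := sqf_le hm U f (AA hm U f x)
  have h5 : (‖AA hm U f x‖ ^ 2) * (‖AA hm U f x‖ ^ 2) ≤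
      (‖f‖ ^ 2 * m (sqf U f x)) * (‖AA hm U f x‖ ^ 2) := by
    calc _ = (‖AA hm U f x‖ ^ 2) ^ 2 := by ring
      _ ≤ m (sqf U f x) * m (sqf U f (AA hm U f x)) := h3
      _ ≤ m (sqf U f x) * (‖f‖ ^ 2 * ‖AA hm U f x‖ ^ 2) := mul_le_mul_of_nonneg_left h4 h0
      _ = _ := by ring
  exact le_of_mul_le_mul_right h5 (by positivity)

theorem AA_compact {m : (G →ᵇ ℝ) →ₗ[ℝ] ℝ} (hm : IsMean m) (U : G → (H ≃ₗᵢ[ℂ] H)) (f : H) :
    IsCompactOperator (AA hm U f) := by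
  have hcl : IsClosed {T : H →L[ℂ] H | IsCompactOperator T} := isClosed_setOfPred_isCompactOperator
  have hmem : AA hm U f ∈ closure {T : H →L[ℂ] H | IsCompactOperator T} := by
    rw [Metric.mem_closure_iff]
    intro ε hε
    obtain ⟨F, hF, hF2⟩ := exists_fin hm U f (ε := (ε / 2 / (‖f‖ + 1)) ^ 2) (by positivity)
    let P : H →L[ℂ] H := F.starProjection
    refine ⟨(AA hm U f).comp P, ?_, ?_⟩
    · have h1 : IsCompactOperator P := by
        have h2 : IsCompactOperator (F.subtypeL : F →L[ℂ] H) := by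
          have h3 : IsCompactOperator (ContinuousLinearMap.id ℂ F) :=
            (isCompactOperator_id_iff_finiteDimensional).2 hF
          exact h3.clm_comp F.subtypeL
        exact h2.comp_clm F.orthogonalProjectionOnto
      exact h1.clm_comp (AA hm U f)
    · rw [dist_eq_norm]
      refine lt_of_le_of_lt (ContinuousLinearMap.opNorm_le_bound _ (by positivity : 0 ≤ ε / 2)
        fun x => ?_) (by linarith)
      have h1 : (AA hm U f - (AA hm U f).comp P) x = AA hm U f (x - P x) := by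
        rw [map_sub]
        rfl
      rw [h1]
      have h2 : x - P x ∈ Fᗮ := Submodule.sub_starProjection_mem_orthogonal x
      have h3 : ‖x - P x‖ ≤ ‖x‖ := by
        have h4 : ‖x‖ ^ 2 = ‖P x‖ ^ 2 + ‖x - P x‖ ^ 2 := by
          have h5 : ⟪P x, x - P x⟫_ℂ = 0 :=
            (Submodule.mem_orthogonal _ _).1 h2 _ (Submodule.starProjection_apply_mem _ _)
          have h6 := norm_add_sq_eq_norm_sq_add_norm_sq_of_inner_eq_zero (P x) (x - P x) h5
          rw [add_sub_cancel] at h6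
          nlinarith
        nlinarith [norm_nonneg x, norm_nonneg (x - P x), sq_nonneg ‖P x‖]
      have h4 := AA_norm hm U f (x - P x)
      have h5 := hF2 _ h2
      have h6 : ‖AA hm U f (x - P x)‖ ^ 2 ≤ (ε / 2 * ‖x‖) ^ 2 := by
        calc ‖AA hm U f (x - P x)‖ ^ 2 ≤ ‖f‖ ^ 2 * m (sqf U f (x - P x)) := h4
          _ ≤ ‖f‖ ^ 2 * ((ε / 2 / (‖f‖ + 1)) ^ 2 * ‖x - P x‖ ^ 2) := by gcongr
          _ ≤ ‖f‖ ^ 2 * ((ε / 2 / (‖f‖ + 1)) ^ 2 * ‖x‖ ^ 2) := by gcongr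
          _ = (‖f‖ / (‖f‖ + 1)) ^ 2 * (ε / 2 * ‖x‖) ^ 2 := by field_simp
          _ ≤ 1 * (ε / 2 * ‖x‖) ^ 2 := by
            gcongr
            rw [div_pow, div_le_one (by positivity)]
            gcongr
            linarith
          _ = _ := one_mul _
      exact (pow_le_pow_iff_left₀ (norm_nonneg _) (by positivity) (by norm_num)).1 h6
  rw [hcl.closure_eq] at hmem
  exact hmem

theorem AA_comm {m : (G →ᵇ ℝ) →ₗ[ℝ] ℝ} (hm : IsMean m) (U : G → (H ≃ₗᵢ[ℂ] H))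
    (hU : ∀ g h x, U (g + h) x = U g (U h x)) (f : H) (g : G) (x : H) :
    AA hm U f (U g x) = U g (AA hm U f x) := by
  refine ext_inner_right ℂ fun y => ?_
  have h0 : ∀ z, U g (U (-g) z) = z := by
    intro z
    rw [← hU, add_neg_cancel]
    have h1 := hU 0 0 z
    rw [add_zero] at h1
    exact ((U 0).injective h1).symm
  have h1 : ⟪U g (AA hm U f x), y⟫_ℂ = ⟪AA hm U f x, U (-g) y⟫_ℂ := by
    conv_lhs => rw [← h0 y]
    rw [LinearIsometryEquiv.inner_map_map]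
  rw [h1, AA_inner, AA_inner]
  have h2 : cor U f x (U (-g) y) = sh g (cor U f (U g x) y) := by
    ext a
    rw [sh_apply, cor_apply, cor_apply, add_comm a g, hU]
    rw [LinearIsometryEquiv.inner_map_map]
    congr 1
    conv_rhs => rw [← h0 y]
    rw [LinearIsometryEquiv.inner_map_map]
  rw [h2, mC_sh hm]

/-- vectors orthogonal to the eigenvectors -/
theorem wm (U : G → (H ≃ₗᵢ[ℂ] H)) (hU : ∀ g h x, U (g + h) x = U g (U h x)) (f : H)
    (hf : ∀ (θ : AddChar G Circle) (v : H), (∀ g, U g v = ((θ g : Circle) : ℂ) • v) →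
      ⟪v, f⟫_ℂ = 0) (h : H) {η : ℝ} (hη : 0 < η) : Null {a | η < ‖⟪h, U a f⟫_ℂ‖} := by
  intro m hm
  have hA : AA hm U f = 0 := by
    rw [← ContinuousLinearMap.eq_zero_of_forall_hasEigenvalue_eq_zero (AA_compact hm U f)
      (AA_symm hm U f)]
    intro μ hμ
    by_contra hμ0
    have hfin : FiniteDimensional ℂ (Module.End.eigenspace (AA hm U f).toLinearMap μ) :=
      ContinuousLinearMap.finite_dimensional_eigenspace (AA_compact hm U f) μ hμ0
    obtain ⟨v, hvE, hv0, hv⟩ := joint_eigen U hU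
      (Module.End.eigenspace (AA hm U f).toLinearMap μ) hμ (by
        intro g x hx
        rw [Module.End.mem_eigenspace_iff] at hx ⊢
        have h1 : AA hm U f x = μ • x := hx
        show AA hm U f (U g x) = μ • U g x
        rw [AA_comm hm U hU, h1, map_smul])
    obtain ⟨θ, hθ⟩ := eigen_char U hU v hv0 hv
    have h1 := hf θ v hθ
    have h2 : ∀ a, ⟪v, U a f⟫_ℂ = 0 := by
      intro a
      have h3 : ⟪U a v, U a f⟫_ℂ = 0 := by rw [LinearIsometryEquiv.inner_map_map, h1]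
      rw [hθ, inner_smul_left] at h3
      rcases mul_eq_zero.1 h3 with h4 | h4
      · rw [map_eq_zero] at h4
        exact absurd h4 (Circle.coe_ne_zero _)
      · exact h4
    have h3 : sqf U f v = 0 := by
      ext a
      rw [sqf_apply, h2 a]
      simp
    have h4 := AA_self hm U f v
    rw [h3, map_zero] at h4
    rw [Module.End.mem_eigenspace_iff] at hvE
    have h5 : AA hm U f v = μ • v := hvE
    rw [h5, inner_smul_left, Complex.ofReal_zero, mul_eq_zero, map_eq_zero,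
      inner_self_eq_zero] at h4
    exact h4.elim hμ0 hv0
  have h1 := AA_self hm U f h
  rw [hA, zero_apply, inner_zero_left] at h1
  have h2 : m (sqf U f h) = 0 := by exact_mod_cast h1.symm
  refine le_antisymm ?_ (hm.pos _ fun n => (ind_01 _ n).1)
  have h3 : m (ind {a | η < ‖⟪h, U a f⟫_ℂ‖}) ≤ m ((η ^ 2)⁻¹ • sqf U f h) := by
    refine m_mono hm fun a => ?_
    show _ ≤ (η ^ 2)⁻¹ * ‖⟪h, U a f⟫_ℂ‖ ^ 2
    by_cases ha : a ∈ {a | η < ‖⟪h, U a f⟫_ℂ‖}
    · rw [ind_mem ha, inv_mul_eq_div, one_le_div (by positivity)]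
      have h4 : η < ‖⟪h, U a f⟫_ℂ‖ := ha
      gcongr
    · rw [ind_notMem ha]
      positivity
  rw [map_smul, h2, smul_zero] at h3
  exact h3

end Pool.Agent.N688.GB
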