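import Pool.Agent.N688.GB.Gns
import Pool.Agent.N688.GB.Wm

set_option autoImplicit false
set_option linter.unusedSectionVars false

/-!
# The almost periodic part of a set
-/

open Filter Topology Finset
open scoped BoundedContinuousFunction InnerProductSpace ComplexConjugate

namespace Pool.Agent.N688.GB

variable {G : Type} [AddCommGroup G] [TopologicalSpace G] [DiscreteTopology G]

theorem chr_mem (θ : AddChar G Circle) : chr θ ∈ Trig := Submodule.subset_span ⟨θ, rfl⟩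

theorem trig_one : (1 : G →ᵇ ℂ) ∈ Trig := by
  rw [← chr_one]
  exact chr_mem 1

theorem trig_mul (f g : G →ᵇ ℂ) (hf : f ∈ Trig) (hg : g ∈ Trig) : f * g ∈ Trig := by
  unfold Trig at hf
  induction hf using Submodule.span_induction with
  | mem x hx =>
    obtain ⟨θ, rfl⟩ := hx
    unfold Trig at hg
    induction hg using Submodule.span_induction with
    | mem y hy =>
      obtain ⟨θ', rfl⟩ := hy
      rw [chr_mul]
      exact chr_mem _
    | zero =>
      rw [mul_zero]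
      exact Trig.zero_mem
    | add y z _ _ hy hz =>
      rw [mul_add]
      exact Trig.add_mem hy hz
    | smul c y _ hy =>
      rw [mul_smul_comm]
      exact Trig.smul_mem c hy
  | zero =>
    rw [zero_mul]
    exact Trig.zero_mem
  | add x y _ _ hx hy =>
    rw [add_mul]
    exact Trig.add_mem hx hy
  | smul c x _ hx =>
    rw [smul_mul_assoc]
    exact Trig.smul_mem c hx

theorem trig_star (f : G →ᵇ ℂ) (hf : f ∈ Trig) : star f ∈ Trig := by
  unfold Trig at hf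
  induction hf using Submodule.span_induction with
  | mem x hx =>
    obtain ⟨θ, rfl⟩ := hx
    rw [star_chr]
    exact chr_mem _
  | zero =>
    rw [star_zero]
    exact Trig.zero_mem
  | add x y _ _ hx hy =>
    rw [star_add]
    exact Trig.add_mem hx hy
  | smul c x _ hx =>
    rw [star_smul]
    exact Trig.smul_mem _ hx

/-- values of a polynomial of a bounded function -/
theorem aeval_val (p : Polynomial ℝ) (R : G →ᵇ ℝ) (n : G) :
    (Polynomial.aeval R p) n = p.eval (R n) := by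
  induction p using Polynomial.induction_on' with
  | add p q hp hq =>
    rw [map_add, BoundedContinuousFunction.coe_add, Pi.add_apply, hp, hq, Polynomial.eval_add]
  | monomial k a =>
    rw [Polynomial.aeval_monomial, Polynomial.eval_monomial]
    rw [BoundedContinuousFunction.coe_mul, Pi.mul_apply]
    congr 1

theorem co_aeval (p : Polynomial ℝ) (R : G →ᵇ ℝ) (hR : co R ∈ Trig) :
    co (Polynomial.aeval R p) ∈ Trig := by
  have h1 := trig_one (G := G)
  have h2 := trig_mul (G := G)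
  induction p using Polynomial.induction_on' with
  | add p q hp hq =>
    rw [map_add, co_add]
    exact Trig.add_mem hp hq
  | monomial k a =>
    have h3 : Polynomial.aeval R (Polynomial.monomial k a) = a • R ^ k := by
      ext n
      rw [aeval_val, Polynomial.eval_monomial]
      simp
    rw [h3, co_smul]
    apply Trig.smul_mem
    clear h3
    induction k with
    | zero =>
      rw [pow_zero, co_one]
      exact h1
    | succ k ih =>
      rw [pow_succ, co_mul]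
      exact h2 _ _ ih hR

theorem clamp (Q : G →ᵇ ℂ) (hQ : Q ∈ Trig) (δ : ℝ) (hδ : 0 < δ) : ∃ P : G →ᵇ ℝ, co P ∈ Trig ∧
    (∀ n, 0 ≤ P n ∧ P n ≤ 1) ∧
    ∀ n s, 0 ≤ s → s ≤ 1 → |s - P n| ≤ ‖(s : ℂ) - Q n‖ + 2 * δ := by
  have hstar := trig_star (G := G)
  have hone := trig_one (G := G)
  -- the real part
  have hR : co (cre Q) ∈ Trig := by
    have h1 : co (cre Q) = (1 / 2 : ℂ) • (Q + star Q) := by
      ext n
      simp only [co_apply, cre_apply, BoundedContinuousFunction.coe_smul,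
        BoundedContinuousFunction.coe_add, Pi.add_apply, BoundedContinuousFunction.star_apply,
        smul_eq_mul]
      rw [RCLike.star_def, Complex.add_conj]
      push_cast
      ring
    rw [h1]
    exact Trig.smul_mem _ (Trig.add_mem hQ (hstar Q hQ))
  obtain ⟨p, hp⟩ := exists_polynomial_near_of_continuousOn (-‖Q‖) ‖Q‖
    (fun t : ℝ => max 0 (min 1 t)) (by fun_prop) δ hδ
  set P0 : G →ᵇ ℝ := Polynomial.aeval (cre Q) p with hP0
  have hval : ∀ n, P0 n = p.eval ((Q n).re) := fun n => by rw [hP0, aeval_val, cre_apply]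
  have hnear : ∀ n, |P0 n - max 0 (min 1 (Q n).re)| < δ := by
    intro n
    rw [hval]
    apply hp
    have h1 := (Complex.abs_re_le_norm (Q n)).trans (Q.norm_coe_le_norm n)
    rw [abs_le] at h1
    exact h1
  have hc : 0 < 1 + 2 * δ := by linarith
  refine ⟨(1 + 2 * δ)⁻¹ • (P0 + δ • 1), ?_, ?_, ?_⟩
  · rw [co_smul, co_add, co_smul, co_one]
    exact Trig.smul_mem _ (Trig.add_mem (co_aeval p _ hR) (Trig.smul_mem _ hone))
  · intro n
    have h1 := hnear n
    rw [abs_lt] at h1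
    have h2 : (0 : ℝ) ≤ max 0 (min 1 (Q n).re) := le_max_left _ _
    have h3 : max 0 (min 1 (Q n).re) ≤ (1 : ℝ) := max_le zero_le_one (min_le_left _ _)
    have e1 : ((1 + 2 * δ)⁻¹ • (P0 + δ • (1 : G →ᵇ ℝ))) n = (1 + 2 * δ)⁻¹ * (P0 n + δ) := by
      simp [mul_add]
    rw [e1]
    constructor
    · apply mul_nonneg (inv_nonneg.mpr hc.le)
      linarith [h1.1]
    · rw [inv_mul_le_iff₀ hc]
      linarith [h1.2]
  · intro n s hs0 hs1
    have h1 := hnear n
    rw [abs_lt] at h1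
    have h2 : (0 : ℝ) ≤ max 0 (min 1 (Q n).re) := le_max_left _ _
    have h3 : max 0 (min 1 (Q n).re) ≤ (1 : ℝ) := max_le zero_le_one (min_le_left _ _)
    have e1 : ((1 + 2 * δ)⁻¹ • (P0 + δ • (1 : G →ᵇ ℝ))) n = (1 + 2 * δ)⁻¹ * (P0 n + δ) := by
      simp [mul_add]
    rw [e1]
    have h4 : |s - max 0 (min 1 (Q n).re)| ≤ ‖(s : ℂ) - Q n‖ := by
      have h5 : |s - (Q n).re| ≤ ‖(s : ℂ) - Q n‖ := by
        have := Complex.abs_re_le_norm ((s : ℂ) - Q n)
        simpa using this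
      refine le_trans ?_ h5
      rw [← sq_le_sq]
      rcases le_total 0 (Q n).re with h6 | h6
      · rcases le_total (Q n).re 1 with h7 | h7
        · rw [min_eq_right h7, max_eq_right h6]
        · rw [min_eq_left h7, max_eq_right zero_le_one]
          nlinarith
      · rw [min_eq_right (h6.trans zero_le_one), max_eq_left h6]
        nlinarith
    have h5 : |P0 n - (1 + 2 * δ)⁻¹ * (P0 n + δ)| ≤ δ := by
      have h6 : P0 n - (1 + 2 * δ)⁻¹ * (P0 n + δ) = (1 + 2 * δ)⁻¹ * (δ * (2 * P0 n - 1)) := by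
        field_simp
        ring
      rw [h6, abs_mul, abs_of_pos (inv_pos.mpr hc), inv_mul_le_iff₀ hc, abs_mul, abs_of_pos hδ,
        mul_comm]
      apply mul_le_mul_of_nonneg_right _ hδ.le
      rw [abs_le]
      constructor <;> linarith [h1.1, h1.2]
    have h6 : s - (1 + 2 * δ)⁻¹ * (P0 n + δ) = (s - max 0 (min 1 (Q n).re)) -
        (P0 n - max 0 (min 1 (Q n).re)) + (P0 n - (1 + 2 * δ)⁻¹ * (P0 n + δ)) := by ring
    rw [h6]
    have h7 := abs_add_le ((s - max 0 (min 1 (Q n).re)) - (P0 n - max 0 (min 1 (Q n).re)))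
      (P0 n - (1 + 2 * δ)⁻¹ * (P0 n + δ))
    have h8 := abs_sub (s - max 0 (min 1 (Q n).re)) (P0 n - max 0 (min 1 (Q n).re))
    have h9 := (hnear n).le
    linarith

theorem Bo_mono {T T' : Finset (AddChar G Circle)} {ρ ρ' : ℝ} (hT : T' ⊆ T) (hρ : ρ ≤ ρ') :
    Bo T ρ ⊆ Bo T' ρ' := fun _ hk θ hθ => (hk θ (hT hθ)).trans_le hρ

theorem bohr (Q : G →ᵇ ℂ) (hQ : Q ∈ Trig) : ∀ ε > 0, ∃ (T : Finset (AddChar G Circle)) (ρ : ℝ),
    0 < ρ ∧ ∀ a ∈ Bo T ρ, ∀ n, ‖Q (n + a) - Q n‖ ≤ ε := by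
  classical
  unfold Trig at hQ
  induction hQ using Submodule.span_induction with
  | mem x hx =>
    obtain ⟨θ, rfl⟩ := hx
    intro ε hε
    refine ⟨{θ}, ε, hε, fun a ha n => ?_⟩
    have h1 := ha θ (Finset.mem_singleton_self θ)
    have h2 : chr θ (n + a) - chr θ n =
        ((θ n : Circle) : ℂ) * (((θ a : Circle) : ℂ) - 1) := by
      rw [chr_apply, chr_apply, AddChar.map_add_eq_mul, Circle.coe_mul]
      ring
    rw [h2, norm_mul, Circle.norm_coe, one_mul]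
    exact h1.le
  | zero =>
    intro ε hε
    refine ⟨∅, 1, one_pos, fun a _ n => ?_⟩
    simp [hε.le]
  | add x y _ _ hx hy =>
    intro ε hε
    obtain ⟨T1, ρ1, h1, H1⟩ := hx (ε / 2) (by positivity)
    obtain ⟨T2, ρ2, h2, H2⟩ := hy (ε / 2) (by positivity)
    refine ⟨T1 ∪ T2, min ρ1 ρ2, lt_min h1 h2, fun a ha n => ?_⟩
    have e1 := H1 a (Bo_mono Finset.subset_union_left (min_le_left _ _) ha) n
    have e2 := H2 a (Bo_mono Finset.subset_union_right (min_le_right _ _) ha) n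
    have e3 : (x + y) (n + a) - (x + y) n = (x (n + a) - x n) + (y (n + a) - y n) := by
      rw [BoundedContinuousFunction.add_apply, BoundedContinuousFunction.add_apply]
      ring
    rw [e3]
    calc _ ≤ ‖x (n + a) - x n‖ + ‖y (n + a) - y n‖ := norm_add_le _ _
      _ ≤ ε / 2 + ε / 2 := add_le_add e1 e2
      _ = ε := by ring
  | smul c x _ hx =>
    intro ε hε
    have hc : 0 < ‖c‖ + 1 := by positivity
    obtain ⟨T, ρ, h1, H⟩ := hx (ε / (‖c‖ + 1)) (by positivity)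
    refine ⟨T, ρ, h1, fun a ha n => ?_⟩
    have e1 := H a ha n
    have e3 : (c • x) (n + a) - (c • x) n = c * (x (n + a) - x n) := by
      rw [BoundedContinuousFunction.smul_apply, BoundedContinuousFunction.smul_apply]
      simp only [smul_eq_mul]
      ring
    rw [e3, norm_mul]
    calc ‖c‖ * ‖x (n + a) - x n‖ ≤ (‖c‖ + 1) * (ε / (‖c‖ + 1)) :=
          mul_le_mul (by linarith) e1 (norm_nonneg _) hc.le
      _ = ε := by field_simp

section
variable {m : (G →ᵇ ℝ) →ₗ[ℝ] ℝ} {H : Type} [NormedAddCommGroup H] [InnerProductSpace ℂ H]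
  {ι : (G →ᵇ ℂ) →ₗ[ℂ] H}

theorem norm_sq (hin : ∀ f g : G →ᵇ ℂ, ⟪ι f, ι g⟫_ℂ = mC m (star f * g)) (f : G →ᵇ ℂ) :
    ‖ι f‖ ^ 2 = m (cre (star f * f)) := by
  rw [← inner_self_eq_norm_sq (𝕜 := ℂ), hin, mC_apply]
  simp

theorem norm_le (hm : IsMean m) (hin : ∀ f g : G →ᵇ ℂ, ⟪ι f, ι g⟫_ℂ = mC m (star f * g))
    (f g : G →ᵇ ℂ) (h : ∀ n, ‖f n‖ ≤ ‖g n‖) : ‖ι f‖ ≤ ‖ι g‖ := by
  have h1 : ‖ι f‖ ^ 2 ≤ ‖ι g‖ ^ 2 := by
    rw [norm_sq hin, norm_sq hin]
    have h2 : 0 ≤ m (cre (star g * g) - cre (star f * f)) := by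
      apply hm.pos
      intro n
      simp only [BoundedContinuousFunction.coe_sub, Pi.sub_apply, cre_apply,
        BoundedContinuousFunction.coe_mul, Pi.mul_apply, BoundedContinuousFunction.star_apply]
      rw [RCLike.star_def, ← Complex.normSq_eq_conj_mul_self,
        ← Complex.normSq_eq_conj_mul_self, Complex.ofReal_re, Complex.ofReal_re,
        Complex.normSq_eq_norm_sq, Complex.normSq_eq_norm_sq, sub_nonneg]
      exact pow_le_pow_left₀ (norm_nonneg _) (h n) 2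
    rw [map_sub] at h2
    linarith
  exact (pow_le_pow_iff_left₀ (norm_nonneg _) (norm_nonneg _) (by norm_num)).1 h1

theorem norm_one' (hm : IsMean m) (hin : ∀ f g : G →ᵇ ℂ, ⟪ι f, ι g⟫_ℂ = mC m (star f * g)) :
    ‖ι 1‖ = 1 := by
  have h1 : ‖ι 1‖ ^ 2 = 1 := by
    rw [norm_sq hin]
    have h2 : cre (star (1 : G →ᵇ ℂ) * 1) = 1 := by
      ext n
      simp
    rw [h2, hm.one]
  have h3 : (‖ι 1‖ - 1) * (‖ι 1‖ + 1) = 0 := by linear_combination h1
  rcases mul_eq_zero.1 h3 with h4 | h4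
  · linarith
  · have := norm_nonneg (ι 1)
    linarith

theorem norm_le_one (hm : IsMean m)
    (hin : ∀ f g : G →ᵇ ℂ, ⟪ι f, ι g⟫_ℂ = mC m (star f * g))
    (f : G →ᵇ ℂ) (h : ∀ n, ‖f n‖ ≤ 1) : ‖ι f‖ ≤ 1 := by
  rw [← norm_one' hm hin]
  refine norm_le hm hin f 1 fun n => ?_
  simpa using h n

/-- the absolute value as a bounded function -/
noncomputable def ab (f : G →ᵇ ℂ) : G →ᵇ ℝ :=
  BoundedContinuousFunction.ofNormedAddCommGroupDiscrete (fun n => ‖f n‖) ‖f‖ (by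
    intro x
    rw [norm_norm]
    exact f.norm_coe_le_norm x)

theorem ab_apply (f : G →ᵇ ℂ) (n : G) : ab f n = ‖f n‖ := rfl

/-- Minkowski, with an additive constant -/
theorem mink (hm : IsMean m) (hin : ∀ f g : G →ᵇ ℂ, ⟪ι f, ι g⟫_ℂ = mC m (star f * g))
    (f g : G →ᵇ ℂ) (c : ℝ) (hc : 0 ≤ c) (h : ∀ n, ‖f n‖ ≤ ‖g n‖ + c) :
    ‖ι f‖ ≤ ‖ι g‖ + c := by
  have h1 : ‖ι f‖ ≤ ‖ι (co (ab g) + (c : ℂ) • 1)‖ := by
    refine norm_le hm hin _ _ fun n => ?_
    refine (h n).trans ?_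
    simp only [BoundedContinuousFunction.coe_add, Pi.add_apply, co_apply, ab_apply,
      BoundedContinuousFunction.coe_smul, BoundedContinuousFunction.coe_one, Pi.one_apply,
      smul_eq_mul, mul_one]
    rw [← Complex.ofReal_add, Complex.norm_real, Real.norm_eq_abs]
    exact le_abs_self _
  have h2 : ‖ι (co (ab g))‖ ≤ ‖ι g‖ := by
    refine norm_le hm hin _ _ fun n => ?_
    rw [co_apply, ab_apply, Complex.norm_real, norm_norm]
  refine h1.trans ?_
  rw [map_add, map_smul]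
  refine (norm_add_le _ _).trans ?_
  rw [norm_smul, norm_one' hm hin, mul_one, Complex.norm_real, Real.norm_eq_abs, abs_of_nonneg hc]
  linarith

/-- Pythagoras -/
theorem pyth {W : Submodule ℂ H} {a b : H} (ha : a ∈ W) (hb : b ∈ Wᗮ) :
    ‖b + a‖ ^ 2 = ‖b‖ ^ 2 + ‖a‖ ^ 2 := by
  have h1 : ⟪b, a⟫_ℂ = 0 := Submodule.inner_left_of_mem_orthogonal ha hb
  have := norm_add_sq_eq_norm_sq_add_norm_sq_of_inner_eq_zero b a h1
  rw [pow_two, pow_two, pow_two]
  exact this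


end

theorem inner_neg_UU (M : MM G) (a : G) (x y : HH M) :
    ⟪UU M a x, y⟫_ℂ = ⟪x, UU M (-a) y⟫_ℂ := by
  have h1 : UU M a (UU M (-a) y) = y := by
    have := UU_neg M (-a) y
    rwa [neg_neg] at this
  have h2 := (UU M a).inner_map_map x (UU M (-a) y)
  rwa [h1] at h2

theorem appr (m : (G →ᵇ ℝ) →ₗ[ℝ] ℝ) (hm : IsMean m) (he : Extr m) (S : Set G) (ε : ℝ)
    (hε : 0 < ε) : ∃ P : G →ᵇ ℝ, co P ∈ Trig ∧ (∀ n, 0 ≤ P n ∧ P n ≤ 1) ∧
      ∀ b : G →ᵇ ℝ, co b ∈ Trig → (∀ n, |b n| ≤ 1) → ∀ F : G →ᵇ ℝ, (∀ n, |F n| ≤ 1) →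
        Null {a | ε < |m (b * (ind S - P) * sh a F)|} := by
  obtain ⟨M, hM⟩ : ∃ M : MM G, M = ⟨m, hm⟩ := ⟨_, rfl⟩
  obtain ⟨ι, hι⟩ : ∃ ι, ι = io M := ⟨_, rfl⟩
  have hin : ∀ f g : G →ᵇ ℂ, ⟪ι f, ι g⟫_ℂ = mC m (star f * g) := by
    intro f g
    rw [hι, inner_io, hM]
  have heM : Extr M.1 := by rw [hM]; exact he
  have hUι : ∀ a f, UU M a (ι f) = ι (sh a f) := by
    intro a f
    rw [hι, UU_io]
  obtain ⟨W, hW⟩ : ∃ W : Submodule ℂ (HH M), W = (Trig.map ι).topologicalClosure := ⟨_, rfl⟩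
  have hWc : IsClosed (W : Set (HH M)) := by
    rw [hW]
    exact Submodule.isClosed_topologicalClosure _
  have : CompleteSpace W := hWc.completeSpace_coe
  have hTW : ∀ q ∈ Trig, ι q ∈ W := by
    intro q hq
    rw [hW]
    exact Submodule.le_topologicalClosure _ (Submodule.mem_map_of_mem hq)
  have hdec : ∀ x : HH M, ∃ w ∈ W, x - w ∈ Wᗮ := fun x =>
    Submodule.HasOrthogonalProjection.exists_orthogonal (K := W) x
  obtain ⟨x, hx⟩ : ∃ x, x = ι (co (ind S)) := ⟨_, rfl⟩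
  obtain ⟨F, hF, hR⟩ := hdec x
  have hx1 : ‖x‖ ≤ 1 := by
    rw [hx]
    refine norm_le_one hm hin _ fun n => ?_
    rw [co_apply, Complex.norm_real, Real.norm_eq_abs, abs_of_nonneg (ind_01 S n).1]
    exact (ind_01 S n).2
  have hR1 : ‖x - F‖ ≤ 1 := by
    have h1 := pyth hF hR
    rw [sub_add_cancel] at h1
    have h2 : ‖x‖ ^ 2 ≤ 1 := by
      have := pow_le_pow_left₀ (norm_nonneg _) hx1 2
      simpa using this
    have h3 : ‖x - F‖ ^ 2 ≤ 1 := by
      have := sq_nonneg ‖F‖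
      linarith
    exact (sq_le_one_iff₀ (norm_nonneg _)).1 h3
  obtain ⟨δ, hδ⟩ : ∃ δ : ℝ, δ = min 1 (ε ^ 2 / 60) := ⟨_, rfl⟩
  have hδ0 : 0 < δ := by
    rw [hδ]
    exact lt_min one_pos (by positivity)
  have hδ1 : δ ≤ 1 := by rw [hδ]; exact min_le_left _ _
  have hδ2 : δ ≤ ε ^ 2 / 60 := by rw [hδ]; exact min_le_right _ _
  obtain ⟨Q, hQ, hFQ⟩ : ∃ Q ∈ Trig, ‖F - ι Q‖ < δ := by
    have h1 : F ∈ closure ((Trig.map ι : Submodule ℂ (HH M)) : Set (HH M)) := by
      rw [← Submodule.topologicalClosure_coe, ← hW]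
      exact hF
    obtain ⟨y, hy, hy2⟩ := Metric.mem_closure_iff.1 h1 δ hδ0
    obtain ⟨Q, hQ, rfl⟩ := Submodule.mem_map.1 hy
    exact ⟨Q, hQ, by rwa [← dist_eq_norm]⟩
  obtain ⟨P, hP1, hP2, hP3⟩ := clamp Q hQ δ hδ0
  refine ⟨P, hP1, hP2, ?_⟩
  -- the norm of the difference
  have hiP : ι (co (ind S - P)) = x - ι (co P) := by
    rw [hx, ← map_sub]
    congr 1
    ext n
    simp
  have ha1 : ‖x - ι (co P)‖ ≤ ‖x - F‖ + 3 * δ := by
    have h1 : ‖ι (co (ind S - P))‖ ≤ ‖ι (co (ind S) - Q)‖ + 2 * δ := by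
      refine mink hm hin _ _ _ (by positivity) fun n => ?_
      rw [co_apply, Complex.norm_real, Real.norm_eq_abs]
      have := hP3 n (ind S n) (ind_01 S n).1 (ind_01 S n).2
      simpa using this
    have h2 : ι (co (ind S) - Q) = (x - F) + (F - ι Q) := by
      rw [map_sub, ← hx]
      abel
    have h3 : ‖(x - F) + (F - ι Q)‖ ≤ ‖x - F‖ + δ := by
      have h4 := pyth (W.sub_mem hF (hTW Q hQ)) hR
      have h5 : ‖(x - F) + (F - ι Q)‖ ^ 2 ≤ (‖x - F‖ + δ) ^ 2 := by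
        rw [h4]
        have h6 : ‖F - ι Q‖ ^ 2 ≤ δ ^ 2 := pow_le_pow_left₀ (norm_nonneg _) hFQ.le 2
        have h7 : 0 ≤ ‖x - F‖ * δ := by positivity
        nlinarith
      exact (pow_le_pow_iff_left₀ (norm_nonneg _) (by positivity) (by norm_num)).1 h5
    rw [hiP, h2] at h1
    linarith
  obtain ⟨τ, hτ⟩ : ∃ τ, τ = ‖F - ι (co P)‖ := ⟨_, rfl⟩
  have hτ0 : 0 ≤ τ := by rw [hτ]; exact norm_nonneg _
  have hτε : τ ≤ ε / 2 := by
    have h1 := pyth (W.sub_mem hF (hTW _ hP1)) hR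
    have h2 : (x - F) + (F - ι (co P)) = x - ι (co P) := by abel
    rw [h2, ← hτ] at h1
    have h3 : ‖x - ι (co P)‖ ^ 2 ≤ (‖x - F‖ + 3 * δ) ^ 2 :=
      pow_le_pow_left₀ (norm_nonneg _) ha1 2
    have h4 : τ ^ 2 ≤ (ε / 2) ^ 2 := by
      have h5 : ‖x - F‖ * δ ≤ 1 * δ := mul_le_mul_of_nonneg_right hR1 hδ0.le
      have h6 : δ * δ ≤ 1 * δ := mul_le_mul_of_nonneg_right hδ1 hδ0.le
      nlinarith
    exact (pow_le_pow_iff_left₀ hτ0 (by positivity) (by norm_num)).1 h4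
  intro b hb hb1 K hK
  obtain ⟨v, hv⟩ : ∃ v, v = ι (co (b * (ind S - P))) := ⟨_, rfl⟩
  obtain ⟨v1, hv1, hv2⟩ := hdec v
  -- the projection is small
  have hin1 : ∀ w ∈ W, ‖⟪w, v⟫_ℂ‖ ≤ ‖w‖ * τ := by
    intro w hw
    have hcl : IsClosed {w : HH M | ‖⟪w, v⟫_ℂ‖ ≤ ‖w‖ * τ} := by
      refine isClosed_le ?_ (continuous_norm.mul continuous_const)
      exact (continuous_id.inner continuous_const).norm
    have hsub : ((Trig.map ι : Submodule ℂ (HH M)) : Set (HH M)) ⊆ {w : HH M | ‖⟪w, v⟫_ℂ‖ ≤ ‖w‖ * τ} := by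
      rintro _ ⟨q, hq, rfl⟩
      show ‖⟪ι q, v⟫_ℂ‖ ≤ ‖ι q‖ * τ
      have h1 : ⟪ι q, v⟫_ℂ = ⟪ι (co b * q), (x - F) + (F - ι (co P))⟫_ℂ := by
        have h2 : (x - F) + (F - ι (co P)) = ι (co (ind S - P)) := by
          rw [hiP]
          abel
        rw [h2, hv, hin, hin]
        congr 1
        rw [star_mul, star_co, co_mul]
        ring
      have h3 : co b * q ∈ Trig := trig_mul _ _ hb hq
      have h4 : ⟪ι (co b * q), x - F⟫_ℂ = 0 :=
        Submodule.inner_right_of_mem_orthogonal (hTW _ h3) hR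
      rw [h1, inner_add_right, h4, zero_add]
      refine (norm_inner_le_norm _ _).trans ?_
      rw [← hτ]
      refine mul_le_mul_of_nonneg_right ?_ hτ0
      refine norm_le hm hin _ _ fun n => ?_
      simp only [BoundedContinuousFunction.coe_mul, Pi.mul_apply, co_apply, norm_mul,
        Complex.norm_real, Real.norm_eq_abs]
      have := mul_le_mul_of_nonneg_right (hb1 n) (norm_nonneg (q n))
      linarith
    have h5 : w ∈ closure ((Trig.map ι : Submodule ℂ (HH M)) : Set (HH M)) := by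
      rw [← Submodule.topologicalClosure_coe, ← hW]
      exact hw
    exact closure_minimal hsub hcl h5
  have hv1τ : ‖v1‖ ≤ ε / 2 := by
    have h1 := hin1 v1 hv1
    have h2 : ⟪v1, v⟫_ℂ = ⟪v1, v1⟫_ℂ := by
      have h3 : v = v1 + (v - v1) := by abel
      rw [h3, inner_add_right, Submodule.inner_right_of_mem_orthogonal hv1 hv2, add_zero]
    have h4 : ‖⟪v1, v1⟫_ℂ‖ = ‖v1‖ * ‖v1‖ := by
      rw [inner_self_eq_norm_sq_to_K, norm_pow]
      simp [pow_two]
    rw [h2, h4] at h1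
    rcases (norm_nonneg v1).eq_or_lt with h5 | h5
    · rw [← h5]
      positivity
    · have := le_of_mul_le_mul_left h1 h5
      linarith
  -- the weakly mixing part
  have hwm := wm (UU M) (UU_add M) (v - v1) (by
    intro θ w hw
    obtain ⟨c, rfl⟩ := eigen heM θ w hw
    rw [← hι]
    have h1 : ι (chr θ) ∈ W := hTW _ (Submodule.subset_span ⟨θ, rfl⟩)
    exact Submodule.inner_right_of_mem_orthogonal (W.smul_mem c h1) hv2) (ι (co K)) (η := ε / 2)
    (by positivity)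
  refine null_mono ?_ (null_neg hwm)
  intro a ha
  have ha' : ε < |m (b * (ind S - P) * sh a K)| := ha
  show ε / 2 < ‖⟪ι (co K), UU M (-a) (v - v1)⟫_ℂ‖
  have h1 : ((m (b * (ind S - P) * sh a K) : ℝ) : ℂ) = ⟪UU M a (ι (co K)), v⟫_ℂ := by
    rw [hUι, hv, hin, ← mC_co]
    congr 1
    ext n
    simp only [co_apply, BoundedContinuousFunction.coe_mul, Pi.mul_apply,
      BoundedContinuousFunction.star_apply, sh_apply, RCLike.star_def, Complex.conj_ofReal]
    push_cast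
    ring
  have h2 : ⟪UU M a (ι (co K)), v⟫_ℂ =
      ⟪UU M a (ι (co K)), v1⟫_ℂ + ⟪ι (co K), UU M (-a) (v - v1)⟫_ℂ := by
    rw [← inner_neg_UU, ← inner_add_right]
    congr 1
    abel
  have h3 : ‖⟪UU M a (ι (co K)), v1⟫_ℂ‖ ≤ ε / 2 := by
    refine (norm_inner_le_norm _ _).trans ?_
    rw [LinearIsometryEquiv.norm_map]
    have h4 : ‖ι (co K)‖ ≤ 1 := norm_le_one hm hin _ fun n => by
      rw [co_apply, Complex.norm_real, Real.norm_eq_abs]
      exact hK n
    calc ‖ι (co K)‖ * ‖v1‖ ≤ 1 * (ε / 2) := mul_le_mul h4 hv1τ (norm_nonneg _) (by norm_num)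
      _ = ε / 2 := by ring
  have h5 : |m (b * (ind S - P) * sh a K)| =
      ‖⟪UU M a (ι (co K)), v1⟫_ℂ + ⟪ι (co K), UU M (-a) (v - v1)⟫_ℂ‖ := by
    rw [← h2, ← h1, Complex.norm_real, Real.norm_eq_abs]
  have h6 := norm_add_le ⟪UU M a (ι (co K)), v1⟫_ℂ ⟪ι (co K), UU M (-a) (v - v1)⟫_ℂ
  linarith

end Pool.Agent.N688.GB
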