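import Pool.Agent.N688.GB.Defs

set_option autoImplicit false
set_option linter.unusedSectionVars false

/-!
# Extreme invariant means charging a given set
-/

open Filter Topology Finset
open scoped BoundedContinuousFunction

namespace Pool.Agent.N688.GB

variable {G : Type} [AddCommGroup G] [TopologicalSpace G] [DiscreteTopology G]

/-- the convex set of the invariant means -/
def KK (G : Type) [AddCommGroup G] [TopologicalSpace G] [DiscreteTopology G] :
    Set ((G →ᵇ ℝ) → ℝ) :=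
  {φ | (∀ f g, φ (f + g) = φ f + φ g) ∧ (∀ (c : ℝ) f, φ (c • f) = c * φ f) ∧
    (∀ f : G →ᵇ ℝ, (∀ n, 0 ≤ f n) → 0 ≤ φ f) ∧ φ 1 = 1 ∧ ∀ g f, φ (sh g f) = φ f}

/-- positive functionals are bounded -/
theorem pos_bound (φ : (G →ᵇ ℝ) → ℝ) (ha : ∀ f g, φ (f + g) = φ f + φ g)
    (hs : ∀ (c : ℝ) f, φ (c • f) = c * φ f) (hp : ∀ f : G →ᵇ ℝ, (∀ n, 0 ≤ f n) → 0 ≤ φ f)
    (f : G →ᵇ ℝ) : |φ f| ≤ ‖f‖ * φ 1 := by
  have h1 := hp (‖f‖ • 1 + (-1 : ℝ) • f) (fun n => by
    have := f.norm_coe_le_norm n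
    rw [Real.norm_eq_abs] at this
    have h2 := (abs_le.1 this).2
    simp only [BoundedContinuousFunction.coe_add, BoundedContinuousFunction.coe_smul,
      Pi.add_apply, BoundedContinuousFunction.coe_one, Pi.one_apply, smul_eq_mul]
    linarith)
  have h2 := hp (‖f‖ • 1 + (1 : ℝ) • f) (fun n => by
    have := f.norm_coe_le_norm n
    rw [Real.norm_eq_abs] at this
    have h2 := (abs_le.1 this).1
    simp only [BoundedContinuousFunction.coe_add, BoundedContinuousFunction.coe_smul,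
      Pi.add_apply, BoundedContinuousFunction.coe_one, Pi.one_apply, smul_eq_mul]
    linarith)
  rw [ha, hs, hs] at h1 h2
  rw [abs_le]
  constructor <;> linarith

theorem KK_closed : IsClosed (KK G) := by
  have e : KK G = {φ | ∀ f g, φ (f + g) = φ f + φ g} ∩ {φ | ∀ (c : ℝ) f, φ (c • f) = c * φ f} ∩
    {φ | ∀ f : G →ᵇ ℝ, (∀ n, 0 ≤ f n) → 0 ≤ φ f} ∩ {φ | φ 1 = 1} ∩
    {φ | ∀ g f, φ (sh g f) = φ f} := by
    ext φ
    simp only [KK, Set.mem_inter_iff, Set.mem_ofPred_eq, and_assoc]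
  rw [e]
  have hc : ∀ f : G →ᵇ ℝ, Continuous fun φ : (G →ᵇ ℝ) → ℝ => φ f := fun f => continuous_apply f
  refine IsClosed.inter (IsClosed.inter (IsClosed.inter (IsClosed.inter ?_ ?_) ?_) ?_) ?_
  · simp only [Set.ofPred_forall]
    exact isClosed_iInter fun f => isClosed_iInter fun g =>
      isClosed_eq (hc _) ((hc _).add (hc _))
  · simp only [Set.ofPred_forall]
    exact isClosed_iInter fun c => isClosed_iInter fun f =>
      isClosed_eq (hc _) (continuous_const.mul (hc _))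
  · simp only [Set.ofPred_forall]
    exact isClosed_iInter fun f => isClosed_iInter fun _ => isClosed_le continuous_const (hc _)
  · exact isClosed_eq (hc _) continuous_const
  · simp only [Set.ofPred_forall]
    exact isClosed_iInter fun g => isClosed_iInter fun f => isClosed_eq (hc _) (hc _)

theorem KK_compact : IsCompact (KK G) := by
  have h1 : IsCompact (Set.univ.pi fun f : G →ᵇ ℝ => Set.Icc (-‖f‖) ‖f‖) :=
    isCompact_univ_pi fun f => isCompact_Icc
  refine h1.of_isClosed_subset KK_closed ?_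
  intro φ hφ f _
  have h2 := pos_bound φ hφ.1 hφ.2.1 hφ.2.2.1 f
  rw [hφ.2.2.2.1, mul_one] at h2
  exact abs_le.1 h2

theorem ban (m0 : (G →ᵇ ℝ) →ₗ[ℝ] ℝ) (hm0 : IsMean m0) (F0 : G →ᵇ ℝ) :
    ∃ m : (G →ᵇ ℝ) →ₗ[ℝ] ℝ, IsMean m ∧ Extr m ∧ m0 F0 ≤ m F0 := by
  have hφ1 : (fun f => m0 f) ∈ KK G :=
    ⟨fun f g => map_add _ _ _, fun c f => by
      show m0 (c • f) = c * m0 f
      rw [map_smul, smul_eq_mul], hm0.pos, hm0.one,
      fun g f => hm0.inv g f⟩
  have hcS : Continuous fun φ : (G →ᵇ ℝ) → ℝ => φ F0 := continuous_apply _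
  obtain ⟨φ0, hφ0, hmax⟩ := (KK_compact (G := G)).exists_isMaxOn ⟨_, hφ1⟩ hcS.continuousOn
  have hmax' : ∀ φ ∈ KK G, φ F0 ≤ φ0 F0 := fun φ hφ => hmax hφ
  set F : Set ((G →ᵇ ℝ) → ℝ) := KK G ∩ {φ | φ F0 = φ0 F0} with hF
  have hFc : IsCompact F := (KK_compact (G := G)).inter_right (isClosed_eq hcS continuous_const)
  obtain ⟨φ, hφ⟩ := hFc.extremePoints_nonempty ⟨φ0, hφ0, rfl⟩
  have hmemF : φ ∈ F := hφ.1
  have hmem : φ ∈ KK G := hmemF.1
  have hφS : φ F0 = φ0 F0 := hmemF.2
  obtain ⟨ha, hs, hp, h1, hi⟩ := hmem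
  let m : (G →ᵇ ℝ) →ₗ[ℝ] ℝ :=
    { toFun := φ
      map_add' := ha
      map_smul' := hs }
  have hm : ∀ f, m f = φ f := fun f => rfl
  refine ⟨m, ⟨hp, h1, hi⟩, ?_, ?_⟩
  swap
  · rw [hm, hφS]
    exact hmax' _ hφ1
  intro m' hm' hinv f
  obtain ⟨t, ht⟩ : ∃ t, t = m' 1 := ⟨_, rfl⟩
  have h10 : ∀ n : G, (0 : ℝ) ≤ (1 : G →ᵇ ℝ) n := fun n => by simp
  have ht0 : 0 ≤ t := by
    rw [ht]
    exact (hm' 1 h10).1
  have ht1 : t ≤ 1 := by
    rw [ht]
    have := (hm' 1 h10).2
    rwa [hm, h1] at this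
  have hb1 : |m' f| ≤ ‖f‖ * m' 1 := pos_bound m' (map_add m') (fun c g => by
    rw [map_smul, smul_eq_mul]) (fun g hg => (hm' g hg).1) f
  have hb2 : |m f - m' f| ≤ ‖f‖ * (m 1 - m' 1) :=
    pos_bound (fun g => m g - m' g) (fun g h => by
      rw [map_add, map_add]
      ring) (fun c g => by
      rw [map_smul, map_smul, smul_eq_mul, smul_eq_mul]
      ring) (fun g hg => sub_nonneg.2 (hm' g hg).2) f
  rw [← ht] at hb1 hb2 ⊢
  have hm1 : m 1 = 1 := h1
  rw [hm1] at hb2
  rcases ht0.eq_or_lt with h0 | h0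
  · rw [← h0, mul_zero] at hb1
    rw [← h0, zero_mul]
    exact abs_nonpos_iff.1 hb1
  · rcases ht1.eq_or_lt with h2 | h2
    · rw [h2, sub_self, mul_zero] at hb2
      have := abs_nonpos_iff.1 hb2
      rw [h2, one_mul]
      linarith
    · have h1t : 0 < 1 - t := by linarith
      have hmem1 : (fun g => m' g / t) ∈ KK G := by
        refine ⟨fun g h => ?_, fun c g => ?_, fun g hg => ?_, ?_, fun g f => ?_⟩
        · change m' (g + h) / t = m' g / t + m' h / t
          rw [map_add, add_div]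
        · change m' (c • g) / t = c * (m' g / t)
          rw [map_smul, smul_eq_mul, mul_div_assoc]
        · exact div_nonneg (hm' g hg).1 h0.le
        · change m' 1 / t = 1
          rw [← ht, div_self h0.ne']
        · change m' (sh g f) / t = m' f / t
          rw [hinv]
      have hmem2 : (fun g => (m g - m' g) / (1 - t)) ∈ KK G := by
        refine ⟨fun g h => ?_, fun c g => ?_, fun g hg => ?_, ?_, fun g f => ?_⟩
        · change (m (g + h) - m' (g + h)) / (1 - t) =
            (m g - m' g) / (1 - t) + (m h - m' h) / (1 - t)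
          rw [map_add, map_add]
          ring
        · change (m (c • g) - m' (c • g)) / (1 - t) = c * ((m g - m' g) / (1 - t))
          rw [map_smul, map_smul, smul_eq_mul, smul_eq_mul]
          ring
        · exact div_nonneg (sub_nonneg.2 (hm' g hg).2) h1t.le
        · change (m 1 - m' 1) / (1 - t) = 1
          rw [← ht, hm1, div_self h1t.ne']
        · change (m (sh g f) - m' (sh g f)) / (1 - t) = (m f - m' f) / (1 - t)
          rw [hinv, hm, hm, hi]
      have h5 := hmax' _ hmem1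
      have h6 := hmax' _ hmem2
      have h7 : φ0 F0 = t * (m' F0 / t) + (1 - t) * ((m F0 - m' F0) / (1 - t)) := by
        rw [← hφS, ← hm]
        field_simp
        ring
      have h8 : m' F0 / t = φ0 F0 := by
        refine le_antisymm h5 ?_
        by_contra hcon
        rw [not_le] at hcon
        have h9 : t * (m' F0 / t) < t * φ0 F0 := mul_lt_mul_of_pos_left hcon h0
        have h10 : (1 - t) * ((m F0 - m' F0) / (1 - t)) ≤ (1 - t) * φ0 F0 :=
          mul_le_mul_of_nonneg_left h6 h1t.le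
        linarith
      have h9 : (m F0 - m' F0) / (1 - t) = φ0 F0 := by
        have h10 : (1 - t) * ((m F0 - m' F0) / (1 - t)) = (1 - t) * φ0 F0 := by
          rw [h8] at h7
          linarith
        exact mul_left_cancel₀ h1t.ne' h10
      have hseg : φ ∈ openSegment ℝ (fun g => m' g / t) (fun g => (m g - m' g) / (1 - t)) := by
        refine ⟨t, 1 - t, h0, h1t, by ring, ?_⟩
        funext g
        simp only [Pi.add_apply, Pi.smul_apply, smul_eq_mul]
        rw [hm g]
        field_simp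
        ring
      have h3 := hφ.2 (show _ ∈ F from ⟨hmem1, h8⟩) (show _ ∈ F from ⟨hmem2, h9⟩) hseg
      have h4 : m' f / t = φ f := congrFun h3 f
      rw [hm f, ← h4]
      field_simp

/-- sets which are not null have positive measure for some extreme invariant mean -/
theorem ext_of_not_null {S : Set G} (hS : ¬ Null S) :
    ∃ m : (G →ᵇ ℝ) →ₗ[ℝ] ℝ, IsMean m ∧ Extr m ∧ 0 < m (ind S) := by
  unfold Null at hS
  push Not at hS
  obtain ⟨m0, hm0, h0⟩ := hS
  obtain ⟨m, hm, he, h1⟩ := ban m0 hm0 (ind S)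
  have h2 : 0 ≤ m0 (ind S) := hm0.pos _ fun n => (ind_01 S n).1
  exact ⟨m, hm, he, lt_of_lt_of_le (lt_of_le_of_ne h2 (Ne.symm h0)) h1⟩

end Pool.Agent.N688.GB
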