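import Pool.Agent.H732R3.QuarterB
import Pool.Agent.W59.GB.Cls

set_option autoImplicit false

/-!
# Primes in families of homothetic progressions
-/

open Filter Topology Finset

namespace Pool.Agent.N688.GB

open Pool.Agent.H732R3.BigQ Pool.Agent.W59.GB

/-- clearing the denominator of a rational number -/
theorem clear_den (u w : ℤ) (z : ℚ) (hz : 0 < z)
    (hc : IsCoprime (z.num * z.den) (u * w)) (hm : w ^ 2 ∣ z.num - z.den) (D : ℕ)
    (hD0 : 0 < D) (hD : z.den ∣ D) (hDu : IsCoprime (D : ℤ) (u * w)) :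
    ∃ a t : ℤ, 0 < a ∧ (a : ℚ) = z * D ∧ IsCoprime a u ∧ a = D + w ^ 2 * t := by
  obtain ⟨D', hD'⟩ := hD
  obtain ⟨t, ht⟩ := hm
  have hD'0 : 0 < D' := by
    rcases Nat.eq_zero_or_pos D' with h | h
    · rw [h, mul_zero] at hD'
      omega
    · exact h
  refine ⟨z.num * D', t * D', ?_, ?_, ?_, ?_⟩
  · have := Rat.num_pos.2 hz
    positivity
  · rw [hD']
    push_cast
    rw [← mul_assoc]
    congr 1
    have := Rat.mul_den_eq_num z
    rw [this]
  · refine IsCoprime.mul_left ?_ ?_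
    · exact (IsCoprime.of_mul_left_left hc).of_isCoprime_of_dvd_right (dvd_mul_right u _)
    · rw [hD'] at hDu
      push_cast at hDu
      exact (IsCoprime.of_mul_left_right hDu).of_isCoprime_of_dvd_right (dvd_mul_right u _)
  · rw [hD']
    push_cast
    linear_combination (D' : ℤ) * ht

theorem adm_aux (u D v m w a₀ y0 b0 : ℤ) (hw : w = v * m) (hDw : IsCoprime D w)
    (ha₀ : IsCoprime a₀ m) (h0 : D * y0 - w * b0 = v * a₀ + u) {ι : Type} (a t : ι → ℤ)
    (ha : ∀ x, a x = D + w ^ 2 * t x)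
    (hau : ∀ x, IsCoprime (a x) u) (p : ℕ) (hp : p.Prime) :
    ∃ n : ℤ, ∀ x, ¬ (p : ℤ) ∣ (a x * m) * n + (a₀ + m * (b0 + w * t x * y0)) := by
  have hpp : Prime (p : ℤ) := Nat.prime_iff_prime_int.1 hp
  by_cases hpm : (p : ℤ) ∣ m
  · refine ⟨0, fun x hd => hpp.not_isUnit (ha₀.isUnit_of_dvd' ?_ hpm)⟩
    have h1 : a₀ = ((a x * m) * 0 + (a₀ + m * (b0 + w * t x * y0))) -
        m * (b0 + w * t x * y0) := by ring
    rw [h1]
    exact dvd_sub hd (hpm.mul_right _)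
  by_cases hpw : (p : ℤ) ∣ w
  · obtain ⟨w', hw'⟩ := hpw
    have hcop1 : IsCoprime D (p : ℤ) := by
      rw [hw'] at hDw
      exact IsCoprime.of_mul_right_left hDw
    have hcop2 : IsCoprime m (p : ℤ) :=
      ((Irreducible.coprime_iff_not_dvd hpp.irreducible).2 hpm).symm
    obtain ⟨s, r, hsr⟩ := hcop1.mul_left hcop2
    refine ⟨s * (1 - a₀ - m * b0), fun x hd => hpp.not_isUnit ?_⟩
    rw [isUnit_iff_dvd_one]
    have e : (1 : ℤ) = ((a x * m) * (s * (1 - a₀ - m * b0)) + (a₀ + m * (b0 + w * t x * y0))) +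
        p * (r * (1 - a₀ - m * b0) - w' * (w * t x * m * (s * (1 - a₀ - m * b0)) +
          m * t x * y0)) := by
      rw [ha x]
      linear_combination -(1 - a₀ - m * b0) * hsr +
        (w * t x * m * (s * (1 - a₀ - m * b0)) + m * t x * y0) * (-hw')
    rw [e]
    exact dvd_add hd (dvd_mul_right _ _)
  · have hcop : IsCoprime w (p : ℤ) := ((Irreducible.coprime_iff_not_dvd hpp.irreducible).2 hpw).symm
    obtain ⟨s, r, hsr⟩ := hcop
    obtain ⟨e, he⟩ : ∃ e : ℤ, ∀ x, ¬ (p : ℤ) ∣ a x * e - u := by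
      by_cases hpu : (p : ℤ) ∣ u
      · refine ⟨1, fun x hd => ?_⟩
        rw [mul_one] at hd
        have h1 : (p : ℤ) ∣ a x := by
          have := dvd_add hd hpu
          rwa [sub_add_cancel] at this
        exact hpp.not_isUnit ((hau x).isUnit_of_dvd' h1 hpu)
      · refine ⟨0, fun x hd => hpu ?_⟩
        rw [mul_zero, zero_sub, dvd_neg] at hd
        exact hd
    refine ⟨s * (e - y0), fun x hd => he x ?_⟩
    have h1 : a x * e - u = v * ((a x * m) * (s * (e - y0)) + (a₀ + m * (b0 + w * t x * y0))) +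
        p * (a x * (r * (e - y0))) := by
      have h2 := ha x
      linear_combination (-(a x) * (e - y0)) * hsr + h0 + y0 * h2 +
        (a x * (s * (e - y0)) + (b0 + w * t x * y0)) * hw
    rw [h1]
    exact dvd_add (hd.mul_left _) (dvd_mul_right _ _)

/-- vectors of primes `p 0, ..., p n`, all congruent to `a` modulo `m`, with `v * p j + u`
proportional to `z j` -/
def Tup {n : ℕ} (u : ℤ) (v m a : ℕ) (z : Fin (n + 1) → ℚ) : Set ℕ :=
  {q | ∃ p : Fin (n + 1) → ℕ, p 0 = q ∧ (∀ j, (p j).Prime ∧ p j ≡ a [MOD m]) ∧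
    ∃ Y : ℚ, ∀ j, (v : ℚ) * p j + u = z j * Y}

theorem nt (k : ℕ) : ∃ T K : ℕ, 1 ≤ K ∧ ∀ (u : ℤ) (v m a : ℕ), 0 < m → a.Coprime m →
    ∀ z : Fin T → Fin K → ℚ, (∀ g i, 0 < z g i) →
    (Function.Injective fun x : Fin T × Fin K => z x.1 x.2) →
    (∀ g i, IsCoprime ((z g i).num * (z g i).den) (u * (v * m))) →
    (∀ g i, ((v * m : ℤ) ^ 2) ∣ (z g i).num - (z g i).den) →
    ∃ x : Fin (k + 1) → Fin T × Fin K, (∀ i j, i < j → (x i).1 < (x j).1) ∧
      Big (Tup u v m a fun j => z (x j).1 (x j).2) := by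
  classical
  obtain ⟨K, hK, h⟩ := Pool.Agent.H732R3.BigQ.quarterB (4 * (k + 1))
  refine ⟨4 * (k + 1), K, hK, ?_⟩
  intro u v m a₀ hm0 ha₀ z hz hinj hcop hmod
  obtain ⟨w, hw⟩ : ∃ w : ℤ, w = v * m := ⟨_, rfl⟩
  rw [← hw] at hcop hmod
  obtain ⟨D, hD⟩ : ∃ D : ℕ, D = ∏ x : Fin (4 * (k + 1)) × Fin K, (z x.1 x.2).den := ⟨_, rfl⟩
  have hD0 : 0 < D := by
    rw [hD]
    exact prod_pos fun x _ => (z x.1 x.2).den_pos
  have hDd : ∀ g i, (z g i).den ∣ D := fun g i => by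
    rw [hD]
    exact dvd_prod_of_mem (fun x : Fin (4 * (k + 1)) × Fin K => (z x.1 x.2).den) (mem_univ (g, i))
  have hDc : IsCoprime (D : ℤ) (u * w) := by
    rw [hD]
    push_cast
    exact IsCoprime.prod_left fun x _ => (IsCoprime.of_mul_left_right (hcop x.1 x.2))
  have hDw : IsCoprime (D : ℤ) w := IsCoprime.of_mul_right_right hDc
  have ha₀' : IsCoprime (a₀ : ℤ) (m : ℤ) := Nat.isCoprime_iff_coprime.2 ha₀
  choose a t ha0 haz hau hat using fun (x : Fin (4 * (k + 1)) × Fin K) =>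
    clear_den u w (z x.1 x.2) (hz x.1 x.2) (hcop x.1 x.2) (hmod x.1 x.2) D hD0 (hDd x.1 x.2) hDc
  obtain ⟨s, r, hsr⟩ := hDw
  obtain ⟨y0, b0, h0⟩ : ∃ y0 b0 : ℤ, (D : ℤ) * y0 - w * b0 = v * a₀ + u :=
    ⟨s * (v * a₀ + u), -(r * (v * a₀ + u)), by linear_combination (v * a₀ + u) * hsr⟩
  have hm0' : (0 : ℤ) < m := by exact_mod_cast hm0
  obtain ⟨A, hA⟩ : ∃ A : Fin (4 * (k + 1)) × Fin K → ℤ, A = fun x => a x * m := ⟨_, rfl⟩
  have hA0 : ∀ x, 0 < A x := by
    intro x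
    rw [hA]
    exact mul_pos (ha0 x) hm0'
  obtain ⟨b, hb⟩ : ∃ b : Fin (4 * (k + 1)) × Fin K → ℤ,
    b = fun x => a₀ + m * (b0 + w * t x * y0) := ⟨_, rfl⟩
  have hkey : ∀ x (n : ℤ), (v : ℤ) * (A x * n + b x) + u = a x * (w * n + y0) := by
    intro x n
    rw [hb, hA]
    have h2 := hat x
    linear_combination -h0 + y0 * (-h2) + (a x * n + b0 + w * t x * y0) * (-hw)
  obtain ⟨S, c, hS, hbig⟩ := h (fun g i => A (g, i)) (fun g i => b (g, i))
    (fun g i => hA0 (g, i)) (by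
      intro x y hxy
      simp only [Prod.mk.injEq] at hxy
      apply hinj
      have h1 := haz x
      have h2 := haz y
      have h3 : a x = a y := by
        have h4 : A x = A y := hxy.1
        rw [hA] at h4
        exact mul_right_cancel₀ hm0'.ne' h4
      rw [h3, h2] at h1
      have h4 : (D : ℚ) ≠ 0 := by exact_mod_cast hD0.ne'
      exact (mul_right_cancel₀ h4 h1).symm)
    (by
      intro p hp
      obtain ⟨n, hn⟩ := adm_aux u D v m w a₀ y0 b0 hw ⟨s, r, hsr⟩ ha₀' h0 a t hat hau p hp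
      refine ⟨n, fun g i => ?_⟩
      have := hn (g, i)
      rw [hb, hA]
      exact this)
  have hcard : k + 1 ≤ S.card := by omega
  obtain ⟨e, he⟩ : ∃ e : Fin (k + 1) ↪o Fin (4 * (k + 1)), ∀ j, e j ∈ S :=
    ⟨S.orderEmbOfCardLe hcard, fun j => S.orderEmbOfCardLe_mem hcard j⟩
  refine ⟨fun j => (e j, c (e j)), fun i j hij => e.strictMono hij, ?_⟩
  have hA00 := hA0 (e 0, c (e 0))
  refine hbig.affine (A (e 0, c (e 0))).toNat (b (e 0, c (e 0))) (by omega)
    (fun n => (A (e 0, c (e 0)) * (n : ℤ) + b (e 0, c (e 0))).toNat) ?_ ?_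
  · intro n hn
    have h1 := (hn (e 0) (he 0)).1
    rw [Int.toNat_of_nonneg h1.le, Int.toNat_of_nonneg hA00.le]
  · intro n hn
    refine ⟨fun j => (A (e j, c (e j)) * (n : ℤ) + b (e j, c (e j))).toNat, rfl, ?_,
      (D : ℚ) * ((w : ℚ) * n + y0), ?_⟩
    · intro j
      obtain ⟨h1, h2⟩ := hn (e j) (he j)
      constructor
      · rw [Nat.prime_iff_prime_int, Int.toNat_of_nonneg h1.le]
        exact h2
      · rw [← Int.natCast_modEq_iff, Int.toNat_of_nonneg h1.le, Int.modEq_comm, Int.modEq_iff_dvd]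
        refine ⟨a (e j, c (e j)) * n + (b0 + w * t (e j, c (e j)) * y0), ?_⟩
        rw [hA, hb]
        ring
    · intro j
      obtain ⟨h1, h2⟩ := hn (e j) (he j)
      have h3 : ((((A (e j, c (e j)) * (n : ℤ) + b (e j, c (e j))).toNat : ℕ) : ℤ) : ℚ) =
          ((A (e j, c (e j)) * (n : ℤ) + b (e j, c (e j)) : ℤ) : ℚ) := by
        rw [Int.toNat_of_nonneg h1.le]
      rw [Int.cast_natCast] at h3
      rw [h3]
      have h4 : (((v : ℤ) * (A (e j, c (e j)) * (n : ℤ) + b (e j, c (e j))) + u : ℤ) : ℚ) =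
          ((a (e j, c (e j)) * (w * n + y0) : ℤ) : ℚ) := by rw [hkey]
      push_cast at h4 ⊢
      rw [h4, haz (e j, c (e j))]
      ring

end Pool.Agent.N688.GB
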