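import Pool.Agent.N688.GB.Points
import Pool.Agent.N688.GB.Nt

set_option autoImplicit false
set_option linter.unusedSectionVars false

/-!
# Ratios of shifted primes in Bohr neighbourhoods of groups of rational numbers
-/

open Filter Topology Finset

namespace Pool.Agent.N688.GB

open Pool.Agent.H732R3.BigQ Pool.Agent.W59.GB

variable {G : Type} [AddCommGroup G] [TopologicalSpace G] [DiscreteTopology G]

/-- the patterns of primes -/
def Pat (u : ℤ) (v m a : ℕ) (e : G → ℚ) (A : Set G) (k : ℕ) : Set (Fin (k + 2) → G) :=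
  {z | (∀ i j, i < j → z j - z i ∈ A) ∧ Big (Tup u v m a fun j => e (z j))}

theorem tup_mul {n : ℕ} (u : ℤ) (v m a₀ : ℕ) (z : Fin (n + 1) → ℚ) (a : ℚ) (ha : a ≠ 0) :
    Tup u v m a₀ (fun j => z j * a) = Tup u v m a₀ z := by
  ext q
  constructor
  · rintro ⟨p, h1, h2, Y, h3⟩
    exact ⟨p, h1, h2, a * Y, fun j => by rw [h3]; ring⟩
  · rintro ⟨p, h1, h2, Y, h3⟩
    exact ⟨p, h1, h2, Y / a, fun j => by rw [h3]; field_simp⟩

theorem core (u : ℤ) (v m a₀ : ℕ) (hm : 0 < m) (ha₀ : a₀.Coprime m) (e : G → ℚ) (hmul : ∀ x y, e (x + y) = e x * e y)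
    (hpos : ∀ x, 0 < e x) (hcop : ∀ x, IsCoprime ((e x).num * (e x).den) (u * (v * m)))
    (A : Set G)
    (k : ℕ) :
    ∃ c : ℝ, 0 < c ∧ ∃ (T : Finset (AddChar G Circle)) (ρ : ℝ), 0 < ρ ∧
      Null ({d : G | (d ∈ A ∧ e d ≠ 1 ∧ ((v * m : ℤ) ^ 2) ∣ (e d).num - (e d).den) ∧
        ¬ RichA {g : Fin k → G |
        (Fin.cons 0 (Fin.cons d g : Fin (k + 1) → G) : Fin (k + 2) → G) ∈ Pat u v m a₀ e A k} c} ∩
        Bo T ρ) := by
  obtain ⟨T, K, hK, hnt⟩ := nt (k + 1)
  refine side_first {d : G | d ∈ A ∧ e d ≠ 1 ∧ ((v * m : ℤ) ^ 2) ∣ (e d).num - (e d).den}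
    (Pat u v m a₀ e A k) ?_ (T * K) ?_
  · rintro z ⟨h1, h2⟩ a
    refine ⟨fun i j hij => ?_, ?_⟩
    · have := h1 i j hij
      rwa [add_sub_add_right_eq_sub]
    · have e1 : (fun j => e (z j + a)) = fun j => e (z j) * e a := by
        funext j
        rw [hmul]
      rw [e1, tup_mul u v m a₀ _ _ (hpos a).ne']
      exact h2
  · intro x hx
    have hlt : ∀ g : Fin T, ∀ i : Fin K, (g : ℕ) * K + i < T * K := by
      intro g i
      have h1 : ((g : ℕ) + 1) * K ≤ T * K := Nat.mul_le_mul_right _ g.2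
      rw [Nat.add_mul, one_mul] at h1
      have := i.2
      omega
    have he0 : e 0 = 1 := by
      have h1 := hmul 0 0
      rw [add_zero] at h1
      have h2 := (hpos 0).ne'
      exact mul_left_cancel₀ h2 (by rw [← h1, mul_one])
    have hsub : ∀ a b, e (a - b) * e b = e a := by
      intro a b
      rw [← hmul, sub_add_cancel]
    obtain ⟨y, hy1, hy2⟩ := hnt u v m a₀ hm ha₀ (fun g i => e (x ((g : ℕ) * K + i) - x 0))
      (fun g i => hpos _) (by
        rintro ⟨g, i⟩ ⟨g', i'⟩ h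
        simp only at h
        have h1 : e (x ((g : ℕ) * K + i)) = e (x ((g' : ℕ) * K + i')) := by
          rw [← hsub _ (x 0), h, hsub]
        have h2 : (g : ℕ) * K + i = (g' : ℕ) * K + i' := by
          rcases lt_trichotomy ((g : ℕ) * K + (i : ℕ)) ((g' : ℕ) * K + (i' : ℕ)) with h3 | h3 | h3
          · exfalso
            refine (hx _ _ h3 (hlt g' i').le).2.1 ?_
            have h4 := hsub (x ((g' : ℕ) * K + i')) (x ((g : ℕ) * K + i))
            rw [h1] at h4
            exact mul_right_cancel₀ (hpos _).ne' (by rw [h4, one_mul])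
          · exact h3
          · exfalso
            refine (hx _ _ h3 (hlt g i).le).2.1 ?_
            have h4 := hsub (x ((g : ℕ) * K + i)) (x ((g' : ℕ) * K + i'))
            rw [h1] at h4
            exact mul_right_cancel₀ (hpos _).ne' (by rw [h4, one_mul])
        have hi := i.2
        have hi' := i'.2
        have h5 : (g : ℕ) = g' := by
          have h6 : ((g : ℕ) * K + i) / K = g := by
            rw [mul_comm, Nat.mul_add_div (by omega), Nat.div_eq_of_lt hi, add_zero]
          have h7 : ((g' : ℕ) * K + i') / K = g' := by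
            rw [mul_comm, Nat.mul_add_div (by omega), Nat.div_eq_of_lt hi', add_zero]
          rw [← h6, h2, h7]
        have h8 : (i : ℕ) = i' := by
          rw [h5] at h2
          omega
        rw [Prod.mk.injEq]
        exact ⟨Fin.ext h5, Fin.ext h8⟩)
      (fun g i => hcop _) (by
        intro g i
        rcases Nat.eq_zero_or_pos ((g : ℕ) * K + (i : ℕ)) with h | h
        · rw [h, sub_self, he0]
          simp
        · exact (hx 0 _ h (hlt g i).le).2.2)
    refine ⟨fun j => ((y j).1 : ℕ) * K + (y j).2, ?_, fun j => (hlt _ _).le, ?_, ?_⟩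
    · intro i j hij
      have h1 : ((y i).1 : ℕ) < (y j).1 := hy1 i j hij
      have h2 : (((y i).1 : ℕ) + 1) * K ≤ ((y j).1 : ℕ) * K := Nat.mul_le_mul_right _ h1
      rw [Nat.add_mul, one_mul] at h2
      have := (y i).2.2
      show ((y i).1 : ℕ) * K + (y i).2 < ((y j).1 : ℕ) * K + (y j).2
      omega
    · intro i j hij
      refine (hx _ _ ?_ (hlt _ _).le).1
      have h1 : ((y i).1 : ℕ) < (y j).1 := hy1 i j hij
      have h2 : (((y i).1 : ℕ) + 1) * K ≤ ((y j).1 : ℕ) * K := Nat.mul_le_mul_right _ h1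
      rw [Nat.add_mul, one_mul] at h2
      have := (y i).2.2
      show ((y i).1 : ℕ) * K + (y i).2 < ((y j).1 : ℕ) * K + (y j).2
      omega
    · have e1 : (fun j => e (x (((y j).1 : ℕ) * K + (y j).2))) =
          fun j => e (x (((y j).1 : ℕ) * K + (y j).2) - x 0) * e (x 0) := by
        funext j
        rw [hsub]
      rw [e1, tup_mul u v m a₀ _ _ (hpos _).ne']
      exact hy2

/-- characters of a finite group separate the identity -/
theorem sep (F : Type) [AddCommGroup F] [Finite F] : ∃ (T : Finset (AddChar F Circle)) (ρ : ℝ),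
    0 < ρ ∧ ∀ a : F, (∀ χ ∈ T, ‖((χ a : Circle) : ℂ) - 1‖ < ρ) → a = 0 := by
  classical
  have := Fintype.ofFinite F
  have h1 : ∀ a : F, ∃ χ : AddChar F Circle, a ≠ 0 → χ a ≠ 1 := by
    intro a
    by_cases ha : a = 0
    · exact ⟨1, fun h => absurd ha h⟩
    · obtain ⟨ψ, hψ⟩ := (AddChar.exists_apply_ne_zero (a := a)).2 ha
      refine ⟨AddChar.circleEquivComplex.symm ψ, fun _ h => hψ ?_⟩
      have h2 : AddChar.circleEquivComplex (AddChar.circleEquivComplex.symm ψ) a = ψ a := by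
        rw [AddEquiv.apply_symm_apply]
      rw [← h2]
      show (((AddChar.circleEquivComplex.symm ψ) a : Circle) : ℂ) = 1
      rw [h, Circle.coe_one]
  choose χ hχ using h1
  obtain ⟨ρ, hρ⟩ : ∃ ρ : ℝ, ρ = ∏ a : F, (if a = 0 then (1 : ℝ) else
      min 1 ‖((χ a a : Circle) : ℂ) - 1‖) := ⟨_, rfl⟩
  have hf : ∀ a : F, 0 < (if a = 0 then (1 : ℝ) else min 1 ‖((χ a a : Circle) : ℂ) - 1‖) ∧
      (if a = 0 then (1 : ℝ) else min 1 ‖((χ a a : Circle) : ℂ) - 1‖) ≤ 1 := by
    intro a
    by_cases ha : a = 0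
    · rw [if_pos ha]
      exact ⟨one_pos, le_rfl⟩
    · rw [if_neg ha]
      refine ⟨lt_min one_pos ?_, min_le_left _ _⟩
      rw [norm_pos_iff, sub_ne_zero]
      intro h
      exact hχ a ha (Circle.ext (by rw [h, Circle.coe_one]))
  refine ⟨univ.image χ, ρ, ?_, fun a ha => ?_⟩
  · rw [hρ]
    exact prod_pos fun a _ => (hf a).1
  · by_contra hne
    have h2 := ha (χ a) (mem_image_of_mem χ (mem_univ a))
    have h3 : ρ ≤ ‖((χ a a : Circle) : ℂ) - 1‖ := by
      rw [hρ, ← mul_prod_erase univ _ (mem_univ a), if_neg hne]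
      calc _ ≤ min 1 ‖((χ a a : Circle) : ℂ) - 1‖ * 1 := by
            refine mul_le_mul_of_nonneg_left ?_ (by positivity)
            exact prod_le_one (fun b _ => (hf b).1.le) fun b _ => (hf b).2
        _ = min 1 ‖((χ a a : Circle) : ℂ) - 1‖ := mul_one _
        _ ≤ _ := min_le_right _ _
    linarith

end Pool.Agent.N688.GB
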