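import Mathlib

set_option autoImplicit false
set_option linter.unusedSectionVars false

/-!
# Invariant means and Bohr sets of a discrete abelian group: definitions
-/

open Filter Topology Finset
open scoped BoundedContinuousFunction ComplexConjugate

namespace Pool.Agent.N688.GB

variable {G : Type} [AddCommGroup G] [TopologicalSpace G] [DiscreteTopology G]

/-- the indicator function of a set as a bounded function -/
noncomputable def ind (A : Set G) : G →ᵇ ℝ :=
  BoundedContinuousFunction.ofNormedAddCommGroupDiscrete (A.indicator fun _ => (1 : ℝ)) 1 (by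
    intro x
    by_cases h : x ∈ A <;> simp [h])

/-- shift by `k` : `(sh k f) n = f (n + k)` -/
def sh {β : Type} [PseudoMetricSpace β] (k : G) (f : G →ᵇ β) : G →ᵇ β :=
  f.compContinuous ⟨fun n => n + k, continuous_of_discreteTopology⟩

/-- real part of a bounded complex function -/
noncomputable def cre (f : G →ᵇ ℂ) : G →ᵇ ℝ :=
  BoundedContinuousFunction.ofNormedAddCommGroupDiscrete (fun n => (f n).re) ‖f‖ (by
    intro x
    exact (Complex.abs_re_le_norm _).trans (f.norm_coe_le_norm x))

/-- imaginary part of a bounded complex function -/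
noncomputable def cim (f : G →ᵇ ℂ) : G →ᵇ ℝ :=
  BoundedContinuousFunction.ofNormedAddCommGroupDiscrete (fun n => (f n).im) ‖f‖ (by
    intro x
    exact (Complex.abs_im_le_norm _).trans (f.norm_coe_le_norm x))

/-- real bounded functions as complex ones -/
noncomputable def co (f : G →ᵇ ℝ) : G →ᵇ ℂ :=
  BoundedContinuousFunction.ofNormedAddCommGroupDiscrete (fun n => (f n : ℂ)) ‖f‖ (by
    intro x
    rw [Complex.norm_real]
    exact f.norm_coe_le_norm x)

/-- a character as a bounded function -/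
noncomputable def chr (θ : AddChar G Circle) : G →ᵇ ℂ :=
  BoundedContinuousFunction.ofNormedAddCommGroupDiscrete (fun n => ((θ n : Circle) : ℂ)) 1 (by
    intro x
    exact (Circle.norm_coe _).le)

/-- invariant means on `G` -/
structure IsMean (m : (G →ᵇ ℝ) →ₗ[ℝ] ℝ) : Prop where
  pos : ∀ f : G →ᵇ ℝ, (∀ n, 0 ≤ f n) → 0 ≤ m f
  one : m 1 = 1
  inv : ∀ (g : G) (f : G →ᵇ ℝ), m (sh g f) = m f

/-- extremality : every invariant functional between `0` and `m` is a multiple of `m` -/
def Extr (m : (G →ᵇ ℝ) →ₗ[ℝ] ℝ) : Prop :=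
  ∀ m' : (G →ᵇ ℝ) →ₗ[ℝ] ℝ, (∀ f : G →ᵇ ℝ, (∀ n, 0 ≤ f n) → 0 ≤ m' f ∧ m' f ≤ m f) →
    (∀ (g : G) (f : G →ᵇ ℝ), m' (sh g f) = m' f) → ∀ f, m' f = m' 1 * m f

/-- sets of measure zero for all invariant means -/
def Null (N : Set G) : Prop := ∀ m : (G →ᵇ ℝ) →ₗ[ℝ] ℝ, IsMean m → m (ind N) = 0

/-- the Bohr neighbourhood of zero defined by finitely many characters -/
def Bo (T : Finset (AddChar G Circle)) (ρ : ℝ) : Set G :=
  {k : G | ∀ θ ∈ T, ‖((θ k : Circle) : ℂ) - 1‖ < ρ}

/-- the trigonometric polynomials -/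
noncomputable def Trig : Submodule ℂ (G →ᵇ ℂ) := Submodule.span ℂ (Set.range chr)

@[simp] theorem cre_apply (f : G →ᵇ ℂ) (n : G) : cre f n = (f n).re := rfl
@[simp] theorem cim_apply (f : G →ᵇ ℂ) (n : G) : cim f n = (f n).im := rfl
@[simp] theorem sh_apply {β : Type} [PseudoMetricSpace β] (k : G) (f : G →ᵇ β) (n : G) :
    sh k f n = f (n + k) := rfl
@[simp] theorem chr_apply (θ : AddChar G Circle) (n : G) : chr θ n = ((θ n : Circle) : ℂ) := rfl
@[simp] theorem co_apply (f : G →ᵇ ℝ) (n : G) : co f n = (f n : ℂ) := rfl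

theorem ind_apply (A : Set G) (n : G) : ind A n = A.indicator (fun _ => (1 : ℝ)) n := rfl

theorem ind_01 (S : Set G) (n : G) : 0 ≤ ind S n ∧ ind S n ≤ 1 := by
  rw [ind_apply]
  by_cases h : n ∈ S <;> simp [h]

theorem ind_mem {S : Set G} {n : G} (h : n ∈ S) : ind S n = 1 :=
  Set.indicator_of_mem h (fun _ => (1 : ℝ))

theorem ind_notMem {S : Set G} {n : G} (h : n ∉ S) : ind S n = 0 :=
  Set.indicator_of_notMem h (fun _ => (1 : ℝ))

theorem m_mono {m : (G →ᵇ ℝ) →ₗ[ℝ] ℝ} (hm : IsMean m) {f g : G →ᵇ ℝ} (h : ∀ n, f n ≤ g n) :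
    m f ≤ m g := by
  have h1 := hm.pos (g - f) fun n => by
    rw [BoundedContinuousFunction.coe_sub, Pi.sub_apply]
    exact sub_nonneg.2 (h n)
  rw [map_sub] at h1
  linarith

theorem m_const {m : (G →ᵇ ℝ) →ₗ[ℝ] ℝ} (hm : IsMean m) (c : ℝ) : m (c • 1) = c := by
  rw [map_smul, hm.one, smul_eq_mul, mul_one]

theorem null_mono {N N' : Set G} (h : N' ⊆ N) (hN : Null N) : Null N' := by
  intro m hm
  refine le_antisymm ?_ (hm.pos _ fun n => (ind_01 N' n).1)
  rw [← hN m hm]
  refine m_mono hm fun n => ?_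
  by_cases hn : n ∈ N'
  · rw [ind_mem hn, ind_mem (h hn)]
  · rw [ind_notMem hn]
    exact (ind_01 N n).1

theorem null_union {N N' : Set G} (hN : Null N) (hN' : Null N') : Null (N ∪ N') := by
  intro m hm
  refine le_antisymm ?_ (hm.pos _ fun n => (ind_01 _ n).1)
  have h1 : m (ind (N ∪ N')) ≤ m (ind N + ind N') := by
    refine m_mono hm fun n => ?_
    rw [BoundedContinuousFunction.coe_add, Pi.add_apply]
    have h2 := (ind_01 N n).1
    have h3 := (ind_01 N' n).1
    by_cases hn : n ∈ N
    · rw [ind_mem hn]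
      linarith [(ind_01 (N ∪ N') n).2]
    · by_cases hn' : n ∈ N'
      · rw [ind_mem hn']
        linarith [(ind_01 (N ∪ N') n).2]
      · rw [ind_notMem (by simp [hn, hn'])]
        linarith
  rw [map_add, hN m hm, hN' m hm, add_zero] at h1
  exact h1

theorem null_empty : Null (∅ : Set G) := by
  intro m hm
  have h1 : ind (∅ : Set G) = 0 := by
    ext n
    rw [ind_notMem (Set.notMem_empty n)]
    rfl
  rw [h1, map_zero]

theorem not_null_univ {m : (G →ᵇ ℝ) →ₗ[ℝ] ℝ} (hm : IsMean m) : ¬ Null (Set.univ : Set G) := by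
  intro h
  have h1 : ind (Set.univ : Set G) = 1 := by
    ext n
    rw [ind_mem (Set.mem_univ n)]
    rfl
  have h2 := h m hm
  rw [h1, hm.one] at h2
  exact one_ne_zero h2

/-- reflection -/
def refl (f : G →ᵇ ℝ) : G →ᵇ ℝ :=
  f.compContinuous ⟨fun n => -n, continuous_of_discreteTopology⟩

theorem refl_apply (f : G →ᵇ ℝ) (n : G) : refl f n = f (-n) := rfl

theorem null_neg {N : Set G} (hN : Null N) : Null {a : G | -a ∈ N} := by
  intro m hm
  let m' : (G →ᵇ ℝ) →ₗ[ℝ] ℝ :=
    { toFun := fun f => m (refl f)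
      map_add' := fun f g => by
        rw [← map_add]
        congr 1
      map_smul' := fun c f => by
        rw [RingHom.id_apply, ← map_smul]
        congr 1 }
  have hm' : IsMean m' := by
    refine ⟨fun f hf => hm.pos _ fun n => hf _, ?_, fun g f => ?_⟩
    · show m (refl 1) = 1
      have : refl (1 : G →ᵇ ℝ) = 1 := by
        ext n
        rfl
      rw [this, hm.one]
    · show m (refl (sh g f)) = m (refl f)
      have : refl (sh g f) = sh (-g) (refl f) := by
        ext n
        rw [refl_apply, sh_apply, sh_apply, refl_apply]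
        congr 1
        abel
      rw [this, hm.inv]
  have h1 := hN m' hm'
  have h2 : refl (ind N) = ind {a : G | -a ∈ N} := by
    ext n
    rw [refl_apply]
    by_cases hn : -n ∈ N
    · rw [ind_mem hn, ind_mem (S := {a : G | -a ∈ N}) hn]
    · rw [ind_notMem hn, ind_notMem (S := {a : G | -a ∈ N}) hn]
  rw [← h2]
  exact h1

variable (m : (G →ᵇ ℝ) →ₗ[ℝ] ℝ)

/-- the complexified mean -/
noncomputable def mC : (G →ᵇ ℂ) →ₗ[ℂ] ℂ where
  toFun f := ((m (cre f) : ℝ) : ℂ) + ((m (cim f) : ℝ) : ℂ) * Complex.I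
  map_add' f g := by
    have h1 : cre (f + g) = cre f + cre g := by ext n; simp
    have h2 : cim (f + g) = cim f + cim g := by ext n; simp
    rw [h1, h2, map_add, map_add]
    push_cast
    ring
  map_smul' c f := by
    have h1 : cre (c • f) = c.re • cre f - c.im • cim f := by ext n; simp
    have h2 : cim (c • f) = c.re • cim f + c.im • cre f := by
      ext n
      simp
    rw [h1, h2, map_sub, map_add, map_smul, map_smul, map_smul, map_smul]
    simp only [smul_eq_mul, RingHom.id_apply]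
    apply Complex.ext
    · simp
    · simp

theorem mC_apply (f : G →ᵇ ℂ) :
    mC m f = ((m (cre f) : ℝ) : ℂ) + ((m (cim f) : ℝ) : ℂ) * Complex.I := rfl

theorem mC_star (f : G →ᵇ ℂ) : mC m (star f) = conj (mC m f) := by
  have h1 : cre (star f) = cre f := by ext n; simp
  have h2 : cim (star f) = - cim f := by ext n; simp
  rw [mC_apply, mC_apply, h1, h2, map_neg]
  apply Complex.ext <;> simp

theorem mC_co (f : G →ᵇ ℝ) : mC m (co f) = (m f : ℂ) := by
  have h1 : cre (co f) = f := by ext n; simp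
  have h2 : cim (co f) = 0 := by ext n; simp
  rw [mC_apply, h1, h2, map_zero]
  simp

variable {m}

theorem mC_sh (hm : IsMean m) (g : G) (f : G →ᵇ ℂ) : mC m (sh g f) = mC m f := by
  have h1 : cre (sh g f) = sh g (cre f) := by ext n; simp
  have h2 : cim (sh g f) = sh g (cim f) := by ext n; simp
  rw [mC_apply, mC_apply, h1, h2, hm.inv, hm.inv]

theorem mC_nonneg (hm : IsMean m) (f : G →ᵇ ℂ) : 0 ≤ (mC m (star f * f)).re := by
  rw [mC_apply]
  simp only [Complex.add_re, Complex.ofReal_re, Complex.mul_re, Complex.I_re, mul_zero,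
    Complex.ofReal_im, Complex.I_im, mul_one, sub_self, add_zero]
  apply hm.pos
  intro n
  simp only [cre_apply, BoundedContinuousFunction.coe_mul, Pi.mul_apply,
    BoundedContinuousFunction.star_apply]
  rw [RCLike.star_def, Complex.mul_re, Complex.conj_re, Complex.conj_im]
  nlinarith [sq_nonneg (f n).re, sq_nonneg (f n).im]

theorem co_add (f g : G →ᵇ ℝ) : co (f + g) = co f + co g := by ext n; simp
theorem co_smul (c : ℝ) (f : G →ᵇ ℝ) : co (c • f) = (c : ℂ) • co f := by ext n; simp
theorem co_one : co (1 : G →ᵇ ℝ) = 1 := by ext n; simp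
theorem co_sh (g : G) (f : G →ᵇ ℝ) : co (sh g f) = sh g (co f) := by ext n; simp
theorem co_mul (f g : G →ᵇ ℝ) : co (f * g) = co f * co g := by ext n; simp
theorem star_co (f : G →ᵇ ℝ) : star (co f) = co f := by ext n; simp
theorem decomp (f : G →ᵇ ℂ) : f = co (cre f) + Complex.I • co (cim f) := by
  ext n
  simp only [BoundedContinuousFunction.coe_add, Pi.add_apply, co_apply, cre_apply, cim_apply,
    BoundedContinuousFunction.coe_smul, smul_eq_mul]
  rw [mul_comm, Complex.re_add_im]

/-! ### characters -/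

theorem chr_one : chr (1 : AddChar G Circle) = 1 := by
  ext n
  simp

theorem chr_mul (θ θ' : AddChar G Circle) : chr θ * chr θ' = chr (θ * θ') := by
  ext n
  simp

theorem chr_inv_mul (θ : AddChar G Circle) : chr θ⁻¹ * chr θ = 1 := by
  rw [chr_mul, inv_mul_cancel, chr_one]

theorem chr_mul_inv (θ : AddChar G Circle) : chr θ * chr θ⁻¹ = 1 := by
  rw [mul_comm, chr_inv_mul]

theorem star_chr (θ : AddChar G Circle) : star (chr θ) = chr θ⁻¹ := by
  ext n
  rw [BoundedContinuousFunction.star_apply, chr_apply, chr_apply, AddChar.inv_apply,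
    AddChar.map_neg_eq_inv, Circle.coe_inv_eq_conj, RCLike.star_def]

end Pool.Agent.N688.GB
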