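import Pool.Agent.N688.GB.Core

set_option autoImplicit false
set_option linter.unusedSectionVars false

/-!
# Ratios of shifted primes in multiplicative Bohr neighbourhoods
-/

open Filter Topology Finset

namespace Pool.Agent.N688.GB

open Pool.Agent.H732R3.BigQ Pool.Agent.W59.GB

/-- the set `N` has upper Banach density zero in the group -/
def Negligible {Γ : Type} [CommGroup Γ] (N : Set Γ) : Prop :=
  ∀ ε : ℝ, 0 < ε → ∃ n : ℕ, 0 < n ∧ ∃ f : Fin n → Γ, ∀ g : Γ,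
    ({i : Fin n | g * f i ∈ N}.ncard : ℝ) ≤ ε * n

/-- the set `W` has upper Banach density at least `c` in the group of the vectors of length `k` -/
def Rich {Γ : Type} [CommGroup Γ] {k : ℕ} (W : Set (Fin k → Γ)) (c : ℝ) : Prop :=
  ∀ n : ℕ, 0 < n → ∀ f : Fin n → Fin k → Γ, ∃ g : Fin k → Γ,
    c * n ≤ ({i : Fin n | g * f i ∈ W}.ncard : ℝ)

/-- the Bohr neighbourhood of the identity -/
def Bohr {Γ : Type} [CommGroup Γ] (Θ : Finset (Γ →* Circle)) (ρ : ℝ) : Set Γ :=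
  {r | ∀ χ ∈ Θ, ‖((χ r : Circle) : ℂ) - 1‖ < ρ}

/-- for every `η > 0` there are arbitrarily large `x` with at least `x ^ (1 - η)` elements of `S`
up to `x` -/
def Often (S : Set ℕ) : Prop :=
  ∀ η : ℝ, 0 < η → ∀ x₀ : ℝ, ∃ x : ℝ, x₀ ≤ x ∧ x ^ (1 - η) ≤ ({n : ℕ | n ∈ S ∧ (n : ℝ) ≤ x}.ncard : ℝ)

/-- the primes `q` congruent to `a` modulo `m` such that for all `j` the number `p j` with
`v * p j + u = z j * (v * q + u)` is a prime congruent to `a` modulo `m` -/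
def Shifted {n : ℕ} (u : ℤ) (v m a : ℕ) (z : Fin n → ℚ) : Set ℕ :=
  {q | (q.Prime ∧ q ≡ a [MOD m]) ∧ ∃ p : Fin n → ℕ, (∀ j, (p j).Prime ∧ p j ≡ a [MOD m]) ∧
    ∀ j, (v : ℚ) * p j + u = z j * (v * q + u)}

/-- Bohr neighbourhoods are syndetic -/
theorem syndetic {Γ : Type} [CommGroup Γ] (Θ : Finset (Γ →* Circle)) {ρ : ℝ} (hρ : 0 < ρ) :
    ∃ F : Finset Γ, ∀ g : Γ, ∃ f ∈ F, g * f ∈ Bohr Θ ρ := by
  classical
  obtain ⟨Φ, hΦ⟩ : ∃ Φ : Γ → (Θ → Circle), Φ = fun g χ => χ.1 g := ⟨_, rfl⟩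
  have h1 : TotallyBounded (Set.range Φ) :=
    (isCompact_univ (X := Θ → Circle)).totallyBounded.subset (Set.subset_univ _)
  obtain ⟨t, ht1, ht2, ht3⟩ := Metric.finite_approx_of_totallyBounded h1 ρ hρ
  have h2 : ∀ y ∈ t, ∃ g : Γ, Φ g = y := fun y hy => ht1 hy
  choose! G hG using h2
  refine ⟨(ht2.toFinset).image fun y => (G y)⁻¹, fun g => ?_⟩
  have h3 := ht3 (Set.mem_range_self g)
  rw [Set.mem_iUnion₂] at h3
  obtain ⟨y, hy, hgy⟩ := h3
  refine ⟨(G y)⁻¹, mem_image_of_mem _ (ht2.mem_toFinset.2 hy), fun χ hχ => ?_⟩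
  rw [Metric.mem_ball, ← hG y hy] at hgy
  have h4 := (dist_le_pi_dist (Φ g) (Φ (G y)) ⟨χ, hχ⟩).trans_lt hgy
  rw [hΦ] at h4
  simp only at h4
  have h5 : ‖((χ g : Circle) : ℂ) - ((χ (G y) : Circle) : ℂ)‖ < ρ := by
    rw [← dist_eq_norm]
    exact h4
  have h6 : ((χ (g * (G y)⁻¹) : Circle) : ℂ) - 1 =
      (((χ g : Circle) : ℂ) - ((χ (G y) : Circle) : ℂ)) * ((χ (G y)⁻¹ : Circle) : ℂ) := by
    rw [sub_mul, ← Circle.coe_mul, ← Circle.coe_mul, ← map_mul, ← map_mul, mul_inv_cancel, map_one,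
      Circle.coe_one]
  rw [h6, norm_mul, Circle.norm_coe, mul_one]
  exact h5

/-- the reduction modulo `M` of the rational numbers with numerators and denominators prime
to `M` -/
theorem red (M : ℕ) [NeZero M] (Γ : Subgroup ℚˣ)
    (hcop : ∀ r ∈ Γ, IsCoprime (((r : ℚˣ) : ℚ).num * ((r : ℚˣ) : ℚ).den) (M : ℤ)) :
    ∃ φ : Γ →* (ZMod M)ˣ, ∀ r : Γ, φ r = 1 → (M : ℤ) ∣ ((r : ℚˣ) : ℚ).num - ((r : ℚˣ) : ℚ).den := by
  have hn : ∀ r : Γ, IsUnit ((((r : ℚˣ) : ℚ).num : ℤ) : ZMod M) := fun r =>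
    (ZMod.coe_int_isUnit_iff_isCoprime _ _).2 (IsCoprime.of_mul_left_left (hcop r r.2)).symm
  have hd : ∀ r : Γ, IsUnit (((((r : ℚˣ) : ℚ).den : ℕ) : ℤ) : ZMod M) := fun r =>
    (ZMod.coe_int_isUnit_iff_isCoprime _ _).2 (IsCoprime.of_mul_left_right (hcop r r.2)).symm
  obtain ⟨f, hf⟩ : ∃ f : Γ → (ZMod M)ˣ, ∀ r : Γ, ((f r : (ZMod M)ˣ) : ZMod M) *
      (((((r : ℚˣ) : ℚ).den : ℕ) : ℤ) : ZMod M) = ((((r : ℚˣ) : ℚ).num : ℤ) : ZMod M) :=
    ⟨fun r => (hn r).unit * (hd r).unit⁻¹, fun r => by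
      rw [Units.val_mul, mul_assoc]
      have h1 : (((hd r).unit⁻¹ : (ZMod M)ˣ) : ZMod M) *
          (((((r : ℚˣ) : ℚ).den : ℕ) : ℤ) : ZMod M) = 1 := (hd r).val_inv_mul
      rw [h1, mul_one]
      rfl⟩
  refine ⟨MonoidHom.mk' f fun r s => ?_, fun r hr => ?_⟩
  · have h1 := hf r
    have h2 := hf s
    have h3 := hf (r * s)
    have h4 := congrArg (fun x : ℤ => (x : ZMod M)) (Rat.mul_num_den' ((r : ℚˣ) : ℚ) ((s : ℚˣ) : ℚ))
    have e1 : (((r * s : Γ) : ℚˣ) : ℚ) = ((r : ℚˣ) : ℚ) * ((s : ℚˣ) : ℚ) := by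
      push_cast
      rfl
    rw [e1] at h3
    have hu1 := hd r
    have hu2 := hd s
    have hu3 := hd (r * s)
    rw [e1] at hu3
    push_cast at h1 h2 h3 h4 hu1 hu2 hu3
    ext
    rw [Units.val_mul]
    refine (hu1.mul (hu2.mul hu3)).mul_right_cancel ?_
    rw [← h1, ← h2, ← h3] at h4
    linear_combination h4
  · have h1 : f r = 1 := hr
    have h2 := hf r
    rw [h1, Units.val_one, one_mul] at h2
    have h3 := (ZMod.intCast_eq_intCast_iff_dvd_sub _ _ _).1 h2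
    exact h3

/-- characters of the additive copy of a group -/
noncomputable def toHom {Γ : Type} [CommGroup Γ] (χ : AddChar (Additive Γ) Circle) : Γ →* Circle where
  toFun r := χ (Additive.ofMul r)
  map_one' := by
    rw [ofMul_one, AddChar.map_zero_eq_one]
  map_mul' r s := by
    rw [ofMul_mul, AddChar.map_add_eq_mul]

theorem big_often {S : Set ℕ} (h : Big S) : Often S := by
  intro η hη x₀
  obtain ⟨x, hx1, hx2⟩ := ((h η hη).and_eventually (eventually_ge_atTop x₀)).exists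
  exact ⟨x, hx2, hx1⟩

theorem main (u : ℤ) (v m a : ℕ) (hv : 0 < v) (hm : 0 < m) (ha : a.Coprime m)
    (Γ : Subgroup ℚˣ) (hpos : ∀ r ∈ Γ, 0 < ((r : ℚˣ) : ℚ))
    (hcop : ∀ r ∈ Γ, IsCoprime (((r : ℚˣ) : ℚ).num * ((r : ℚˣ) : ℚ).den) (u * (v * m)))
    (A : Set Γ) (k : ℕ) :
    ∃ c : ℝ, 0 < c ∧ ∃ (Θ : Finset (Γ →* Circle)) (ρ : ℝ), 0 < ρ ∧ ∃ N : Set Γ, Negligible N ∧
      ∀ r ∈ A, r ∈ Bohr Θ ρ → r ∉ N → r ≠ 1 →
        Rich {g : Fin k → Γ | ∃ z : Fin (k + 2) → Γ, z = Fin.cons 1 (Fin.cons r g : Fin (k + 1) → Γ) ∧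
          (∀ i j, i < j → z j / z i ∈ A) ∧
          Often (Shifted u v m a fun j => (((z j : Γ) : ℚˣ) : ℚ))} c := by
  classical
  let _ : TopologicalSpace (Additive Γ) := ⊥
  have : DiscreteTopology (Additive Γ) := ⟨rfl⟩
  obtain ⟨e, he⟩ : ∃ e : Additive Γ → ℚ, e = fun x => (((Additive.toMul x : Γ) : ℚˣ) : ℚ) := ⟨_, rfl⟩
  obtain ⟨c, hc, T, ρ1, hρ1, hnull⟩ := core u v m a hm ha e (by
    intro x y
    rw [he]
    simp) (by
    intro x
    rw [he]
    exact hpos _ (Additive.toMul x).2) (by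
    intro x
    rw [he]
    exact hcop _ (Additive.toMul x).2) {x | Additive.toMul x ∈ A} k
  -- the congruence
  obtain ⟨M, hM⟩ : ∃ M : ℕ, M = (v * m) ^ 2 := ⟨_, rfl⟩
  have hM0 : 0 < M := by rw [hM]; positivity
  have : NeZero M := ⟨hM0.ne'⟩
  obtain ⟨φ, hφ⟩ := red M Γ (fun r hr => by
    have h1 := IsCoprime.of_mul_right_right (hcop r hr)
    have h2 := h1.pow_right (n := 2)
    rw [hM]
    push_cast
    exact h2)
  obtain ⟨T2, ρ2, hρ2, hsep⟩ := sep (Additive (ZMod M)ˣ)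
  refine ⟨c, hc, (T.image toHom) ∪ T2.image (fun χ => toHom (χ.compAddMonoidHom (MonoidHom.toAdditive φ))),
    min ρ1 ρ2, lt_min hρ1 hρ2, {r | Additive.ofMul r ∈ ({d : Additive Γ | (d ∈ {x | Additive.toMul x ∈ A} ∧
      e d ≠ 1 ∧ ((v * m : ℤ) ^ 2) ∣ (e d).num - (e d).den) ∧ ¬ RichA {g : Fin k → Additive Γ |
        (Fin.cons 0 (Fin.cons d g : Fin (k + 1) → Additive Γ) : Fin (k + 2) → Additive Γ) ∈
          Pat u v m a e {x | Additive.toMul x ∈ A} k} c} ∩ Bo T ρ1)}, ?_, ?_⟩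
  · intro ε hε
    obtain ⟨n, hn, f, hf⟩ := null_comb hnull hε
    exact ⟨n, hn, fun i => Additive.toMul (f i), fun g => hf (Additive.ofMul g)⟩
  · intro r hrA hrB hrN hr1
    have hB1 : Additive.ofMul r ∈ Bo T ρ1 := by
      intro χ hχ
      exact (hrB (toHom χ) (mem_union_left _ (mem_image_of_mem _ hχ))).trans_le (min_le_left _ _)
    have hφr : φ r = 1 := by
      have h1 := hsep (Additive.ofMul (φ r)) (by
        intro χ hχ
        exact (hrB _ (mem_union_right _ (mem_image_of_mem _ hχ))).trans_le (min_le_right _ _))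
      exact h1
    have hdvd := hφ r hφr
    have hrich : RichA {g : Fin k → Additive Γ |
        (Fin.cons 0 (Fin.cons (Additive.ofMul r) g : Fin (k + 1) → Additive Γ) :
          Fin (k + 2) → Additive Γ) ∈ Pat u v m a e {x | Additive.toMul x ∈ A} k} c := by
      by_contra hcon
      refine hrN ⟨⟨⟨hrA, ?_, ?_⟩, hcon⟩, hB1⟩
      · rw [he]
        intro h
        apply hr1
        apply Subtype.ext
        apply Units.ext
        exact h
      · rw [he]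
        rw [hM] at hdvd
        push_cast at hdvd
        exact hdvd
    intro n hn f
    obtain ⟨g, hg⟩ := hrich n hn fun i j => Additive.ofMul (f i j)
    refine ⟨fun j => Additive.toMul (g j), hg.trans ?_⟩
    have hsub : {i : Fin n | g + (fun j => Additive.ofMul (f i j)) ∈ {g : Fin k → Additive Γ |
        (Fin.cons 0 (Fin.cons (Additive.ofMul r) g : Fin (k + 1) → Additive Γ) :
          Fin (k + 2) → Additive Γ) ∈ Pat u v m a e {x | Additive.toMul x ∈ A} k}} ⊆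
        {i : Fin n | (fun j => Additive.toMul (g j)) * f i ∈ {g : Fin k → Γ |
          ∃ z : Fin (k + 2) → Γ, z = Fin.cons 1 (Fin.cons r g : Fin (k + 1) → Γ) ∧
          (∀ i j, i < j → z j / z i ∈ A) ∧
          Often (Shifted u v m a fun j => (((z j : Γ) : ℚˣ) : ℚ))}} := by
      rintro i ⟨h1, h2⟩
      obtain ⟨z, hz⟩ : ∃ z : Fin (k + 2) → Γ, z = Fin.cons 1 (Fin.cons r
        ((fun j => Additive.toMul (g j)) * f i) : Fin (k + 1) → Γ) := ⟨_, rfl⟩
      have hz' : (Fin.cons 0 (Fin.cons (Additive.ofMul r) (g + fun j => Additive.ofMul (f i j)) :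
          Fin (k + 1) → Additive Γ) : Fin (k + 2) → Additive Γ) = fun j => Additive.ofMul (z j) := by
        rw [hz]
        funext j
        refine Fin.cases ?_ (fun j => ?_) j
        · rfl
        · refine Fin.cases ?_ (fun j => ?_) j
          · rfl
          · rfl
      rw [hz'] at h1 h2
      refine ⟨z, hz, h1, big_often (h2.mono ?_)⟩
      rintro q ⟨p, hp0, hp, Y, hY⟩
      have hz0 : z 0 = 1 := by
        rw [hz]
        rfl
      have hY0 : (v : ℚ) * q + u = Y := by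
        have h3 := hY 0
        rw [hp0, he] at h3
        simp only [toMul_ofMul, hz0] at h3
        simpa using h3
      refine ⟨by rw [← hp0]; exact hp 0, p, hp, fun j => ?_⟩
      rw [hY0, hY j, he]
      rfl
    exact_mod_cast Set.ncard_le_ncard hsub (Set.toFinite _)

end Pool.Agent.N688.GB
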