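import Pool.Agent.N688.GB.Defs

set_option autoImplicit false
set_option linter.unusedSectionVars false

/-!
# The Hilbert space of an extreme invariant mean
-/

open Filter Topology Finset
open scoped BoundedContinuousFunction InnerProductSpace ComplexConjugate

namespace Pool.Agent.N688.GB

variable {G : Type} [AddCommGroup G] [TopologicalSpace G] [DiscreteTopology G]

/-- invariant means, bundled -/
abbrev MM (G : Type) [AddCommGroup G] [TopologicalSpace G] [DiscreteTopology G] : Type :=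
  {m : (G →ᵇ ℝ) →ₗ[ℝ] ℝ // IsMean m}

set_option linter.unusedVariables false in
/-- the pre-Hilbert space of a mean -/
def PreV (M : MM G) : Type := G →ᵇ ℂ

variable (M : MM G)

noncomputable instance : AddCommGroup (PreV M) := inferInstanceAs (AddCommGroup (G →ᵇ ℂ))
noncomputable instance : Module ℂ (PreV M) := inferInstanceAs (Module ℂ (G →ᵇ ℂ))

/-- the identity map to the pre-Hilbert space -/
noncomputable def toV : (G →ᵇ ℂ) ≃ₗ[ℂ] PreV M := LinearEquiv.refl ℂ _

/-- the inner product -/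
noncomputable abbrev preCore : PreInnerProductSpace.Core ℂ (PreV M) where
  inner a b := mC M.1 (star ((toV M).symm a) * (toV M).symm b)
  conj_inner_symm a b := by
    rw [← mC_star]
    congr 1
    rw [star_mul, star_star]
  re_inner_nonneg a := mC_nonneg M.2 _
  add_left a b c := by
    rw [map_add, star_add, add_mul, map_add]
  smul_left a b r := by
    rw [map_smul, star_smul, smul_mul_assoc, map_smul]
    rfl

noncomputable instance : SeminormedAddCommGroup (PreV M) :=
  InnerProductSpace.Core.toSeminormedAddCommGroup (c := preCore M)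
noncomputable instance : InnerProductSpace ℂ (PreV M) :=
  InnerProductSpace.ofCore (preCore M)

theorem inner_toV (f g : G →ᵇ ℂ) : ⟪toV M f, toV M g⟫_ℂ = mC M.1 (star f * g) := rfl

/-- the Hilbert space -/
abbrev HH : Type := UniformSpace.Completion (PreV M)

/-- the canonical map -/
noncomputable def io : (G →ᵇ ℂ) →ₗ[ℂ] HH M :=
  (UniformSpace.Completion.toComplL (𝕜 := ℂ) (E := PreV M)).toLinearMap ∘ₗ (toV M).toLinearMap

theorem io_apply (f : G →ᵇ ℂ) : io M f = ((toV M f : PreV M) : HH M) := rfl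

theorem io_dense : DenseRange (io M) := by
  have h : DenseRange ((↑) : PreV M → HH M) := UniformSpace.Completion.denseRange_coe
  exact h.comp (toV M).surjective.denseRange (UniformSpace.Completion.continuous_coe _)

theorem inner_io (f g : G →ᵇ ℂ) : ⟪io M f, io M g⟫_ℂ = mC M.1 (star f * g) := by
  rw [io_apply, io_apply, UniformSpace.Completion.inner_coe, inner_toV]

/-! ### the unitaries -/

theorem norm_io_eq (f g : G →ᵇ ℂ) (h : mC M.1 (star f * f) = mC M.1 (star g * g)) :
    ‖io M f‖ = ‖io M g‖ := by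
  have h1 : ‖io M f‖ ^ 2 = ‖io M g‖ ^ 2 := by
    rw [← inner_self_eq_norm_sq (𝕜 := ℂ), ← inner_self_eq_norm_sq (𝕜 := ℂ), inner_io, inner_io, h]
  exact (pow_left_inj₀ (norm_nonneg _) (norm_nonneg _) (by norm_num)).1 h1

/-- the shift as a linear equivalence -/
noncomputable def shE (g : G) : (G →ᵇ ℂ) ≃ₗ[ℂ] (G →ᵇ ℂ) where
  toFun f := sh g f
  invFun f := sh (-g) f
  map_add' f g := by ext n; simp
  map_smul' c f := by ext n; simp
  left_inv f := by ext n; simp
  right_inv f := by ext n; simp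

theorem shE_apply (g : G) (f : G →ᵇ ℂ) : shE g f = sh g f := rfl

/-- multiplication by a character as a linear equivalence -/
noncomputable def muE (θ : AddChar G Circle) : (G →ᵇ ℂ) ≃ₗ[ℂ] (G →ᵇ ℂ) where
  toFun f := chr θ * f
  invFun f := chr θ⁻¹ * f
  map_add' f g := mul_add _ _ _
  map_smul' c f := by
    simp only [RingHom.id_apply, mul_smul_comm]
  left_inv f := by
    show chr θ⁻¹ * (chr θ * f) = f
    rw [← mul_assoc, chr_inv_mul, one_mul]
  right_inv f := by
    show chr θ * (chr θ⁻¹ * f) = f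
    rw [← mul_assoc, chr_mul_inv, one_mul]

theorem muE_apply (θ : AddChar G Circle) (f : G →ᵇ ℂ) : muE θ f = chr θ * f := rfl

/-- the Koopman operators -/
noncomputable def UU (g : G) : HH M ≃ₗᵢ[ℂ] HH M :=
  (shE g).extendOfIsometry (io M) (io M) (io_dense M) (io_dense M) (by
    intro f
    apply norm_io_eq
    rw [shE_apply]
    have h : star (sh g f) * sh g f = sh g (star f * f) := by ext n; simp
    rw [h, mC_sh M.2])

theorem UU_io (g : G) (f : G →ᵇ ℂ) : UU M g (io M f) = io M (sh g f) :=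
  LinearEquiv.extendOfIsometry_eq _ _ _ _ _ _ _

theorem UU_add (g h : G) (x : HH M) : UU M (g + h) x = UU M g (UU M h x) := by
  refine (io_dense M).induction_on (p := fun x => UU M (g + h) x = UU M g (UU M h x)) x ?_ ?_
  · exact isClosed_eq (UU M (g + h)).continuous ((UU M g).continuous.comp (UU M h).continuous)
  · intro f
    rw [UU_io, UU_io, UU_io]
    congr 1
    ext n
    simp only [sh_apply]
    congr 1
    abel

/-- multiplication by a character -/
noncomputable def MU (θ : AddChar G Circle) : HH M ≃ₗᵢ[ℂ] HH M :=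
  (muE θ).extendOfIsometry (io M) (io M) (io_dense M) (io_dense M) (by
    intro f
    apply norm_io_eq
    rw [muE_apply]
    have h : star (chr θ * f) * (chr θ * f) = star f * f := by
      rw [star_mul, star_chr]
      calc star f * chr θ⁻¹ * (chr θ * f) = star f * ((chr θ⁻¹ * chr θ) * f) := by ring
        _ = star f * f := by rw [chr_inv_mul, one_mul]
    rw [h])

theorem MU_io (θ : AddChar G Circle) (f : G →ᵇ ℂ) : MU M θ (io M f) = io M (chr θ * f) :=
  LinearEquiv.extendOfIsometry_eq _ _ _ _ _ _ _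

theorem UU_MU (θ : AddChar G Circle) (g : G) (x : HH M) :
    UU M g (MU M θ x) = ((θ g : Circle) : ℂ) • MU M θ (UU M g x) := by
  refine (io_dense M).induction_on
    (p := fun x => UU M g (MU M θ x) = ((θ g : Circle) : ℂ) • MU M θ (UU M g x)) x ?_ ?_
  · have h1 : Continuous fun x : HH M => MU M θ (UU M g x) :=
      (MU M θ).continuous.comp (UU M g).continuous
    exact isClosed_eq ((UU M g).continuous.comp (MU M θ).continuous)
      (h1.const_smul ((θ g : Circle) : ℂ))
  · intro f
    rw [MU_io, UU_io, UU_io, MU_io, ← map_smul]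
    congr 1
    ext n
    simp only [sh_apply, BoundedContinuousFunction.coe_mul, Pi.mul_apply, chr_apply,
      BoundedContinuousFunction.coe_smul, smul_eq_mul]
    rw [AddChar.map_add_eq_mul, Circle.coe_mul]
    ring

/-! ### invariant vectors -/

/-- the space of the invariant vectors -/
def Inv : Submodule ℂ (HH M) where
  carrier := {x | ∀ g, UU M g x = x}
  add_mem' := by
    intro x y hx hy g
    rw [map_add, hx g, hy g]
  zero_mem' := fun g => map_zero _
  smul_mem' := by
    intro c x hx g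
    rw [map_smul, hx g]

theorem Inv_closed : IsClosed ((Inv M : Submodule ℂ (HH M)) : Set (HH M)) := by
  have e : ((Inv M : Submodule ℂ (HH M)) : Set (HH M)) = ⋂ g, {x | UU M g x = x} := by
    ext x
    simp only [Set.mem_iInter]
    rfl
  rw [e]
  exact isClosed_iInter fun g => isClosed_eq (UU M g).continuous continuous_id

theorem UU_neg (g : G) (x : HH M) : UU M (-g) (UU M g x) = x := by
  rw [← UU_add, neg_add_cancel]
  refine (io_dense M).induction_on (p := fun x => UU M 0 x = x) x ?_ ?_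
  · exact isClosed_eq (UU M 0).continuous continuous_id
  · intro f
    rw [UU_io]
    congr 1
    ext n
    simp

/-- a closed convex invariant set contains the projections of its elements to the invariant
vectors -/
theorem proj_mem (K : Set (HH M)) (hKc : IsClosed K) (hKv : Convex ℝ K)
    (hKi : ∀ g, ∀ x ∈ K, UU M g x ∈ K) (x : HH M) (hx : x ∈ K) (w : HH M) (hw : w ∈ Inv M)
    (hxw : x - w ∈ (Inv M)ᗮ) : w ∈ K := by
  obtain ⟨C, hC⟩ : ∃ C : Set (HH M), C = {y | y ∈ K ∧ y - w ∈ (Inv M)ᗮ} := ⟨_, rfl⟩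
  have hCne : C.Nonempty := by
    rw [hC]
    exact ⟨x, hx, hxw⟩
  have hCcl : IsClosed C := by
    rw [hC]
    have h1 : IsClosed (((Inv M)ᗮ : Submodule ℂ (HH M)) : Set (HH M)) :=
      Submodule.isClosed_orthogonal _
    exact hKc.inter (h1.preimage (continuous_id.sub continuous_const))
  have hCv : Convex ℝ C := by
    rw [hC]
    intro a ha b hb s t hs ht hst
    refine ⟨hKv ha.1 hb.1 hs ht hst, ?_⟩
    have e : s • a + t • b - w = ((s : ℂ) • (a - w)) + ((t : ℂ) • (b - w)) := by
      have h1 : (s : ℂ) • (a - w) = s • a - s • w := by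
        rw [smul_sub]
        rfl
      have h2 : (t : ℂ) • (b - w) = t • b - t • w := by
        rw [smul_sub]
        rfl
      rw [h1, h2]
      have h3 : w = s • w + t • w := by rw [← add_smul, hst, one_smul]
      conv_lhs => rw [h3]
      abel
    rw [e]
    exact Submodule.add_mem _ (Submodule.smul_mem _ _ ha.2) (Submodule.smul_mem _ _ hb.2)
  have hCi : ∀ g, ∀ y ∈ C, UU M g y ∈ C := by
    intro g y hy
    rw [hC] at hy ⊢
    refine ⟨hKi g y hy.1, ?_⟩
    rw [Submodule.mem_orthogonal]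
    intro v hv
    have h1 : ⟪v, UU M g y - w⟫_ℂ = ⟪UU M g v, UU M g y - UU M g w⟫_ℂ := by
      rw [hv g, hw g]
    rw [h1, ← map_sub, LinearIsometryEquiv.inner_map_map]
    exact (Submodule.mem_orthogonal _ _).1 hy.2 v hv
  letI : InnerProductSpace ℝ (HH M) := InnerProductSpace.complexToReal
  obtain ⟨y, hyC, hy⟩ := exists_norm_eq_iInf_of_complete_convex (K := C) hCne hCcl.isComplete hCv 0
  have hmin := (norm_eq_iInf_iff_real_inner_le_zero hCv hyC).1 hy
  have hinv : ∀ g, UU M g y = y := by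
    intro g
    have h1 := hmin (UU M g y) (hCi g y hyC)
    have h2 : ‖UU M g y‖ = ‖y‖ := (UU M g).norm_map y
    have h3 : ‖UU M g y - y‖ ^ 2 = ‖UU M g y‖ ^ 2 - 2 * ⟪UU M g y, y⟫_ℝ + ‖y‖ ^ 2 :=
      norm_sub_sq_real _ _
    rw [zero_sub, inner_neg_left, inner_sub_right, real_inner_self_eq_norm_sq,
      real_inner_comm] at h1
    rw [h2] at h3
    have h4 : ‖UU M g y - y‖ ^ 2 ≤ 0 := by linarith
    have h5 : ‖UU M g y - y‖ = 0 := by
      have := sq_nonneg ‖UU M g y - y‖
      exact pow_eq_zero_iff (by norm_num) |>.1 (le_antisymm h4 this)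
    exact sub_eq_zero.1 (norm_eq_zero.1 h5)
  rw [hC] at hyC
  have h1 : y - w ∈ Inv M := Submodule.sub_mem _ hinv hw
  have h2 : ⟪y - w, y - w⟫_ℂ = 0 := (Submodule.mem_orthogonal _ _).1 hyC.2 _ h1
  have h3 : y = w := sub_eq_zero.1 (inner_self_eq_zero.1 h2)
  rw [← h3]
  exact hyC.1

variable {M}

theorem proj_unit (he : Extr M.1) (f : G →ᵇ ℝ) (hf : ∀ n, 0 ≤ f n ∧ f n ≤ 1) (v : HH M)
    (hv : v ∈ Inv M) (hfv : io M (co f) - v ∈ (Inv M)ᗮ) : ∃ c : ℂ, v = c • io M 1 := by
  obtain ⟨K, hK⟩ : ∃ K : Set (HH M), K = {y | ∀ g : G →ᵇ ℝ, (⟪y, io M (co g)⟫_ℂ).im = 0 ∧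
      ((∀ n, 0 ≤ g n) → 0 ≤ (⟪y, io M (co g)⟫_ℂ).re ∧ (⟪y, io M (co g)⟫_ℂ).re ≤ M.1 g)} :=
    ⟨_, rfl⟩
  have hc : ∀ g : G →ᵇ ℝ, Continuous fun y : HH M => ⟪y, io M (co g)⟫_ℂ := fun g =>
    continuous_id.inner continuous_const
  have hKc : IsClosed K := by
    have e : K = ⋂ g : G →ᵇ ℝ, ({y | (⟪y, io M (co g)⟫_ℂ).im = 0} ∩
        ⋂ (_ : ∀ n, 0 ≤ g n), ({y | 0 ≤ (⟪y, io M (co g)⟫_ℂ).re} ∩
          {y | (⟪y, io M (co g)⟫_ℂ).re ≤ M.1 g})) := by
      rw [hK]
      ext y
      simp only [Set.mem_ofPred_eq, Set.mem_iInter, Set.mem_inter_iff]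
    rw [e]
    refine isClosed_iInter fun g => IsClosed.inter ?_ (isClosed_iInter fun _ => IsClosed.inter ?_ ?_)
    · exact isClosed_eq (Complex.continuous_im.comp (hc g)) continuous_const
    · exact isClosed_le continuous_const (Complex.continuous_re.comp (hc g))
    · exact isClosed_le (Complex.continuous_re.comp (hc g)) continuous_const
  have hKv : Convex ℝ K := by
    rw [hK]
    intro a ha b hb s t hs ht hst g
    have e : ⟪s • a + t • b, io M (co g)⟫_ℂ =
        (s : ℂ) * ⟪a, io M (co g)⟫_ℂ + (t : ℂ) * ⟪b, io M (co g)⟫_ℂ := by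
      have h1 : s • a + t • b = (s : ℂ) • a + (t : ℂ) • b := rfl
      rw [h1, inner_add_left, inner_smul_left, inner_smul_left, Complex.conj_ofReal,
        Complex.conj_ofReal]
    obtain ⟨h1, h2⟩ := ha g
    obtain ⟨h3, h4⟩ := hb g
    have e1 : (⟪s • a + t • b, io M (co g)⟫_ℂ).im =
        s * (⟪a, io M (co g)⟫_ℂ).im + t * (⟪b, io M (co g)⟫_ℂ).im := by
      rw [e]
      simp
    have e2 : (⟪s • a + t • b, io M (co g)⟫_ℂ).re =
        s * (⟪a, io M (co g)⟫_ℂ).re + t * (⟪b, io M (co g)⟫_ℂ).re := by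
      rw [e]
      simp
    refine ⟨by rw [e1, h1, h3]; ring, fun hg => ?_⟩
    obtain ⟨h5, h6⟩ := h2 hg
    obtain ⟨h7, h8⟩ := h4 hg
    rw [e2]
    constructor
    · positivity
    · have h9 := mul_le_mul_of_nonneg_left h6 hs
      have h10 := mul_le_mul_of_nonneg_left h8 ht
      have h11 : s * M.1 g + t * M.1 g = M.1 g := by rw [← add_mul, hst, one_mul]
      linarith
  have hKi : ∀ g, ∀ y ∈ K, UU M g y ∈ K := by
    intro a y hy
    rw [hK] at hy ⊢
    intro g
    have h1 : ⟪UU M a y, io M (co g)⟫_ℂ = ⟪y, io M (co (sh (-a) g))⟫_ℂ := by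
      have h2 : io M (co g) = UU M a (io M (co (sh (-a) g))) := by
        rw [UU_io]
        congr 1
        ext n
        simp
      rw [h2, LinearIsometryEquiv.inner_map_map]
    rw [h1]
    refine ⟨(hy (sh (-a) g)).1, fun hg => ?_⟩
    have h3 := (hy (sh (-a) g)).2 fun n => hg _
    rw [M.2.inv] at h3
    exact h3
  have hfK : io M (co f) ∈ K := by
    rw [hK]
    intro g
    have h1 : ⟪io M (co f), io M (co g)⟫_ℂ = ((M.1 (f * g) : ℝ) : ℂ) := by
      rw [inner_io, star_co, ← co_mul, mC_co]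
    rw [h1, Complex.ofReal_im, Complex.ofReal_re]
    refine ⟨rfl, fun hg => ⟨?_, ?_⟩⟩
    · apply M.2.pos
      intro n
      rw [BoundedContinuousFunction.coe_mul, Pi.mul_apply]
      exact mul_nonneg (hf n).1 (hg n)
    · refine m_mono M.2 fun n => ?_
      rw [BoundedContinuousFunction.coe_mul, Pi.mul_apply]
      have := hf n
      have := hg n
      nlinarith
  have hvK := proj_mem M K hKc hKv hKi _ hfK v hv hfv
  rw [hK] at hvK
  let m' : (G →ᵇ ℝ) →ₗ[ℝ] ℝ :=
    { toFun := fun g => (⟪v, io M (co g)⟫_ℂ).re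
      map_add' := by
        intro a b
        rw [co_add, map_add, inner_add_right, Complex.add_re]
      map_smul' := by
        intro c a
        rw [co_smul, map_smul, inner_smul_right]
        simp }
  have hm' : ∀ g, m' g = (⟪v, io M (co g)⟫_ℂ).re := fun g => rfl
  have hE := he m' (fun g hg => (hvK g).2 hg) (by
    intro a g
    have h1 : ⟪v, UU M a (io M (co g))⟫_ℂ = ⟪v, io M (co g)⟫_ℂ := by
      have h3 := (UU M a).inner_map_map v (io M (co g))
      rw [hv a] at h3
      exact h3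
    rw [hm', hm', co_sh, ← UU_io, h1])
  refine ⟨((m' 1 : ℝ) : ℂ), ?_⟩
  refine (io_dense M).eq_of_inner_left ℂ fun g => ?_
  have hco : ∀ g : G →ᵇ ℝ, ⟪v, io M (co g)⟫_ℂ = ⟪((m' 1 : ℝ) : ℂ) • io M 1, io M (co g)⟫_ℂ := by
    intro g
    rw [inner_smul_left, inner_io, star_one, one_mul, mC_co, Complex.conj_ofReal,
      ← Complex.ofReal_mul, ← hE g, hm']
    apply Complex.ext
    · simp
    · rw [(hvK g).1]; simp
  rw [decomp g, map_add, map_smul, inner_add_right, inner_add_right, inner_smul_right,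
    inner_smul_right, hco, hco]

theorem proj_all (he : Extr M.1) (x w : HH M) (hw : w ∈ Inv M) (hxw : x - w ∈ (Inv M)ᗮ) :
    w ∈ Submodule.span ℂ {io M 1} := by
  haveI : CompleteSpace (Inv M) := (Inv_closed M).completeSpace_coe
  let P : HH M →L[ℂ] HH M := (Inv M).subtypeL ∘L (Inv M).orthogonalProjectionOnto
  have hP1 : ∀ y, P y ∈ Inv M := fun y => ((Inv M).orthogonalProjectionOnto y).2
  have hP2 : ∀ y, y - P y ∈ (Inv M)ᗮ := fun y => by
    exact Submodule.sub_starProjection_mem_orthogonal y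
  have hPx : P x = w := by
    have h1 : P x - w ∈ Inv M := Submodule.sub_mem _ (hP1 x) hw
    have h2 : P x - w ∈ (Inv M)ᗮ := by
      have e : P x - w = (x - w) - (x - P x) := by abel
      rw [e]
      exact Submodule.sub_mem _ hxw (hP2 x)
    have h3 : ⟪P x - w, P x - w⟫_ℂ = 0 := (Submodule.mem_orthogonal _ _).1 h2 _ h1
    exact sub_eq_zero.1 (inner_self_eq_zero.1 h3)
  rw [← hPx]
  have hunit : ∀ f : G →ᵇ ℝ, (∀ n, 0 ≤ f n ∧ f n ≤ 1) →
      P (io M (co f)) ∈ Submodule.span ℂ {io M 1} := by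
    intro f hf
    obtain ⟨c, hc⟩ := proj_unit he f hf (P (io M (co f))) (hP1 _) (hP2 _)
    rw [hc]
    exact Submodule.smul_mem _ _ (Submodule.mem_span_singleton_self _)
  have hreal : ∀ f : G →ᵇ ℝ, P (io M (co f)) ∈ Submodule.span ℂ {io M 1} := by
    intro f
    set C : ℝ := ‖f‖ + 1 with hC
    have hC0 : 0 < C := by positivity
    set f0 : G →ᵇ ℝ := (2 * C)⁻¹ • (f + C • (1 : G →ᵇ ℝ)) with hf0
    have h1 : f = (2 * C) • f0 + (-C) • (1 : G →ᵇ ℝ) := by
      rw [hf0, smul_smul, mul_inv_cancel₀ (by positivity), one_smul]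
      ext n
      simp
    have h2 : ∀ n, 0 ≤ f0 n ∧ f0 n ≤ 1 := by
      intro n
      have h3 := f.norm_coe_le_norm n
      rw [Real.norm_eq_abs, abs_le] at h3
      have h4 : f0 n = (2 * C)⁻¹ * (f n + C) := by
        rw [hf0]
        simp
        ring
      rw [h4]
      constructor
      · apply mul_nonneg (by positivity)
        linarith
      · rw [inv_mul_le_iff₀ (by positivity)]
        linarith
    clear_value f0
    rw [h1, co_add, co_smul, co_smul, map_add, map_smul, map_smul, map_add, map_smul, map_smul]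
    exact Submodule.add_mem _ (Submodule.smul_mem _ _ (hunit f0 h2))
      (Submodule.smul_mem _ _ (hunit 1 (by intro n; simp)))
  have hcl : IsClosed ((Submodule.span ℂ {io M 1} : Submodule ℂ (HH M)) : Set (HH M)) :=
    Submodule.closed_of_finiteDimensional _
  refine (io_dense M).induction_on (p := fun x => P x ∈ Submodule.span ℂ {io M 1}) x ?_ ?_
  · exact hcl.preimage P.continuous
  · intro f
    rw [decomp f, map_add, map_smul, map_add, map_smul]
    exact Submodule.add_mem _ (hreal _) (Submodule.smul_mem _ _ (hreal _))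

/-- eigenvectors are multiples of characters -/
theorem eigen (he : Extr M.1) (θ : AddChar G Circle) (v : HH M)
    (hv : ∀ g, UU M g v = ((θ g : Circle) : ℂ) • v) : ∃ c : ℂ, v = c • io M (chr θ) := by
  have h1 : MU M θ⁻¹ v ∈ Inv M := by
    intro g
    rw [UU_MU, hv, map_smul, smul_smul, ← Circle.coe_mul, AddChar.inv_apply,
      ← AddChar.map_add_eq_mul, neg_add_cancel, AddChar.map_zero_eq_one, Circle.coe_one, one_smul]
  have h2 := proj_all he (MU M θ⁻¹ v) (MU M θ⁻¹ v) h1 (by
    rw [sub_self]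
    exact Submodule.zero_mem _)
  rw [Submodule.mem_span_singleton] at h2
  obtain ⟨c, hc⟩ := h2
  refine ⟨c, ?_⟩
  apply (MU M θ⁻¹).injective
  rw [← hc, map_smul, MU_io, chr_inv_mul]

end Pool.Agent.N688.GB
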