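import Pool.Agent.N688.GB.Defs

set_option autoImplicit false
set_option linter.unusedSectionVars false

/-!
# Sets of measure zero for all invariant means: the combinatorial description
-/

open Filter Topology Finset
open scoped BoundedContinuousFunction

namespace Pool.Agent.N688.GB

variable {G : Type} [AddCommGroup G] [TopologicalSpace G] [DiscreteTopology G]

/-- the upper bounds for the averages over the translates of a finite family -/
def SU (φ : G →ᵇ ℝ) : Set ℝ :=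
  {c | ∃ (ι : Type) (_ : Fintype ι) (_ : Nonempty ι) (f : ι → G),
    ∀ g, ∑ i, φ (g + f i) ≤ c * Fintype.card ι}

theorem SU_mem (φ : G →ᵇ ℝ) {c : ℝ} (h : ∀ n, φ n ≤ c) : c ∈ SU φ := by
  refine ⟨Unit, inferInstance, inferInstance, fun _ => 0, fun g => ?_⟩
  simpa using h g

theorem SU_bdd (φ : G →ᵇ ℝ) : ∀ c ∈ SU φ, -‖φ‖ ≤ c := by
  rintro c ⟨ι, _, _, f, h⟩
  have h1 := h 0
  have h2 : ∑ _i : ι, (-‖φ‖) ≤ ∑ i, φ (0 + f i) := by
    refine sum_le_sum fun i _ => ?_
    have := φ.norm_coe_le_norm (0 + f i)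
    rw [Real.norm_eq_abs, abs_le] at this
    exact this.1
  rw [sum_const, card_univ, nsmul_eq_mul] at h2
  have h3 : (0 : ℝ) < Fintype.card ι := by exact_mod_cast Fintype.card_pos
  have h4 : (-‖φ‖) * Fintype.card ι ≤ c * Fintype.card ι := by linarith
  exact le_of_mul_le_mul_right h4 h3

/-- the sublinear functional -/
noncomputable def pp (φ : G →ᵇ ℝ) : ℝ := sInf (SU φ)

theorem pp_le {φ : G →ᵇ ℝ} {c : ℝ} (h : c ∈ SU φ) : pp φ ≤ c :=
  csInf_le ⟨_, SU_bdd φ⟩ h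

theorem le_pp {φ : G →ᵇ ℝ} {c : ℝ} (h : ∀ d ∈ SU φ, c ≤ d) : c ≤ pp φ := by
  refine le_csInf ⟨‖φ‖, SU_mem φ fun n => ?_⟩ h
  have := φ.norm_coe_le_norm n
  rw [Real.norm_eq_abs, abs_le] at this
  exact this.2

theorem SU_add {φ ψ : G →ᵇ ℝ} {c d : ℝ} (hc : c ∈ SU φ) (hd : d ∈ SU ψ) : c + d ∈ SU (φ + ψ) := by
  obtain ⟨ι, _, _, f, h⟩ := hc
  obtain ⟨κ, _, _, f', h'⟩ := hd
  refine ⟨ι × κ, inferInstance, inferInstance, fun p => f p.1 + f' p.2, fun g => ?_⟩
  have e1 : ∑ p : ι × κ, (φ + ψ) (g + (f p.1 + f' p.2)) =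
      ∑ j : κ, ∑ i : ι, φ ((g + f' j) + f i) + ∑ i : ι, ∑ j : κ, ψ ((g + f i) + f' j) := by
    simp only [BoundedContinuousFunction.coe_add, Pi.add_apply, sum_add_distrib]
    rw [Fintype.sum_prod_type_right, Fintype.sum_prod_type]
    congr 1
    · refine sum_congr rfl fun j _ => sum_congr rfl fun i _ => ?_
      congr 1
      abel
    · refine sum_congr rfl fun j _ => sum_congr rfl fun i _ => ?_
      congr 1
      abel
  rw [e1, Fintype.card_prod]
  have h1 : ∑ j : κ, ∑ i : ι, φ ((g + f' j) + f i) ≤ ∑ _j : κ, c * Fintype.card ι :=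
    sum_le_sum fun j _ => h _
  have h2 : ∑ i : ι, ∑ j : κ, ψ ((g + f i) + f' j) ≤ ∑ _i : ι, d * Fintype.card κ :=
    sum_le_sum fun i _ => h' _
  rw [sum_const, card_univ, nsmul_eq_mul] at h1 h2
  push_cast
  linarith

theorem pp_add (φ ψ : G →ᵇ ℝ) : pp (φ + ψ) ≤ pp φ + pp ψ := by
  have h1 : pp (φ + ψ) - pp ψ ≤ pp φ := by
    refine le_pp fun c hc => ?_
    have h2 : pp (φ + ψ) - c ≤ pp ψ := by
      refine le_pp fun d hd => ?_
      have := pp_le (SU_add hc hd)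
      linarith
    linarith
  linarith

theorem SU_smul {φ : G →ᵇ ℝ} {c t : ℝ} (ht : 0 ≤ t) (hc : c ∈ SU φ) : t * c ∈ SU (t • φ) := by
  obtain ⟨ι, _, _, f, h⟩ := hc
  refine ⟨ι, inferInstance, inferInstance, f, fun g => ?_⟩
  have e : ∑ i, (t • φ) (g + f i) = t * ∑ i, φ (g + f i) := by
    rw [mul_sum]
    rfl
  rw [e]
  have := mul_le_mul_of_nonneg_left (h g) ht
  linarith

theorem pp_smul (t : ℝ) (ht : 0 < t) (φ : G →ᵇ ℝ) : pp (t • φ) = t * pp φ := by
  apply le_antisymm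
  · have h1 : pp (t • φ) / t ≤ pp φ := by
      refine le_pp fun c hc => ?_
      rw [div_le_iff₀ ht]
      have := pp_le (SU_smul ht.le hc)
      linarith
    rw [div_le_iff₀ ht] at h1
    linarith
  · refine le_pp fun c hc => ?_
    have h1 := pp_le (SU_smul (inv_pos.2 ht).le hc)
    rw [smul_smul, inv_mul_cancel₀ ht.ne', one_smul] at h1
    calc t * pp φ ≤ t * (t⁻¹ * c) := mul_le_mul_of_nonneg_left h1 ht.le
      _ = c := by rw [← mul_assoc, mul_inv_cancel₀ ht.ne', one_mul]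

theorem pp_zero_le : 0 ≤ pp (0 : G →ᵇ ℝ) := by
  refine le_pp fun c hc => ?_
  have := SU_bdd (0 : G →ᵇ ℝ) c hc
  simpa using this

theorem pp_shift (a : G) (φ : G →ᵇ ℝ) : pp (φ - sh a φ) ≤ 0 := by
  have h1 : ∀ N : ℕ, pp (φ - sh a φ) ≤ (2 * ‖φ‖) * (1 / ((N : ℝ) + 1)) := by
    intro N
    apply pp_le
    refine ⟨Fin (N + 1), inferInstance, inferInstance, fun i => (i : ℕ) • a, fun g => ?_⟩
    rw [Fintype.card_fin]
    have e1 : ∑ i : Fin (N + 1), (φ - sh a φ) (g + (i : ℕ) • a) =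
        ∑ i ∈ range (N + 1), (φ (g + i • a) - φ (g + (i + 1) • a)) := by
      rw [← Fin.sum_univ_eq_sum_range (fun i => φ (g + i • a) - φ (g + (i + 1) • a))]
      refine sum_congr rfl fun i _ => ?_
      rw [BoundedContinuousFunction.coe_sub, Pi.sub_apply, sh_apply]
      congr 2
      rw [succ_nsmul]
      abel
    rw [e1, sum_range_sub']
    have h2 := φ.norm_coe_le_norm (g + 0 • a)
    have h3 := φ.norm_coe_le_norm (g + (N + 1) • a)
    rw [Real.norm_eq_abs, abs_le] at h2 h3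
    have e2 : 2 * ‖φ‖ * (1 / ((N : ℝ) + 1)) * ((N + 1 : ℕ) : ℝ) = 2 * ‖φ‖ := by
      push_cast
      field_simp
    rw [e2]
    linarith [h2.2, h3.1]
  have h2 : Tendsto (fun N : ℕ => (2 * ‖φ‖) * (1 / ((N : ℝ) + 1))) atTop (𝓝 0) := by
    have := (tendsto_one_div_add_atTop_nhds_zero_nat (𝕜 := ℝ)).const_mul (2 * ‖φ‖)
    rwa [mul_zero] at this
  exact ge_of_tendsto' h2 h1

theorem exists_mean (φ : G →ᵇ ℝ) (hφ : φ ≠ 0) :
    ∃ m : (G →ᵇ ℝ) →ₗ[ℝ] ℝ, IsMean m ∧ m φ = pp φ := by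
  have hp0 : pp (0 : G →ᵇ ℝ) = 0 :=
    le_antisymm (pp_le (SU_mem 0 fun n => le_refl _)) pp_zero_le
  obtain ⟨m, hm1, hm2⟩ := exists_extension_of_le_sublinear
    (LinearPMap.mkSpanSingleton φ (pp φ) hφ) pp pp_smul pp_add (by
      rintro ⟨x, hx⟩
      obtain ⟨t, rfl⟩ := Submodule.mem_span_singleton.1 hx
      rw [LinearPMap.mkSpanSingleton'_apply]
      show t * pp φ ≤ pp (t • φ)
      rcases lt_trichotomy t 0 with h | h | h
      · have h1 := pp_add (t • φ) ((-t) • φ)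
        rw [← add_smul, add_neg_cancel, zero_smul, hp0, pp_smul (-t) (by linarith)] at h1
        linarith
      · rw [h, zero_mul, zero_smul, hp0]
      · rw [pp_smul t h])
  have hmφ : m φ = pp φ := by
    have h1 := hm1 ⟨φ, Submodule.mem_span_singleton_self φ⟩
    exact h1.trans (LinearPMap.mkSpanSingleton_apply ℝ ℝ hφ (pp φ))
  refine ⟨m, ⟨fun f hf => ?_, ?_, fun a f => ?_⟩, hmφ⟩
  · have h1 := hm2 (-f)
    have h2 : pp (-f) ≤ 0 := pp_le (SU_mem _ fun n => by
      rw [BoundedContinuousFunction.coe_neg, Pi.neg_apply]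
      linarith [hf n])
    rw [map_neg] at h1
    linarith
  · apply le_antisymm
    · exact (hm2 1).trans (pp_le (SU_mem 1 fun n => le_refl _))
    · have h1 := hm2 (-1)
      have h2 : pp (-1 : G →ᵇ ℝ) ≤ -1 := pp_le (SU_mem _ fun n => by simp)
      rw [map_neg] at h1
      linarith
  · have h1 := (hm2 (f - sh a f)).trans (pp_shift a f)
    have h2 := (hm2 (-f - sh a (-f))).trans (pp_shift a (-f))
    have h3 : sh a (-f) = -(sh a f) := by
      ext n
      rfl
    rw [map_sub] at h1 h2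
    rw [h3, map_neg, map_neg] at h2
    linarith

/-- the combinatorial description of the null sets -/
theorem null_comb {X : Set G} (hX : Null X) {ε : ℝ} (hε : 0 < ε) :
    ∃ n : ℕ, 0 < n ∧ ∃ f : Fin n → G, ∀ g, ({i : Fin n | g + f i ∈ X}.ncard : ℝ) ≤ ε * n := by
  classical
  have hcard : ∀ (ι : Type) [Fintype ι] (f : ι → G) (g : G),
      ∑ i, ind X (g + f i) = ({i : ι | g + f i ∈ X}.ncard : ℝ) := by
    intro ι _ f g
    have h1 : ∀ i, ind X (g + f i) = if g + f i ∈ X then (1 : ℝ) else 0 := by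
      intro i
      by_cases h : g + f i ∈ X
      · rw [ind_mem h, if_pos h]
      · rw [ind_notMem h, if_neg h]
    rw [sum_congr rfl fun i _ => h1 i, sum_boole, ← Set.ncard_coe_finset]
    congr 2
    ext i
    simp
  by_contra hcon
  push Not at hcon
  have h1 : ε ≤ pp (ind X) := by
    refine le_pp fun c hc => ?_
    obtain ⟨ι, _, _, f, h⟩ := hc
    obtain ⟨e⟩ : Nonempty (Fin (Fintype.card ι) ≃ ι) := ⟨(Fintype.equivFin ι).symm⟩
    obtain ⟨g, hg⟩ := hcon (Fintype.card ι) Fintype.card_pos (fun i => f (e i))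
    have h2 := h g
    have h3 : ∑ i, ind X (g + f i) = ∑ i, ind X (g + f (e i)) :=
      (Equiv.sum_comp e fun i => ind X (g + f i)).symm
    rw [h3, hcard] at h2
    have h4 : (0 : ℝ) < Fintype.card ι := by exact_mod_cast Fintype.card_pos
    exact (lt_of_mul_lt_mul_right (hg.trans_le h2) h4.le).le
  have hne : ind X ≠ 0 := by
    intro h
    rw [h] at h1
    have h2 : pp (0 : G →ᵇ ℝ) ≤ 0 := pp_le (SU_mem 0 fun n => le_refl _)
    linarith
  obtain ⟨m, hm, h2⟩ := exists_mean (ind X) hne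
  rw [hX m hm] at h2
  linarith

end Pool.Agent.N688.GB
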