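import Pool.Agent.N688.GB.Appr

set_option autoImplicit false
set_option linter.unusedSectionVars false

/-!
# Iterated invariant means of functions of lists
-/

open Filter Topology Finset
open scoped BoundedContinuousFunction

namespace Pool.Agent.N688.GB

variable {G : Type} [AddCommGroup G] [TopologicalSpace G] [DiscreteTopology G]

/-- bounded functions -/
def Bd {α : Type} (f : α → ℝ) : Prop := ∃ C : ℝ, ∀ x, |f x| ≤ C

open Classical in
/-- a bounded function as an element of `G →ᵇ ℝ` -/
noncomputable def bcf (f : G → ℝ) : G →ᵇ ℝ :=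
  if h : Bd f then BoundedContinuousFunction.ofNormedAddCommGroupDiscrete f h.choose
    (fun x => by rw [Real.norm_eq_abs]; exact h.choose_spec x) else 0

theorem bcf_apply {f : G → ℝ} (h : Bd f) (n : G) : bcf f n = f n := by
  unfold bcf
  rw [dif_pos h]
  rfl

/-- the mean of a function -/
noncomputable def mm (m : MM G) (f : G → ℝ) : ℝ := m.1 (bcf f)

theorem Bd.add {α : Type} {f g : α → ℝ} (hf : Bd f) (hg : Bd g) : Bd (fun x => f x + g x) := by
  obtain ⟨C, hC⟩ := hf
  obtain ⟨D, hD⟩ := hg
  exact ⟨C + D, fun x => (abs_add_le _ _).trans (add_le_add (hC x) (hD x))⟩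

theorem Bd.smul {α : Type} {f : α → ℝ} (hf : Bd f) (c : ℝ) : Bd (fun x => c * f x) := by
  obtain ⟨C, hC⟩ := hf
  exact ⟨|c| * C, fun x => by rw [abs_mul]; exact mul_le_mul_of_nonneg_left (hC x) (abs_nonneg c)⟩

theorem Bd.const {α : Type} (c : ℝ) : Bd (fun _ : α => c) := ⟨|c|, fun _ => le_refl _⟩

theorem Bd.comp {α β : Type} {f : β → ℝ} (hf : Bd f) (g : α → β) : Bd (fun x => f (g x)) := by
  obtain ⟨C, hC⟩ := hf
  exact ⟨C, fun x => hC _⟩

theorem Bd.sum {α ι : Type} {f : ι → α → ℝ} (s : Finset ι) (hf : ∀ i ∈ s, Bd (f i)) :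
    Bd (fun x => ∑ i ∈ s, f i x) := by
  classical
  induction s using Finset.induction_on with
  | empty => simpa using Bd.const (α := α) 0
  | insert a s ha ih =>
    have h1 : (fun x => ∑ i ∈ insert a s, f i x) = fun x => f a x + ∑ i ∈ s, f i x := by
      funext x
      rw [sum_insert ha]
    rw [h1]
    exact (hf a (mem_insert_self a s)).add (ih fun i hi => hf i (mem_insert_of_mem hi))

theorem mm_add (m : MM G) {f g : G → ℝ} (hf : Bd f) (hg : Bd g) :
    mm m (fun x => f x + g x) = mm m f + mm m g := by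
  unfold mm
  rw [← map_add]
  congr 1
  ext n
  rw [bcf_apply (hf.add hg), BoundedContinuousFunction.coe_add, Pi.add_apply, bcf_apply hf,
    bcf_apply hg]

theorem mm_smul (m : MM G) {f : G → ℝ} (hf : Bd f) (c : ℝ) :
    mm m (fun x => c * f x) = c * mm m f := by
  unfold mm
  rw [← smul_eq_mul, ← map_smul]
  congr 1
  ext n
  rw [bcf_apply (hf.smul c), BoundedContinuousFunction.coe_smul]
  show c * f n = c • (bcf f) n
  rw [bcf_apply hf, smul_eq_mul]

theorem mm_const (m : MM G) (c : ℝ) : mm m (fun _ => c) = c := by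
  have h1 : bcf (fun _ : G => c) = c • 1 := by
    ext n
    rw [bcf_apply (Bd.const c)]
    simp
  unfold mm
  rw [h1, m_const m.2]

theorem mm_mono (m : MM G) {f g : G → ℝ} (hf : Bd f) (hg : Bd g) (h : ∀ x, f x ≤ g x) :
    mm m f ≤ mm m g := by
  unfold mm
  refine m_mono m.2 fun n => ?_
  rw [bcf_apply hf, bcf_apply hg]
  exact h n

theorem mm_shift (m : MM G) {f : G → ℝ} (hf : Bd f) (a : G) :
    mm m (fun x => f (x + a)) = mm m f := by
  unfold mm
  rw [← m.2.inv a (bcf f)]
  congr 1
  ext n
  rw [sh_apply, bcf_apply hf, bcf_apply (hf.comp fun x => x + a)]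

theorem mm_abs (m : MM G) {f : G → ℝ} {C : ℝ} (h : ∀ x, |f x| ≤ C) : |mm m f| ≤ C := by
  have hf : Bd f := ⟨C, h⟩
  rw [abs_le]
  constructor
  · have h1 := mm_mono m (Bd.const (-C)) hf fun x => (abs_le.1 (h x)).1
    rwa [mm_const] at h1
  · have h1 := mm_mono m hf (Bd.const C) fun x => (abs_le.1 (h x)).2
    rwa [mm_const] at h1

theorem mm_sum (m : MM G) {ι : Type} {f : ι → G → ℝ} (s : Finset ι) (hf : ∀ i ∈ s, Bd (f i)) :
    mm m (fun x => ∑ i ∈ s, f i x) = ∑ i ∈ s, mm m (f i) := by
  classical
  induction s using Finset.induction_on with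
  | empty => simpa using mm_const m 0
  | insert a s ha ih =>
    have h1 : (fun x => ∑ i ∈ insert a s, f i x) = fun x => f a x + ∑ i ∈ s, f i x := by
      funext x
      rw [sum_insert ha]
    have h2 : ∀ i ∈ s, Bd (f i) := fun i hi => hf i (mem_insert_of_mem hi)
    rw [h1, sum_insert ha, mm_add m (hf a (mem_insert_self a s)) (Bd.sum s h2), ih h2]

/-- the sum, over the choices of `r` of the means, of the iterated means of `f`; the first chosen
variable is shifted by `o` and by the variables which are not chosen -/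
noncomputable def V : List (MM G) → ℕ → G → (List G → ℝ) → ℝ
  | [], 0, _, f => f []
  | [], _ + 1, _, _ => 0
  | _ :: _, 0, _, f => f []
  | m :: ms, r + 1, o, f =>
    mm m (fun x => V ms (r + 1) (x + o) f + V ms r 0 (fun h => f ((x + o) :: h)))

theorem V_zero (ms : List (MM G)) (o : G) (f : List G → ℝ) : V ms 0 o f = f [] := by
  cases ms <;> rfl

theorem V_nil (r : ℕ) (o : G) (f : List G → ℝ) : V [] (r + 1) o f = 0 := rfl

theorem V_cons (m : MM G) (ms : List (MM G)) (r : ℕ) (o : G) (f : List G → ℝ) :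
    V (m :: ms) (r + 1) o f =
      mm m (fun x => V ms (r + 1) (x + o) f + V ms r 0 (fun h => f ((x + o) :: h))) := rfl

theorem V_abs (ms : List (MM G)) : ∀ (r : ℕ) (o : G) (f : List G → ℝ) (C : ℝ), (∀ h, |f h| ≤ C) →
    |V ms r o f| ≤ 2 ^ ms.length * C := by
  induction ms with
  | nil =>
    intro r o f C h
    have hC : 0 ≤ C := (abs_nonneg _).trans (h [])
    cases r with
    | zero => simpa [V_zero] using h []
    | succ r => simpa [V_nil] using hC
  | cons m ms ih =>
    intro r o f C h
    have hC : 0 ≤ C := (abs_nonneg _).trans (h [])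
    cases r with
    | zero =>
      rw [V_zero]
      refine (h []).trans ?_
      have : (1 : ℝ) ≤ 2 ^ (m :: ms).length := one_le_pow₀ (by norm_num)
      nlinarith
    | succ r =>
      rw [V_cons]
      refine mm_abs m fun x => (abs_add_le _ _).trans ?_
      have h1 := ih (r + 1) (x + o) f C h
      have h2 := ih r 0 (fun h => f ((x + o) :: h)) C fun h' => h _
      rw [List.length_cons, pow_succ]
      linarith

theorem V_bd1 (ms : List (MM G)) (r : ℕ) (o : G) {f : List G → ℝ} (hf : Bd f) :
    Bd (fun x => V ms r (x + o) f) := by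
  obtain ⟨C, hC⟩ := hf
  exact ⟨_, fun x => V_abs ms r (x + o) f C hC⟩

theorem V_bd2 (ms : List (MM G)) (r : ℕ) (o o' : G) {f : List G → ℝ} (hf : Bd f) :
    Bd (fun x => V ms r o' (fun h => f ((x + o) :: h))) := by
  obtain ⟨C, hC⟩ := hf
  exact ⟨_, fun x => V_abs ms r o' _ C fun h => hC _⟩

theorem V_add (ms : List (MM G)) : ∀ (r : ℕ) (o : G) (f g : List G → ℝ), Bd f → Bd g →
    V ms r o (fun h => f h + g h) = V ms r o f + V ms r o g := by
  induction ms with
  | nil =>
    intro r o f g _ _
    cases r with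
    | zero => rfl
    | succ r => simp [V_nil]
  | cons m ms ih =>
    intro r o f g hf hg
    cases r with
    | zero => rfl
    | succ r =>
      rw [V_cons, V_cons, V_cons, ← mm_add m ((V_bd1 ms (r + 1) o hf).add (V_bd2 ms r o 0 hf))
        ((V_bd1 ms (r + 1) o hg).add (V_bd2 ms r o 0 hg))]
      congr 1
      funext x
      rw [ih (r + 1) (x + o) f g hf hg,
        ih r 0 (fun h => f ((x + o) :: h)) (fun h => g ((x + o) :: h)) (hf.comp _) (hg.comp _)]
      ring

theorem V_smul (ms : List (MM G)) : ∀ (r : ℕ) (o : G) (f : List G → ℝ) (c : ℝ), Bd f →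
    V ms r o (fun h => c * f h) = c * V ms r o f := by
  induction ms with
  | nil =>
    intro r o f c _
    cases r with
    | zero => rfl
    | succ r => simp [V_nil]
  | cons m ms ih =>
    intro r o f c hf
    cases r with
    | zero => rfl
    | succ r =>
      rw [V_cons, V_cons, ← mm_smul m ((V_bd1 ms (r + 1) o hf).add (V_bd2 ms r o 0 hf))]
      congr 1
      funext x
      rw [ih (r + 1) (x + o) f c hf, ih r 0 (fun h => f ((x + o) :: h)) c (hf.comp _)]
      ring

theorem V_sum (ms : List (MM G)) (r : ℕ) (o : G) {ι : Type} (s : Finset ι) (F : ι → List G → ℝ)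
    (hF : ∀ i ∈ s, Bd (F i)) :
    V ms r o (fun h => ∑ i ∈ s, F i h) = ∑ i ∈ s, V ms r o (F i) := by
  classical
  induction s using Finset.induction_on with
  | empty =>
    have h := V_smul ms r o (fun _ => 0) 0 (Bd.const 0)
    simpa using h
  | insert a s ha ih =>
    have h1 : (fun x => ∑ i ∈ insert a s, F i x) = fun x => F a x + ∑ i ∈ s, F i x := by
      funext x
      rw [sum_insert ha]
    have h2 : ∀ i ∈ s, Bd (F i) := fun i hi => hF i (mem_insert_of_mem hi)
    rw [h1, sum_insert ha, V_add ms r o _ _ (hF a (mem_insert_self a s)) (Bd.sum s h2), ih h2]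

theorem V_mono (ms : List (MM G)) : ∀ (r : ℕ) (o : G) (f g : List G → ℝ), Bd f → Bd g →
    (∀ h, h.length = r → f h ≤ g h) → V ms r o f ≤ V ms r o g := by
  induction ms with
  | nil =>
    intro r o f g _ _ h
    cases r with
    | zero => exact h [] rfl
    | succ r => exact le_refl _
  | cons m ms ih =>
    intro r o f g hf hg h
    cases r with
    | zero => exact h [] rfl
    | succ r =>
      rw [V_cons, V_cons]
      refine mm_mono m ((V_bd1 ms (r + 1) o hf).add (V_bd2 ms r o 0 hf))
        ((V_bd1 ms (r + 1) o hg).add (V_bd2 ms r o 0 hg)) fun x => add_le_add ?_ ?_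
      · exact ih (r + 1) (x + o) f g hf hg h
      · refine ih r 0 _ _ (hf.comp _) (hg.comp _) fun h' hh' => h _ ?_
        rw [List.length_cons, hh']

theorem V_nonneg (ms : List (MM G)) (r : ℕ) (o : G) {f : List G → ℝ} (hf : Bd f)
    (h : ∀ h, 0 ≤ f h) : 0 ≤ V ms r o f := by
  have h1 := V_mono ms r o (fun _ => 0) f (Bd.const 0) hf fun h' _ => h h'
  have h2 := V_smul ms r o (fun _ => 0) 0 (Bd.const 0)
  simp only [zero_mul] at h2
  rwa [h2] at h1


/-- the iterated means are invariant under the shift of the list by a fixed list -/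
theorem V_shift (ms : List (MM G)) : ∀ (r : ℕ) (o : G) (f : List G → ℝ) (s : List G), Bd f →
    s.length = r → V ms r o (fun h => f (List.zipWith (· + ·) h s)) = V ms r o f := by
  induction ms with
  | nil =>
    intro r o f s _ hs
    cases r with
    | zero =>
      rw [V_zero, V_zero]
      rfl
    | succ r => rfl
  | cons m ms ih =>
    intro r o f s hf hs
    cases r with
    | zero =>
      rw [V_zero, V_zero]
      rfl
    | succ r =>
      obtain ⟨a, s', rfl⟩ : ∃ a s', s = a :: s' := by
        cases s with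
        | nil => simp at hs
        | cons a s' => exact ⟨a, s', rfl⟩
      have hs' : s'.length = r := by simpa using hs
      rw [V_cons, V_cons]
      have e1 : ∀ x : G, V ms (r + 1) (x + o) (fun h => f (List.zipWith (· + ·) h (a :: s'))) +
          V ms r 0 (fun h => f (List.zipWith (· + ·) ((x + o) :: h) (a :: s'))) =
          V ms (r + 1) (x + o) f + V ms r 0 (fun h => f ((x + a + o) :: h)) := by
        intro x
        rw [ih (r + 1) (x + o) f (a :: s') hf hs]
        congr 1
        have e2 : (fun h : List G => f (List.zipWith (· + ·) ((x + o) :: h) (a :: s'))) =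
            fun h => (fun h' => f ((x + a + o) :: h')) (List.zipWith (· + ·) h s') := by
          funext h
          simp only [List.zipWith_cons_cons]
          congr 2
          abel
        rw [e2, ih r 0 (fun h' => f ((x + a + o) :: h')) s' (hf.comp _) hs']
      simp only [e1]
      rw [mm_add m (V_bd1 ms (r + 1) o hf) ((V_bd2 ms r o 0 hf).comp fun x => x + a),
        mm_add m (V_bd1 ms (r + 1) o hf) (V_bd2 ms r o 0 hf)]
      congr 1
      exact mm_shift m (V_bd2 ms r o 0 hf) a

/-- small averages over all translates of a finite family imply small iterated means -/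
theorem V_le (ms : List (MM G)) (r : ℕ) (o : G) {f : List G → ℝ} (hf : Bd f)
    {κ : ℝ} (hκ : 0 ≤ κ) {n : ℕ} (hn : 0 < n) (s : Fin n → List G) (hs : ∀ i, (s i).length = r)
    (h : ∀ h, h.length = r → ∑ i, f (List.zipWith (· + ·) h (s i)) ≤ κ * n) :
    V ms r o f ≤ 2 ^ ms.length * κ := by
  have hn' : (0 : ℝ) < n := by exact_mod_cast hn
  have hb : ∀ i ∈ (Finset.univ : Finset (Fin n)), Bd fun h => f (List.zipWith (· + ·) h (s i)) :=
    fun i _ => hf.comp _
  have h1 : V ms r o (fun h => ∑ i, f (List.zipWith (· + ·) h (s i))) = n * V ms r o f := by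
    rw [V_sum ms r o _ _ hb, sum_congr rfl fun i _ => V_shift ms r o f (s i) hf (hs i), sum_const,
      card_univ, Fintype.card_fin, nsmul_eq_mul]
  have h2 := V_mono ms r o _ (fun _ => κ * n) (Bd.sum _ hb) (Bd.const _) h
  rw [h1] at h2
  have h3 : V ms r o (fun _ => κ * n) ≤ 2 ^ ms.length * (κ * n) :=
    (le_abs_self _).trans (V_abs ms r o _ (κ * n) fun _ => by
      rw [abs_of_nonneg (by positivity)])
  have h4 : V ms r o f * n ≤ (2 ^ ms.length * κ) * n := by
    calc V ms r o f * n = n * V ms r o f := mul_comm _ _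
      _ ≤ 2 ^ ms.length * (κ * n) := h2.trans h3
      _ = _ := by ring
  exact le_of_mul_le_mul_right h4 hn'

end Pool.Agent.N688.GB
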