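import Pool.Agent.N688.GB.Side

set_option autoImplicit false
set_option linter.unusedSectionVars false

/-!
# The structure theorem in terms of points
-/

open Filter Topology Finset

namespace Pool.Agent.N688.GB

variable {G : Type} [AddCommGroup G] [TopologicalSpace G] [DiscreteTopology G]

/-- transport of richness -/
theorem RichA.transport {k : ℕ} {W W' : Set (Fin k → G)} {c : ℝ} (h : RichA W c)
    (Φ Ψ : (Fin k → G) → (Fin k → G)) (a : (Fin k → G))
    (hΦ : ∀ v f, Φ (v + Ψ f) = Φ v + f) (hW : ∀ v ∈ W, Φ v + a ∈ W') : RichA W' c := by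
  intro n hn f
  obtain ⟨v, hv⟩ := h n hn fun i => Ψ (f i)
  refine ⟨Φ v + a, hv.trans ?_⟩
  have hsub : {i : Fin n | v + Ψ (f i) ∈ W} ⊆ {i : Fin n | Φ v + a + f i ∈ W'} := by
    intro i hi
    have h1 := hW _ hi
    rw [hΦ] at h1
    show Φ v + a + f i ∈ W'
    have e : Φ v + a + f i = Φ v + f i + a := by abel
    rw [e]
    exact h1
  exact_mod_cast Set.ncard_le_ncard hsub (Set.toFinite _)

/-- the pattern of the differences of the points of `Pat`, from the right -/
def QP {k : ℕ} (Pat : Set (Fin (k + 2) → G)) : Set (List G) :=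
  {l | ∃ z ∈ Pat, ∀ i : ℕ, ∀ h : i < k + 1,
    l.getD i 0 = z ⟨k + 1 - i, by omega⟩ - z ⟨k - i, by omega⟩}

theorem side_last {k : ℕ} (D₀ : Set G) (Pat : Set (Fin (k + 2) → G))
    (hinv : ∀ z ∈ Pat, ∀ a : G, (fun j => z j + a) ∈ Pat) (R : ℕ)
    (hfin : ∀ l : List G, l.length = R → Good D₀ l →
      ∃ y : Fin (k + 2) → ℕ, StrictMono y ∧ (∀ j, y j ≤ R) ∧ (fun j => (l.take (y j)).sum) ∈ Pat) :
    ∃ c : ℝ, 0 < c ∧ ∃ (T : Finset (AddChar G Circle)) (ρ : ℝ), 0 < ρ ∧
      Null ({d : G | d ∈ D₀ ∧ ¬ RichA {g : Fin k → G |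
        (fun j : Fin (k + 2) => if h : (j : ℕ) < k then g ⟨j, h⟩ else if (j : ℕ) = k then 0 else d)
          ∈ Pat} c} ∩ Bo T ρ) := by
  obtain ⟨c, hc, T, ρ, hρ, hnull⟩ := side (k := k) D₀ (QP Pat) R (by
    intro l hl hgood
    obtain ⟨y, hy1, hy2, hy3⟩ := hfin l hl hgood
    obtain ⟨Y, hY⟩ : ∃ Y : ℕ → ℕ, Y = fun i => if h : i < k + 2 then y ⟨i, h⟩ else 0 := ⟨_, rfl⟩
    have hYi : ∀ i (h : i < k + 2), Y i = y ⟨i, h⟩ := by
      intro i h
      rw [hY]
      simp only [h, dif_pos]
    have h1 := sub_mem l (k + 1) Y (by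
      intro i hi
      rw [hYi i (by omega), hYi (i + 1) (by omega)]
      exact hy1 (Fin.mk_lt_mk.2 (Nat.lt_succ_self i))) (by
      rw [hYi (k + 1) (by omega), hl]
      exact hy2 _)
    refine ⟨_, h1, by simp, _, hy3, fun i hi => ?_⟩
    rw [List.getD_eq_getElem _ _ (by
      rw [List.length_reverse, List.length_map, List.length_range]
      exact hi), List.getElem_reverse, List.getElem_map, List.getElem_range]
    have h2 : (List.map (fun i => (List.take (Y (i + 1)) l).sum - (List.take (Y i) l).sum)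
        (List.range (k + 1))).length - 1 - i = k - i := by
      simp
    rw [h2, hYi (k - i) (by omega), hYi (k - i + 1) (by omega)]
    have h3 : k - i + 1 = k + 1 - i := by omega
    simp only [h3])
  refine ⟨c, hc, T, ρ, hρ, null_mono ?_ hnull⟩
  rintro d ⟨⟨hd, hd2⟩, hdB⟩
  refine ⟨⟨hd, fun hrich => hd2 ?_⟩, hdB⟩
  refine hrich.transport (fun v j => -∑ i ∈ range (k - j), if h : i < k then v ⟨i, h⟩ else 0)
    (fun f i => (if h : k - i < k then f ⟨k - i, h⟩ else 0) - f ⟨k - 1 - i, by omega⟩) 0 ?_ ?_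
  · intro v f
    funext j
    obtain ⟨j, hj⟩ := j
    simp only [Pi.add_apply]
    have e1 : ∀ i ∈ range (k - j), (if h : i < k then (v ⟨i, h⟩ +
        ((if h : k - i < k then f ⟨k - i, h⟩ else 0) - f ⟨k - 1 - i, by omega⟩)) else 0) =
        (if h : i < k then v ⟨i, h⟩ else 0) +
        ((if h : k - i < k then f ⟨k - i, h⟩ else 0) -
          (if h : k - (i + 1) < k then f ⟨k - (i + 1), h⟩ else 0)) := by
      intro i hi
      rw [mem_range] at hi
      have h1 : i < k := by omega
      have h2 : k - (i + 1) < k := by omega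
      have h3 : k - 1 - i = k - (i + 1) := by omega
      simp only [h1, h2, dif_pos, h3]
    rw [sum_congr rfl e1, sum_add_distrib,
      sum_range_sub' (fun i => if h : k - i < k then f ⟨k - i, h⟩ else 0)]
    have h4 : k - (k - j) = j := by omega
    have h5 : ¬ (k - 0 < k) := by omega
    simp only [h4, hj, dif_pos, h5, dif_neg, not_false_iff]
    abel
  · rintro v ⟨z, hz, hzv⟩
    rw [add_zero]
    have hd' : d = z ⟨k + 1, by omega⟩ - z ⟨k, by omega⟩ := by
      have := hzv 0 (by omega)
      simpa using this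
    have hv' : ∀ i (h : i < k), v ⟨i, h⟩ = z ⟨k - i, by omega⟩ - z ⟨k - (i + 1), by omega⟩ := by
      intro i h
      have := hzv (i + 1) (by omega)
      rw [List.getD_cons_succ, List.getD_eq_getElem _ _ (by rw [List.length_ofFn]; exact h),
        List.getElem_ofFn] at this
      rw [this]
      congr 2
      ext
      show k + 1 - (i + 1) = k - i
      omega
    have h1 := hinv z hz (-(z ⟨k, by omega⟩))
    have e : (fun j : Fin (k + 2) => if h : (j : ℕ) < k then
        -∑ i ∈ range (k - j), (if h : i < k then v ⟨i, h⟩ else 0) else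
        if (j : ℕ) = k then 0 else d) = fun j => z j + -(z ⟨k, by omega⟩) := by
      funext j
      obtain ⟨j, hj⟩ := j
      simp only
      by_cases h : j < k
      · rw [dif_pos h]
        have e2 : ∀ i ∈ range (k - j), (if h : i < k then v ⟨i, h⟩ else 0) =
            z ⟨k - i, by omega⟩ - z ⟨k - (i + 1), by omega⟩ := by
          intro i hi
          rw [mem_range] at hi
          rw [dif_pos (by omega : i < k), hv']
        rw [sum_congr rfl e2, sum_range_sub' (fun i => z ⟨k - i, by omega⟩)]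
        have h4 : k - (k - j) = j := by omega
        simp only [h4, Nat.sub_zero]
        abel
      · rw [dif_neg h]
        by_cases h2 : j = k
        · subst h2
          simp
        · rw [if_neg h2, hd', sub_eq_add_neg]
          have h3 : j = k + 1 := by omega
          subst h3
          rfl
    rw [Set.mem_ofPred_eq, e]
    exact h1

theorem bo_neg {T : Finset (AddChar G Circle)} {ρ : ℝ} {z : G} (h : z ∈ Bo T ρ) : -z ∈ Bo T ρ := by
  intro θ hθ
  have h2 := h θ hθ
  have e4 : ((θ (-z) : Circle) : ℂ) * ((θ z : Circle) : ℂ) = 1 := by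
    rw [← Circle.coe_mul, ← AddChar.map_add_eq_mul, neg_add_cancel, AddChar.map_zero_eq_one,
      Circle.coe_one]
  have e3 : ((θ (-z) : Circle) : ℂ) - 1 =
      -(((θ (-z) : Circle) : ℂ) * (((θ z : Circle) : ℂ) - 1)) := by
    rw [mul_sub, e4, mul_one]
    ring
  rw [e3, norm_neg, norm_mul, Circle.norm_coe, one_mul]
  exact h2

/-- the structure theorem: patterns of points, the first two of which are given -/
theorem side_first {k : ℕ} (D₀ : Set G) (Pat : Set (Fin (k + 2) → G))
    (hinv : ∀ z ∈ Pat, ∀ a : G, (fun j => z j + a) ∈ Pat) (R : ℕ)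
    (hfin : ∀ x : ℕ → G, (∀ i j, i < j → j ≤ R → x j - x i ∈ D₀) →
      ∃ y : Fin (k + 2) → ℕ, StrictMono y ∧ (∀ j, y j ≤ R) ∧ (fun j => x (y j)) ∈ Pat) :
    ∃ c : ℝ, 0 < c ∧ ∃ (T : Finset (AddChar G Circle)) (ρ : ℝ), 0 < ρ ∧
      Null ({d : G | d ∈ D₀ ∧ ¬ RichA {g : Fin k → G |
        (Fin.cons 0 (Fin.cons d g : Fin (k + 1) → G) : Fin (k + 2) → G) ∈ Pat} c} ∩ Bo T ρ) := by
  obtain ⟨c, hc, T, ρ, hρ, hnull⟩ := side_last (k := k) {d | -d ∈ D₀}
    {z | (fun j => z (Fin.rev j)) ∈ Pat} (fun z hz a => hinv _ hz a) R (by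
      intro l hl hgood
      obtain ⟨y, hy1, hy2, hy3⟩ := hfin (fun i => (l.take (R - i)).sum) (by
        intro i j hij hj
        have h1 := good_sums l hgood (R - j) (R - i) (by omega) (by omega)
        have h2 : -((l.take (R - i)).sum - (l.take (R - j)).sum) ∈ D₀ := h1
        rwa [neg_sub] at h2)
      refine ⟨fun j => R - y (Fin.rev j), ?_, fun j => Nat.sub_le _ _, ?_⟩
      · intro i j hij
        have h1 : y (Fin.rev j) < y (Fin.rev i) := hy1 (Fin.rev_lt_rev.2 hij)
        have h2 := hy2 (Fin.rev i)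
        show R - y (Fin.rev i) < R - y (Fin.rev j)
        omega
      · show (fun j => (l.take (R - y (Fin.rev (Fin.rev j)))).sum) ∈ Pat
        simp only [Fin.rev_rev]
        exact hy3)
  refine ⟨c, hc, T, ρ, hρ, null_mono ?_ (null_neg hnull)⟩
  rintro d ⟨⟨hd, hd2⟩, hdB⟩
  refine ⟨⟨by rw [Set.mem_ofPred_eq, neg_neg]; exact hd, fun hrich => hd2 ?_⟩, bo_neg hdB⟩
  refine hrich.transport (fun v j => v (Fin.rev j)) (fun v j => v (Fin.rev j)) (fun _ => d) ?_ ?_
  · intro v f
    funext j
    simp only [Pi.add_apply, Fin.rev_rev]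
  · intro v hv
    have h1 := hinv _ hv d
    have e : (Fin.cons 0 (Fin.cons d ((fun j => v (Fin.rev j)) + fun _ => d) : Fin (k + 1) → G) :
        Fin (k + 2) → G) = fun j => (fun j => (fun j : Fin (k + 2) => if h : (j : ℕ) < k then
          v ⟨j, h⟩ else if (j : ℕ) = k then 0 else -d) (Fin.rev j)) j + d := by
      funext j
      refine Fin.cases ?_ (fun j => ?_) j
      · have h2 : ((Fin.rev (0 : Fin (k + 2)) : Fin (k + 2)) : ℕ) = k + 1 := by
          rw [Fin.val_rev]
          simp
        simp only [Fin.cons_zero, h2]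
        rw [dif_neg (by omega), if_neg (by omega), neg_add_cancel]
      · refine Fin.cases ?_ (fun j => ?_) j
        · have h2 : ((Fin.rev (Fin.succ (0 : Fin (k + 1))) : Fin (k + 2)) : ℕ) = k := by
            rw [Fin.val_rev]
            simp
          simp only [Fin.cons_succ, Fin.cons_zero, h2]
          rw [dif_neg (by omega), if_pos trivial, zero_add]
        · have h2 : ((Fin.rev (Fin.succ (Fin.succ j)) : Fin (k + 2)) : ℕ) = k - 1 - j := by
            rw [Fin.val_rev]
            simp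
            omega
          have hj := j.2
          simp only [Fin.cons_succ, Pi.add_apply, h2]
          rw [dif_pos (by omega)]
          congr 2
          ext
          rw [Fin.val_rev]
          show k - ((j : ℕ) + 1) = k - 1 - j
          omega
    rw [Set.mem_ofPred_eq, e]
    exact h1

end Pool.Agent.N688.GB
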