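import Pool.Agent.N688.GB.Chain
import Pool.Agent.N688.GB.HB

set_option autoImplicit false
set_option linter.unusedSectionVars false

/-!
# The structure theorem: patterns of several differences with a given last difference
-/

open Filter Topology Finset

namespace Pool.Agent.N688.GB

variable {G : Type} [AddCommGroup G] [TopologicalSpace G] [DiscreteTopology G]

/-- differences of partial sums -/
theorem good_sums {E : Set G} : ∀ l : List G, Good E l → ∀ i j : ℕ, i < j → j ≤ l.length →
    (l.take j).sum - (l.take i).sum ∈ E := by
  intro l
  induction l with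
  | nil =>
    intro _ i j h1 h2
    simp at h2
    omega
  | cons a l ih =>
    intro h i j hij hj
    obtain ⟨h1, h2⟩ := h
    cases j with
    | zero => omega
    | succ j =>
      cases i with
      | zero =>
        have := h1 (l.take j) (List.take_prefix j l)
        simpa using this
      | succ i =>
        have := ih h2 i j (by omega) (by simpa using hj)
        simpa using this

/-- the sub-pattern given by increasing positions -/
theorem sub_mem (l : List G) : ∀ (n : ℕ) (y : ℕ → ℕ), (∀ i < n, y i < y (i + 1)) → y n ≤ l.length →
    ((l.take (y 0)).sum, (List.range n).map fun i =>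
      (l.take (y (i + 1))).sum - (l.take (y i)).sum) ∈ sub l := by
  induction l with
  | nil =>
    intro n y hy hn
    rw [List.length_nil] at hn
    cases n with
    | zero => simp [sub]
    | succ n =>
      have := hy n (by omega)
      omega
  | cons a l ih =>
    intro n y hy hn
    rw [List.length_cons] at hn
    have hmono : ∀ i ≤ n, y 0 + i ≤ y i := by
      intro i
      induction i with
      | zero => intro _; omega
      | succ i ih =>
        intro hi
        have h1 := ih (by omega)
        have h2 := hy i (by omega)
        omega
    have htake : ∀ i : ℕ, 1 ≤ i → ((a :: l).take i).sum = a + (l.take (i - 1)).sum := by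
      intro i hi
      obtain ⟨j, rfl⟩ : ∃ j, i = j + 1 := ⟨i - 1, by omega⟩
      simp
    rw [sub, List.mem_append]
    rcases Nat.eq_zero_or_pos (y 0) with h0 | h0
    · right
      cases n with
      | zero =>
        rw [h0]
        simp
      | succ n =>
        have h1 := ih n (fun i => y (i + 1) - 1) (by
          intro i hi
          have h2 := hy (i + 1) (by omega)
          have h3 := hmono (i + 1) (by omega)
          omega) (by omega)
        refine List.mem_cons_of_mem _ (List.mem_map.2 ⟨_, h1, ?_⟩)
        simp only [Prod.mk.injEq]
        refine ⟨by rw [h0]; simp, ?_⟩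
        rw [List.range_succ_eq_map, List.map_cons, List.map_map]
        congr 1
        · rw [h0, htake (y (0 + 1)) (by have := hmono 1 (by omega); simpa using this.trans' (by omega))]
          simp
        · refine List.map_congr_left fun i hi => ?_
          rw [List.mem_range] at hi
          have h3 := hmono (i + 1) (by omega)
          have h4 := hmono (i + 1 + 1) (by omega)
          simp only [Function.comp, Nat.succ_eq_add_one]
          rw [htake _ (by omega), htake _ (by omega)]
          abel
    · left
      have h1 := ih n (fun i => y i - 1) (by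
        intro i hi
        have h2 := hy i hi
        have h3 := hmono i (by omega)
        omega) (by omega)
      rw [List.mem_map]
      refine ⟨_, h1, ?_⟩
      simp only [Prod.mk.injEq]
      refine ⟨by rw [htake _ h0], ?_⟩
      refine List.map_congr_left fun i hi => ?_
      rw [List.mem_range] at hi
      have h3 := hmono i (by omega)
      have h4 := hmono (i + 1) (by omega)
      rw [htake _ (by omega), htake _ (by omega)]
      abel

/-- the upper Banach density of `W` is at least `c` -/
def RichA {k : ℕ} (W : Set (Fin k → G)) (c : ℝ) : Prop :=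
  ∀ n : ℕ, 0 < n → ∀ f : Fin n → Fin k → G, ∃ g : Fin k → G,
    c * n ≤ ({i : Fin n | g + f i ∈ W}.ncard : ℝ)

theorem zipWith_ofFn {k : ℕ} (v w : Fin k → G) :
    List.zipWith (· + ·) (List.ofFn v) (List.ofFn w) = List.ofFn (v + w) := by
  apply List.ext_getElem
  · simp
  · intro i h1 h2
    simp

/-- the structure theorem -/
theorem side {k : ℕ} (D₀ : Set G) (Q : Set (List G)) (R : ℕ)
    (hfin : ∀ l : List G, l.length = R → Good D₀ l →
      ∃ s ∈ sub l, s.2.length = k + 1 ∧ s.2.reverse ∈ Q) :
    ∃ c : ℝ, 0 < c ∧ ∃ (T : Finset (AddChar G Circle)) (ρ : ℝ), 0 < ρ ∧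
      Null ({d : G | d ∈ D₀ ∧ ¬ RichA {v : Fin k → G | d :: List.ofFn v ∈ Q} c} ∩ Bo T ρ) := by
  classical
  by_contra hcon
  push Not at hcon
  let D : ℝ → Set G := fun κ => {d : G | d ∈ D₀ ∧ ¬ RichA {v : Fin k → G | d :: List.ofFn v ∈ Q} κ}
  obtain ⟨l, hl, hgood, hno⟩ := chain_main (k + 1) Q (by omega) D₀ D (fun κ d hd => hd.1)
    (fun κ hκ T ρ hρ => hcon κ hκ T ρ hρ) (by
      rintro κ hκ d ⟨-, hd⟩ ms
      unfold RichA at hd
      push Not at hd
      obtain ⟨n, hn, f, hf⟩ := hd
      have e1 : term (k + 1) Q ms 0 [d] = V ms k 0 (F Q [d]) := by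
        unfold term
        rw [if_neg (by simp), if_pos (by simp)]
        simp
      rw [e1]
      refine V_le ms k 0 (F_bd Q [d]) hκ.le hn (fun i => List.ofFn (f i)) (fun i => by simp)
        fun h hh => ?_
      obtain ⟨v, rfl⟩ : ∃ v : Fin k → G, List.ofFn v = h := by
        subst hh
        exact ⟨fun i => h.get i, List.ofFn_get h⟩
      refine le_trans (le_of_eq ?_) (hf v).le
      have e2 : ∀ i, F Q [d] (List.zipWith (· + ·) (List.ofFn v) (List.ofFn (f i))) =
          if v + f i ∈ {v : Fin k → G | d :: List.ofFn v ∈ Q} then (1 : ℝ) else 0 := by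
        intro i
        rw [zipWith_ofFn]
        unfold F
        simp
      rw [sum_congr rfl fun i _ => e2 i, sum_boole, ← Set.ncard_coe_finset]
      congr 2
      ext i
      simp) R
  obtain ⟨s, hs, h1, h2⟩ := hfin l hl hgood
  exact hno s hs h1 h2

end Pool.Agent.N688.GB
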